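import Mathlib

/-! # Quadratic forms over `ℂ[x_1, …, x_n]` with a point of rank one -/

set_option autoImplicit false

namespace Pool.Agent.Q79.CN

open MvPolynomial

noncomputable section

abbrev Rn (n : ℕ) := MvPolynomial (Fin n) ℂ

variable {n : ℕ}

theorem linear_dvd {a w : (Rn n)} (ha : a.IsHomogeneous 1) (ha0 : a ≠ 0) (h : w ∣ a) :
    (∃ c : ℂ, w = C c) ∨ ∃ c : ℂ, w = C c * a := by
  obtain ⟨z, hz⟩ := h
  have hw0 : w ≠ 0 := by
    rintro rfl
    exact ha0 (by rw [hz, zero_mul])
  have hz0 : z ≠ 0 := by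
    rintro rfl
    exact ha0 (by rw [hz, mul_zero])
  have h1 : w.totalDegree + z.totalDegree = 1 := by
    rw [← totalDegree_mul_of_isDomain hw0 hz0, ← hz, ha.totalDegree ha0]
  rcases Nat.eq_zero_or_pos w.totalDegree with h2 | h2
  · left
    exact ⟨_, totalDegree_eq_zero_iff_eq_C.1 h2⟩
  · right
    have h3 : z.totalDegree = 0 := by omega
    obtain ⟨c, rfl⟩ : ∃ c, z = C c := ⟨_, totalDegree_eq_zero_iff_eq_C.1 h3⟩
    have hc : c ≠ 0 := by
      rintro rfl
      exact hz0 (by rw [C_0])
    refine ⟨c⁻¹, ?_⟩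
    rw [hz, mul_left_comm, ← C_mul, inv_mul_cancel₀ hc, C_1, mul_one]

theorem aeval_smul_form' {a : (Rn n)} (ha : a.IsHomogeneous 1) : eval 0 a = 0 := by
  rw [eval_zero, constantCoeff_eq]
  exact ha.coeff_eq_zero (by simp)

theorem eval_zero_of_linear {a : (Rn n)} (ha : a.IsHomogeneous 1) : eval 0 a = 0 := by
  have h1 := aeval_smul_form' ha
  rw [h1]

/-- binary quadratic forms with linear coefficients and without constant zeros -/
theorem binary {a b c : (Rn n)} (ha : a.IsHomogeneous 1) (hb : b.IsHomogeneous 1)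
    (hc : c.IsHomogeneous 1)
    (h : ∀ p q : ℂ, C (p ^ 2) * a + C (2 * p * q) * b + C (q ^ 2) * c = 0 → p = 0 ∧ q = 0)
    (W V : (Rn n)) (hW : a * W ^ 2 + 2 * b * W * V + c * V ^ 2 = 0) : W = 0 ∧ V = 0 := by
  have ha0 : a ≠ 0 := by
    rintro rfl
    have := (h 1 0 (by simp)).1
    exact one_ne_zero this
  have hc0 : c ≠ 0 := by
    rintro rfl
    have := (h 0 1 (by simp)).2
    exact one_ne_zero this
  by_contra hcon
  have hW0 : W ≠ 0 := by
    rintro rfl
    have h1 : c * V ^ 2 = 0 := by
      have : (0 : (Rn n)) ^ 2 = 0 := by ring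
      linear_combination hW
    rcases mul_eq_zero.1 h1 with h2 | h2
    · exact hc0 h2
    · exact hcon ⟨rfl, by simpa using h2⟩
  obtain ⟨w, v, g, hrel, hgw, hgv⟩ :=
    UniqueFactorizationMonoid.exists_reduced_factors W hW0 V
  have hg0 : g ≠ 0 := by
    rintro rfl
    exact hW0 (by rw [← hgw, zero_mul])
  have hw0 : w ≠ 0 := by
    rintro rfl
    exact hW0 (by rw [← hgw, mul_zero])
  have hwv : a * w ^ 2 + 2 * b * w * v + c * v ^ 2 = 0 := by
    have h1 : g ^ 2 * (a * w ^ 2 + 2 * b * w * v + c * v ^ 2) = 0 := by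
      rw [← hW, ← hgw, ← hgv]
      ring
    exact (mul_eq_zero.1 h1).resolve_left (pow_ne_zero 2 hg0)
  have hv0 : v ≠ 0 := by
    rintro rfl
    have h1 : a * w ^ 2 = 0 := by linear_combination hwv
    exact (mul_ne_zero ha0 (pow_ne_zero 2 hw0)) h1
  have hva : v ∣ a := by
    have h1 : v ∣ a * w ^ 2 := ⟨-(2 * b * w + c * v), by linear_combination hwv⟩
    exact (hrel.symm.pow_right).dvd_of_dvd_mul_right h1
  have hwc : w ∣ c := by
    have h1 : w ∣ c * v ^ 2 := ⟨-(a * w + 2 * b * v), by linear_combination hwv⟩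
    exact (hrel.pow_right).dvd_of_dvd_mul_right h1
  have ea : eval 0 a = 0 := eval_zero_of_linear ha
  have eb : eval 0 b = 0 := eval_zero_of_linear hb
  have ec : eval 0 c = 0 := eval_zero_of_linear hc
  rcases linear_dvd ha ha0 hva with ⟨q, rfl⟩ | ⟨q, rfl⟩
  · rcases linear_dvd hc hc0 hwc with ⟨p, rfl⟩ | ⟨p, rfl⟩
    · have h1 := h p q (by
        rw [← hwv]
        simp only [C_mul, C_pow, map_ofNat]
        ring)
      exact hw0 (by rw [h1.1, C_0])
    · have h1 : c * (C (p ^ 2) * a * c + C (2 * p * q) * b + C (q ^ 2)) = 0 := by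
        rw [← hwv]
        simp only [C_mul, C_pow, map_ofNat]
        ring
      have h2 := (mul_eq_zero.1 h1).resolve_left hc0
      have h3 := congrArg (eval 0) h2
      simp only [map_add, map_mul, eval_C, ea, eb, ec, mul_zero, zero_add, map_zero] at h3
      have h4 : q = 0 := by simpa using h3
      exact hv0 (by rw [h4, C_0])
  · rcases linear_dvd hc hc0 hwc with ⟨p, rfl⟩ | ⟨p, rfl⟩
    · have h1 : a * (C (p ^ 2) + C (2 * p * q) * b + C (q ^ 2) * a * c) = 0 := by
        rw [← hwv]
        simp only [C_mul, C_pow, map_ofNat]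
        ring
      have h2 := (mul_eq_zero.1 h1).resolve_left ha0
      have h3 := congrArg (eval 0) h2
      simp only [map_add, map_mul, eval_C, ea, eb, ec, mul_zero, add_zero, map_zero] at h3
      have h4 : p = 0 := by simpa using h3
      exact hw0 (by rw [h4, C_0])
    · have h1 : (a * c) * (C (q ^ 2) * a + C (2 * q * p) * b + C (p ^ 2) * c) = 0 := by
        rw [← hwv]
        simp only [C_mul, C_pow, map_ofNat]
        ring
      have h2 := (mul_eq_zero.1 h1).resolve_left (mul_ne_zero ha0 hc0)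
      have h3 := h q p h2
      exact hw0 (by rw [h3.2, C_0, zero_mul])

/-- a basis of the kernel -/
theorem param (k : Fin 3) (μ : Fin 3 → ℂ) (hk : μ k ≠ 0) (v : Fin 3 → (Rn n))
    (hv : ∑ i, C (μ i) * v i = 0) :
    ∃ (P Q : Fin 3 → ℂ) (W V : (Rn n)), ∑ i, μ i * P i = 0 ∧ ∑ i, μ i * Q i = 0 ∧
      (∀ p q : ℂ, (fun i => p * P i + q * Q i) = 0 → p = 0 ∧ q = 0) ∧
      (∀ i, v i = C (P i) * W + C (Q i) * V) := by
  have key : ∀ i j l : Fin 3, μ i ≠ 0 → C (μ i) * v i + C (μ j) * v j + C (μ l) * v l = 0 →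
      v i = C (-(μ j) / μ i) * v j + C (-(μ l) / μ i) * v l := by
    intro i j l hi h
    have h1 : (C (μ i) : (Rn n)) ≠ 0 := by
      rw [Ne, C_eq_zero]
      exact hi
    apply mul_left_cancel₀ h1
    rw [mul_add, ← mul_assoc, ← mul_assoc, ← C_mul, ← C_mul, mul_div_cancel₀ _ hi,
      mul_div_cancel₀ _ hi, C_neg, C_neg]
    linear_combination h
  rw [Fin.sum_univ_three] at hv
  fin_cases k
  · have hk' : μ 0 ≠ 0 := hk
    refine ⟨![-(μ 1) / μ 0, 1, 0], ![-(μ 2) / μ 0, 0, 1], v 1, v 2, ?_, ?_, ?_, ?_⟩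
    · simp [Fin.sum_univ_three]
      field_simp
      ring
    · simp [Fin.sum_univ_three]
      field_simp
      ring
    · intro p q h
      have h1 := congrFun h 1
      have h2 := congrFun h 2
      simp at h1 h2
      exact ⟨h1, h2⟩
    · intro i
      fin_cases i
      · exact key 0 1 2 hk' hv
      · simp
      · simp
  · have hk' : μ 1 ≠ 0 := hk
    refine ⟨![1, -(μ 0) / μ 1, 0], ![0, -(μ 2) / μ 1, 1], v 0, v 2, ?_, ?_, ?_, ?_⟩
    · simp [Fin.sum_univ_three]
      field_simp
      ring
    · simp [Fin.sum_univ_three]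
      field_simp
      ring
    · intro p q h
      have h1 := congrFun h 0
      have h2 := congrFun h 2
      simp at h1 h2
      exact ⟨h1, h2⟩
    · intro i
      fin_cases i
      · simp
      · exact key 1 0 2 hk' (by linear_combination hv)
      · simp
  · have hk' : μ 2 ≠ 0 := hk
    refine ⟨![1, 0, -(μ 0) / μ 2], ![0, 1, -(μ 1) / μ 2], v 0, v 1, ?_, ?_, ?_, ?_⟩
    · simp [Fin.sum_univ_three]
      field_simp
      ring
    · simp [Fin.sum_univ_three]
      field_simp
      ring
    · intro p q h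
      have h1 := congrFun h 0
      have h2 := congrFun h 1
      simp at h1 h2
      exact ⟨h1, h2⟩
    · intro i
      fin_cases i
      · simp
      · simp
      · exact key 2 0 1 hk' (by linear_combination hv)

/-- the algebraic step -/
theorem kernel_step (k : Fin 3) (μ : Fin 3 → ℂ) (hk : μ k ≠ 0) (v : Fin 3 → (Rn n))
    (hv : ∑ i, C (μ i) * v i = 0) (B : Fin 3 → Fin 3 → (Rn n)) (hB : ∀ i j, (B i j).IsHomogeneous 1)
    (hBs : ∀ i j, B i j = B j i)
    (hcond : ∀ u : Fin 3 → ℂ, ∑ i, μ i * u i = 0 → ∑ i, ∑ j, C (u i) * B i j * C (u j) = 0 →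
      u = 0)
    (h : ∑ i, ∑ j, v i * B i j * v j = 0) : v = 0 := by
  obtain ⟨P, Q, W, V, hP, hQ, hind, hvi⟩ := param k μ hk v hv
  have hlin : ∀ P Q : Fin 3 → ℂ, (∑ i, ∑ j, C (P i) * B i j * C (Q j)).IsHomogeneous 1 := by
    intro P Q
    refine IsHomogeneous.sum _ _ _ fun i _ => IsHomogeneous.sum _ _ _ fun j _ => ?_
    have := ((isHomogeneous_C (Fin n) (P i)).mul (hB i j)).mul (isHomogeneous_C (Fin n) (Q j))
    exact this
  have hsym : ∑ i, ∑ j, C (Q i) * B i j * C (P j) = ∑ i, ∑ j, C (P i) * B i j * C (Q j) := by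
    rw [Finset.sum_comm]
    refine Finset.sum_congr rfl fun i _ => Finset.sum_congr rfl fun j _ => ?_
    rw [hBs j i]
    ring
  have key : ∀ x y : (Rn n), ∑ i, ∑ j, (C (P i) * x + C (Q i) * y) * B i j * (C (P j) * x + C (Q j) * y)
      = (∑ i, ∑ j, C (P i) * B i j * C (P j)) * x ^ 2 +
        2 * (∑ i, ∑ j, C (P i) * B i j * C (Q j)) * x * y +
        (∑ i, ∑ j, C (Q i) * B i j * C (Q j)) * y ^ 2 := by
    intro x y
    have h1 : 2 * (∑ i, ∑ j, C (P i) * B i j * C (Q j)) * x * y =
        (∑ i, ∑ j, C (P i) * B i j * C (Q j)) * (x * y) +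
          (∑ i, ∑ j, C (Q i) * B i j * C (P j)) * (x * y) := by
      rw [hsym]
      ring
    rw [h1]
    simp only [Finset.sum_mul]
    simp only [← Finset.sum_add_distrib]
    refine Finset.sum_congr rfl fun i _ => Finset.sum_congr rfl fun j _ => ?_
    ring
  have hW := key W V
  have h2 : ∑ i, ∑ j, (C (P i) * W + C (Q i) * V) * B i j * (C (P j) * W + C (Q j) * V) = 0 := by
    rw [← h]
    refine Finset.sum_congr rfl fun i _ => Finset.sum_congr rfl fun j _ => ?_
    rw [hvi i, hvi j]
  rw [h2] at hW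
  obtain ⟨hW0, hV0⟩ := binary (hlin P P) (hlin P Q) (hlin Q Q) (fun p q hpq => by
    apply hind
    apply hcond
    · simp only [mul_add, Finset.sum_add_distrib]
      have e1 : ∑ i, μ i * (p * P i) = p * ∑ i, μ i * P i := by
        rw [Finset.mul_sum]
        exact Finset.sum_congr rfl fun i _ => by ring
      have e2 : ∑ i, μ i * (q * Q i) = q * ∑ i, μ i * Q i := by
        rw [Finset.mul_sum]
        exact Finset.sum_congr rfl fun i _ => by ring
      rw [e1, e2, hP, hQ, mul_zero, mul_zero, add_zero]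
    · have h3 := key (C p) (C q)
      have h4 : ∑ i, ∑ j, C (p * P i + q * Q i) * B i j * C (p * P j + q * Q j) =
          ∑ i, ∑ j, (C (P i) * C p + C (Q i) * C q) * B i j * (C (P j) * C p + C (Q j) * C q) := by
        refine Finset.sum_congr rfl fun i _ => Finset.sum_congr rfl fun j _ => ?_
        simp only [C_add, C_mul]
        ring
      rw [h4, h3, ← hpq]
      simp only [C_mul, C_pow, map_ofNat]
      ring) W V hW.symm
  funext i
  rw [hvi i, hW0, hV0]
  simp



/-- the expansion at `η` -/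
def phi (η : Fin n → ℂ) : (Rn n) →ₐ[ℂ] Polynomial (Rn n) :=
  aeval fun l => Polynomial.C (C (η l)) + Polynomial.X * Polynomial.C (X l)

theorem phi_injective (η : Fin n → ℂ) : Function.Injective (phi η) := by
  let back : Polynomial (Rn n) →ₐ[ℂ] (Rn n) :=
    (aeval (fun l => X l - C (η l) : Fin n → (Rn n))).comp
      ((Polynomial.aeval (1 : (Rn n))).restrictScalars ℂ)
  have h : back.comp (phi η) = AlgHom.id ℂ (Rn n) := by
    apply algHom_ext
    intro l
    simp only [back, phi, AlgHom.comp_apply, aeval_X, AlgHom.id_apply]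
    change (aeval fun l => X l - C (η l)) (Polynomial.aeval (1 : (Rn n))
      (Polynomial.C (C (η l)) + Polynomial.X * Polynomial.C (X l))) = X l
    rw [map_add, map_mul, Polynomial.aeval_C, Polynomial.aeval_X, Polynomial.aeval_C]
    simp
  intro x y hxy
  have h1 := congrArg back hxy
  have h2 : ∀ z, back (phi η z) = z := fun z => by
    have := AlgHom.congr_fun h z
    exact this
  rwa [h2, h2] at h1

theorem phi_C (η : Fin n → ℂ) (a : ℂ) : phi η (C a) = Polynomial.C (C a) := by
  unfold phi
  rw [aeval_C]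
  rfl

theorem phi_coeff_zero (η : Fin n → ℂ) (p : (Rn n)) : (phi η p).coeff 0 = C (eval η p) := by
  induction p using MvPolynomial.induction_on with
  | C a => rw [phi_C, Polynomial.coeff_C_zero, eval_C]
  | add f g hf hg => rw [map_add, Polynomial.coeff_add, hf, hg, map_add, C_add]
  | mul_X f l hf =>
    rw [map_mul, Polynomial.mul_coeff_zero, hf, map_mul, C_mul, eval_X]
    congr 1
    unfold phi
    rw [aeval_X, Polynomial.coeff_add, Polynomial.coeff_C_zero, Polynomial.coeff_X_mul_zero,
      add_zero]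

theorem phi_coeff_one (η : Fin n → ℂ) (p : (Rn n)) :
    (phi η p).coeff 1 = ∑ l, C (eval η (pderiv l p)) * X l := by
  induction p using MvPolynomial.induction_on with
  | C a =>
    rw [phi_C, Polynomial.coeff_C_succ]
    simp
  | add f g hf hg =>
    rw [map_add, Polynomial.coeff_add, hf, hg, ← Finset.sum_add_distrib]
    refine Finset.sum_congr rfl fun l _ => ?_
    rw [map_add, map_add, C_add, add_mul]
  | mul_X f i hf =>
    have h1 : (phi η (X i)).coeff 1 = X i := by
      unfold phi
      rw [aeval_X, Polynomial.coeff_add, Polynomial.coeff_C_succ, zero_add,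
        Polynomial.coeff_X_mul, Polynomial.coeff_C_zero]
    rw [map_mul, Polynomial.mul_coeff_one, phi_coeff_zero, phi_coeff_zero, hf, h1, eval_X,
      Finset.sum_mul]
    have h2 : ∀ l, C (eval η (pderiv l (f * X i))) * X l =
        C (eval η (pderiv l f)) * X l * C (η i) +
          (if l = i then C (eval η f) * (X i : (Rn n)) else 0) := by
      intro l
      rw [Derivation.leibniz, smul_eq_mul, smul_eq_mul, map_add, map_mul, map_mul, eval_X, C_add,
        C_mul, C_mul]
      by_cases hl : l = i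
      · subst hl
        rw [pderiv_X_self, map_one, C_1, if_pos rfl]
        ring
      · rw [pderiv_X_of_ne (Ne.symm hl), map_zero, C_0, if_neg hl]
        ring
    rw [Finset.sum_congr rfl fun l _ => h2 l, Finset.sum_add_distrib, Finset.sum_ite_eq',
      if_pos (Finset.mem_univ _)]
    ring

/-- division by the highest power of `T` -/
theorem strip {R : Type} [CommRing R] [IsDomain R] (v : Fin 3 → Polynomial R) (hv : v ≠ 0) :
    ∃ (m : ℕ) (w : Fin 3 → Polynomial R), (∀ i, v i = Polynomial.X ^ m * w i) ∧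
      ∃ i, (w i).coeff 0 ≠ 0 := by
  obtain ⟨i0, hi0⟩ : ∃ i, v i ≠ 0 := by
    by_contra h
    push Not at h
    exact hv (funext h)
  induction hn : (v i0).natDegree using Nat.strong_induction_on generalizing v with
  | _ n ih =>
    by_cases h : ∃ i, (v i).coeff 0 ≠ 0
    · exact ⟨0, v, fun i => by rw [pow_zero, one_mul], h⟩
    · push Not at h
      have h1 : ∀ i, ∃ w, v i = Polynomial.X * w := fun i => Polynomial.X_dvd_iff.2 (h i)
      choose w hw using h1
      have hw0 : w i0 ≠ 0 := by
        intro h2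
        apply hi0
        rw [hw, h2, mul_zero]
      have hdeg : (v i0).natDegree = (w i0).natDegree + 1 := by
        rw [hw i0, Polynomial.natDegree_X_mul hw0]
      obtain ⟨m, u, hu, hu0⟩ := ih (w i0).natDegree (by omega) w (fun h2 => hw0 (by rw [h2]; rfl))
        hw0 rfl
      refine ⟨m + 1, u, fun i => ?_, hu0⟩
      rw [hw, hu, pow_succ']
      ring

/-- a ternary quadratic form with linear part of rank one at a point and without singular points
over this point is anisotropic -/
theorem an (A : Matrix (Fin 3) (Fin 3) (MvPolynomial (Fin n) ℂ)) (hA : A.IsSymm)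
    (η : Fin n → ℂ) (hne : ∃ i j, eval η (A i j) ≠ 0)
    (hmin : ∀ i j k l : Fin 3, eval η (A i k) * eval η (A j l) =
      eval η (A i l) * eval η (A j k))
    (hder : ∀ u : Fin 3 → ℂ, u ≠ 0 → (∀ i, ∑ j, eval η (A i j) * u j = 0) →
      ∃ l : Fin n, eval η (pderiv l (∑ i, ∑ j, C (u i) * A i j * C (u j))) ≠ 0)
    (V : Fin 3 → MvPolynomial (Fin n) ℂ) (hV : ∑ i, ∑ j, V i * A i j * V j = 0) : V = 0 := by
  classical
  by_contra hV0
  have hAs : ∀ i j, A i j = A j i := fun i j => hA.apply j i
  -- a diagonal entry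
  obtain ⟨k, hk⟩ : ∃ k, eval η (A k k) ≠ 0 := by
    obtain ⟨i, j, hij⟩ := hne
    refine ⟨i, fun h => hij ?_⟩
    have h1 := hmin i j i j
    rw [h, zero_mul, hAs j i] at h1
    have h2 : eval η (A i j) * eval η (A i j) = 0 := h1.symm
    exact mul_self_eq_zero.1 h2
  set μ : Fin 3 → ℂ := fun i => eval η (A k i) with hμ
  have hμk : μ k ≠ 0 := hk
  have hμμ : ∀ i j, μ i * μ j = μ k * eval η (A i j) := by
    intro i j
    have h1 := hmin k i k j
    rw [hμ]
    simp only
    rw [h1, hAs i k]
    ring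
  -- the expansion
  set v : Fin 3 → Polynomial (Rn n) := fun i => phi η (V i) with hv
  have hv0 : v ≠ 0 := by
    intro h
    apply hV0
    funext i
    apply phi_injective η
    have := congrFun h i
    rw [hv] at this
    simp only [Pi.zero_apply] at this
    rw [this, Pi.zero_apply, map_zero]
  obtain ⟨m, w, hw, i1, hi1⟩ := strip v hv0
  have hq : ∑ i, ∑ j, w i * phi η (A i j) * w j = 0 := by
    have h1 : (Polynomial.X ^ (2 * m) : Polynomial (Rn n)) *
        ∑ i, ∑ j, w i * phi η (A i j) * w j = 0 := by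
      have h2 := congrArg (phi η) hV
      rw [map_zero, map_sum] at h2
      rw [← h2, Finset.mul_sum]
      refine Finset.sum_congr rfl fun i _ => ?_
      rw [map_sum, Finset.mul_sum]
      refine Finset.sum_congr rfl fun j _ => ?_
      have h3 : phi η (V i) = Polynomial.X ^ m * w i := hw i
      have h4 : phi η (V j) = Polynomial.X ^ m * w j := hw j
      rw [map_mul, map_mul, h3, h4]
      ring
    exact (mul_eq_zero.1 h1).resolve_left (pow_ne_zero _ Polynomial.X_ne_zero)
  set w0 : Fin 3 → (Rn n) := fun i => (w i).coeff 0 with hw0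
  set w1 : Fin 3 → (Rn n) := fun i => (w i).coeff 1 with hw1
  have ha : ∀ i j, C (μ k) * C (eval η (A i j)) = (C (μ i) * C (μ j) : (Rn n)) := by
    intro i j
    rw [← C_mul, ← C_mul, hμμ]
  have hCk : (C (μ k) : (Rn n)) ≠ 0 := by
    rw [Ne, C_eq_zero]
    exact hμk
  -- coefficient zero
  have hlin : ∑ i, C (μ i) * w0 i = 0 := by
    have h1 := congrArg (fun p => Polynomial.coeff p 0) hq
    simp only [Polynomial.finsetSum_coeff, Polynomial.mul_coeff_zero, Polynomial.coeff_zero,
      phi_coeff_zero] at h1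
    have h2 : (∑ i, C (μ i) * w0 i) * (∑ i, C (μ i) * w0 i) = 0 := by
      rw [Finset.sum_mul_sum]
      have h3 : C (μ k) * ∑ i, ∑ j, (w i).coeff 0 * C (eval η (A i j)) * (w j).coeff 0 = 0 := by
        rw [h1, mul_zero]
      rw [← h3, Finset.mul_sum]
      refine Finset.sum_congr rfl fun i _ => ?_
      rw [Finset.mul_sum]
      refine Finset.sum_congr rfl fun j _ => ?_
      have h4 := ha i j
      change C (μ i) * (w i).coeff 0 * (C (μ j) * (w j).coeff 0) = _
      linear_combination (-(w i).coeff 0 * (w j).coeff 0) * h4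
    exact mul_self_eq_zero.1 h2
  -- coefficient one
  set B : Fin 3 → Fin 3 → (Rn n) := fun i j => (phi η (A i j)).coeff 1 with hB
  have hquad : ∑ i, ∑ j, w0 i * B i j * w0 j = 0 := by
    have h1 := congrArg (fun p => Polynomial.coeff p 1) hq
    simp only [Polynomial.finsetSum_coeff, Polynomial.mul_coeff_one, Polynomial.coeff_zero,
      Polynomial.mul_coeff_zero, phi_coeff_zero] at h1
    have h2 : C (μ k) * ∑ i, ∑ j, w0 i * B i j * w0 j = 0 := by
      have h3 : C (μ k) * ∑ i, ∑ j, w0 i * B i j * w0 j =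
          C (μ k) * (∑ i, ∑ j, ((w i).coeff 0 * C (eval η (A i j)) * (w j).coeff 1 +
            ((w i).coeff 0 * (phi η (A i j)).coeff 1 +
              (w i).coeff 1 * C (eval η (A i j))) * (w j).coeff 0)) -
          ((∑ i, C (μ i) * w0 i) * (∑ j, C (μ j) * w1 j) +
            (∑ i, C (μ i) * w1 i) * (∑ j, C (μ j) * w0 j)) := by
        rw [Finset.sum_mul_sum, Finset.sum_mul_sum, Finset.mul_sum, Finset.mul_sum,
          ← Finset.sum_add_distrib, ← Finset.sum_sub_distrib]
        refine Finset.sum_congr rfl fun i _ => ?_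
        rw [Finset.mul_sum, Finset.mul_sum, ← Finset.sum_add_distrib, ← Finset.sum_sub_distrib]
        refine Finset.sum_congr rfl fun j _ => ?_
        have h4 := ha i j
        change C (μ k) * ((w i).coeff 0 * (phi η (A i j)).coeff 1 * (w j).coeff 0) =
          C (μ k) * ((w i).coeff 0 * C (eval η (A i j)) * (w j).coeff 1 +
            ((w i).coeff 0 * (phi η (A i j)).coeff 1 +
              (w i).coeff 1 * C (eval η (A i j))) * (w j).coeff 0) -
          (C (μ i) * (w i).coeff 0 * (C (μ j) * (w j).coeff 1) +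
            C (μ i) * (w i).coeff 1 * (C (μ j) * (w j).coeff 0))
        linear_combination (-(w i).coeff 0 * (w j).coeff 1 - (w i).coeff 1 * (w j).coeff 0) * h4
      rw [h3, hlin, h1]
      ring
    exact (mul_eq_zero.1 h2).resolve_left hCk
  have hfin := kernel_step k μ hμk w0 hlin B ?_ ?_ ?_ hquad
  · exact hi1 (congrFun hfin i1)
  · intro i j
    change ((phi η (A i j)).coeff 1).IsHomogeneous 1
    rw [phi_coeff_one]
    refine IsHomogeneous.sum _ _ _ fun l _ => ?_
    have := (isHomogeneous_C (Fin n) (eval η (pderiv l (A i j)))).mul (isHomogeneous_X ℂ l)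
    rwa [zero_add] at this
  · intro i j
    change (phi η (A i j)).coeff 1 = (phi η (A j i)).coeff 1
    rw [hAs]
  · intro u hu hBu
    by_contra hu0
    obtain ⟨l, hl⟩ := hder u hu0 (fun i => by
      have h1 : μ k * ∑ j, eval η (A i j) * u j = 0 := by
        have h2 : μ k * ∑ j, eval η (A i j) * u j = μ i * ∑ j, μ j * u j := by
          rw [Finset.mul_sum, Finset.mul_sum]
          refine Finset.sum_congr rfl fun j _ => ?_
          have := hμμ i j
          linear_combination -(u j) * this
        rw [h2, hu, mul_zero]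
      exact (mul_eq_zero.1 h1).resolve_left hμk)
    apply hl
    have h1 : (phi η (∑ i, ∑ j, C (u i) * A i j * C (u j))).coeff 1 = 0 := by
      rw [← hBu, map_sum, Polynomial.finsetSum_coeff]
      refine Finset.sum_congr rfl fun i _ => ?_
      rw [map_sum, Polynomial.finsetSum_coeff]
      refine Finset.sum_congr rfl fun j _ => ?_
      rw [map_mul, map_mul, phi_C, phi_C, Polynomial.coeff_mul_C, Polynomial.coeff_C_mul]
    rw [phi_coeff_one] at h1
    have h2 := congrArg (eval (Pi.single l (1 : ℂ))) h1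
    rw [map_sum, map_zero, Finset.sum_eq_single l] at h2
    · simpa using h2
    · intro j _ hj
      rw [map_mul, eval_X, Pi.single_eq_of_ne hj, mul_zero]
    · intro h
      exact absurd (Finset.mem_univ _) h

end

end Pool.Agent.Q79.CN
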