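import Pool.Agent.Y201.C3.Tri
import Pool.Agent.Y201.C3.Core

/-! # The conic of a plane through a line of a cubic hypersurface, any dimension -/

set_option autoImplicit false
set_option linter.unusedSectionVars false

namespace Pool.Agent.Q79.CN

open MvPolynomial Pool.Agent.TH314.PD Pool.Agent.Y201.C3

noncomputable section

/-- unit vectors -/
def Eg {m : ℕ} {R : Type} [CommRing R] (i : Fin m) : Fin m → R := fun a => if a = i then 1 else 0

/-- the vector `(0, 0, s)` -/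
def pad {n : ℕ} {R : Type} [CommRing R] (s : Fin n → R) : Fin (n + 2) → R :=
  Fin.cons 0 (Fin.cons 0 s)

variable {n : ℕ} {T : Fin (n + 2) → Fin (n + 2) → Fin (n + 2) → ℂ}

@[simp] theorem pad_zero {R : Type} [CommRing R] (s : Fin n → R) : pad s 0 = 0 := rfl

@[simp] theorem pad_one {R : Type} [CommRing R] (s : Fin n → R) : pad s 1 = 0 := rfl

@[simp] theorem pad_succ {R : Type} [CommRing R] (s : Fin n → R) (j : Fin n) :
    pad s j.succ.succ = s j := rfl

theorem cases2 {P : Fin (n + 2) → Prop} (h0 : P 0) (h1 : P 1) (h : ∀ j : Fin n, P j.succ.succ)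
    (i : Fin (n + 2)) : P i :=
  Fin.cases h0 (fun i => Fin.cases h1 (fun j => h j) i) i

/-- the line spanned by the first two unit vectors is contained in the cubic -/
def LineG (T : Fin (n + 2) → Fin (n + 2) → Fin (n + 2) → ℂ) : Prop :=
  ∀ i j k : Fin (n + 2), i.val < 2 → j.val < 2 → k.val < 2 → T i j k = 0

section Tri

variable {R : Type} [CommRing R] [Algebra ℂ R]

theorem Bg_E {m : ℕ} {T : Fin m → Fin m → Fin m → ℂ} (i j k : Fin m) :
    Bg T (Eg i : Fin m → R) (Eg j) (Eg k) = algebraMap ℂ R (T i j k) := by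
  unfold Bg Eg
  simp

theorem Bg_E0 (hL : LineG T) {i j k : Fin (n + 2)} (hi : i.val < 2) (hj : j.val < 2)
    (hk : k.val < 2) : Bg T (Eg i : Fin (n + 2) → R) (Eg j) (Eg k) = 0 := by
  rw [Bg_E, hL i j k hi hj hk, map_zero]

/-- the conic of the plane spanned by the line and `y`:
`Bg T w w w = V 2 * (Vᵀ A V)` for `w = V 0 * E 0 + V 1 * E 1 + V 2 * y` if `y 0 = y 1 = 0` -/
def cm (T : Fin (n + 2) → Fin (n + 2) → Fin (n + 2) → ℂ) (y : Fin (n + 2) → R) :
    Matrix (Fin 3) (Fin 3) R :=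
  !![3 * Bg T (Eg 0) (Eg 0) y, 3 * Bg T (Eg 0) (Eg 1) y, algebraMap ℂ R (3 / 2) * Bg T (Eg 0) y y;
     3 * Bg T (Eg 0) (Eg 1) y, 3 * Bg T (Eg 1) (Eg 1) y, algebraMap ℂ R (3 / 2) * Bg T (Eg 1) y y;
     algebraMap ℂ R (3 / 2) * Bg T (Eg 0) y y, algebraMap ℂ R (3 / 2) * Bg T (Eg 1) y y,
       Bg T y y y]

lemma alg32 : algebraMap ℂ R (3 / 2) * 2 = 3 := by
  have h : (algebraMap ℂ R) ((3 / 2 : ℂ) * 2) = (algebraMap ℂ R) 3 := by norm_num
  rw [map_mul, map_ofNat, map_ofNat] at h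
  exact h

/-- the quadratic form of the conic -/
def qf (A : Matrix (Fin 3) (Fin 3) R) (V : Fin 3 → R) : R := ∑ i, ∑ j, V i * A i j * V j

lemma qf_cm (y : Fin (n + 2) → R) (V : Fin 3 → R) :
    qf (cm T y) V = 3 * Bg T (Eg 0) (Eg 0) y * V 0 ^ 2 + 6 * Bg T (Eg 0) (Eg 1) y * V 0 * V 1 +
      3 * Bg T (Eg 1) (Eg 1) y * V 1 ^ 2 + 3 * Bg T (Eg 0) y y * V 0 * V 2 +
      3 * Bg T (Eg 1) y y * V 1 * V 2 + Bg T y y y * V 2 ^ 2 := by
  have h := alg32 (R := R)
  simp only [qf, cm, Fin.sum_univ_three, Matrix.of_apply, Matrix.cons_val', Matrix.cons_val_zero,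
    Matrix.cons_val_one, Matrix.cons_val_two, Matrix.head_cons, Matrix.tail_cons]
  linear_combination (V 0 * V 2 * Bg T (Eg 0) y y + V 1 * V 2 * Bg T (Eg 1) y y) * h

theorem e_zero (hL : LineG T) :
    Bg T (Eg 0 : Fin (n + 2) → R) (Eg 0) (Eg 0) = 0 ∧ Bg T (Eg 0 : Fin (n + 2) → R) (Eg 0) (Eg 1) = 0 ∧
    Bg T (Eg 0 : Fin (n + 2) → R) (Eg 1) (Eg 0) = 0 ∧ Bg T (Eg 0 : Fin (n + 2) → R) (Eg 1) (Eg 1) = 0 ∧
    Bg T (Eg 1 : Fin (n + 2) → R) (Eg 0) (Eg 0) = 0 ∧ Bg T (Eg 1 : Fin (n + 2) → R) (Eg 0) (Eg 1) = 0 ∧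
    Bg T (Eg 1 : Fin (n + 2) → R) (Eg 1) (Eg 0) = 0 ∧ Bg T (Eg 1 : Fin (n + 2) → R) (Eg 1) (Eg 1) = 0 := by
  have h0 : (0 : Fin (n + 2)).val < 2 := by simp
  have h1 : (1 : Fin (n + 2)).val < 2 := by simp
  exact ⟨Bg_E0 hL h0 h0 h0, Bg_E0 hL h0 h0 h1, Bg_E0 hL h0 h1 h0, Bg_E0 hL h0 h1 h1,
    Bg_E0 hL h1 h0 h0, Bg_E0 hL h1 h0 h1, Bg_E0 hL h1 h1 h0, Bg_E0 hL h1 h1 h1⟩

/-- the key identity -/
lemma key (hT : SymG T) (hL : LineG T) (y : Fin (n + 2) → R) (V : Fin 3 → R) :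
    Bg T (fun i => V 0 * Eg 0 i + (V 1 * Eg 1 i + V 2 * y i))
      (fun i => V 0 * Eg 0 i + (V 1 * Eg 1 i + V 2 * y i))
      (fun i => V 0 * Eg 0 i + (V 1 * Eg 1 i + V 2 * y i)) = V 2 * qf (cm T y) V := by
  rw [qf_cm]
  simp only [Bg_add1, Bg_add2, Bg_add3, Bg_smul1, Bg_smul2, Bg_smul3]
  obtain ⟨e000, e001, e010, e011, e100, e101, e110, e111⟩ := e_zero (R := R) hL
  rw [e000, e001, e010, e011, e100, e101, e110, e111,
    Bg_swap12 hT y (Eg 0) (Eg 0), Bg_swap23 hT (Eg 0) y (Eg 0),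
    Bg_swap12 hT y (Eg 0) (Eg 1), Bg_swap23 hT (Eg 0) y (Eg 1),
    Bg_swap12 hT y (Eg 1) (Eg 0), Bg_swap23 hT (Eg 1) y (Eg 0),
    Bg_swap12 hT y (Eg 1) (Eg 1), Bg_swap23 hT (Eg 1) y (Eg 1),
    Bg_swap12 hT (Eg 1) (Eg 0) y,
    Bg_swap12 hT y (Eg 0) y, Bg_swap12 hT y (Eg 1) y,
    Bg_swap23 hT y y (Eg 0), Bg_swap12 hT y (Eg 0) y,
    Bg_swap23 hT y y (Eg 1), Bg_swap12 hT y (Eg 1) y]
  ring

end Tri

section Maps

variable {R S : Type} [CommRing R] [Algebra ℂ R] [CommRing S] [Algebra ℂ S]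

lemma E_map {m : ℕ} (f : R →ₐ[ℂ] S) (i : Fin m) : (fun j => f ((Eg i : Fin m → R) j)) = Eg i := by
  funext j
  unfold Eg
  by_cases h : j = i
  · rw [if_pos h, if_pos h, map_one]
  · rw [if_neg h, if_neg h, map_zero]

lemma pad_map (f : R →ₐ[ℂ] S) (s : Fin n → R) : (fun j => f (pad s j)) = pad fun j => f (s j) := by
  funext j
  refine cases2 (P := fun j => f (pad s j) = pad (fun j => f (s j)) j) ?_ ?_ ?_ j
  · exact map_zero f
  · exact map_zero f
  · intro j
    rfl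

lemma qf_cm_map (f : R →ₐ[ℂ] S) (y : Fin (n + 2) → R) (V : Fin 3 → R) :
    f (qf (cm T y) V) = qf (cm T fun i => f (y i)) (fun i => f (V i)) := by
  rw [qf_cm, qf_cm]
  simp only [map_add, map_mul, map_pow, map_ofNat, map_Bg, E_map]

lemma cm_map (f : R →ₐ[ℂ] S) (y : Fin (n + 2) → R) (i j : Fin 3) :
    f (cm T y i j) = cm T (fun i => f (y i)) i j := by
  fin_cases i <;> fin_cases j <;> simp [cm, map_Bg, E_map, map_ofNat f 3]

lemma cm_symm (y : Fin (n + 2) → R) : (cm T y).IsSymm := by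
  refine Matrix.IsSymm.ext fun i j => ?_
  fin_cases i <;> fin_cases j <;> simp [cm]

lemma qf_scale (c a : R) (y : Fin (n + 2) → R) (V : Fin 3 → R) :
    qf (cm T fun i => c * y i) ![a * (c * V 0), a * (c * V 1), a * V 2] =
      c ^ 3 * a ^ 2 * qf (cm T y) V := by
  rw [qf_cm, qf_cm]
  simp only [Bg_smul1, Bg_smul2, Bg_smul3, Matrix.cons_val_zero,
    Matrix.cons_val_one, Matrix.cons_val_two, Matrix.head_cons, Matrix.tail_cons]
  ring

end Maps

section Hom

lemma hom_Bg {m k : ℕ} {T : Fin m → Fin m → Fin m → ℂ} {x y z : Fin m → MvPolynomial (Fin k) ℂ}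
    {a b c : ℕ} (hx : ∀ i, (x i).IsHomogeneous a) (hy : ∀ i, (y i).IsHomogeneous b)
    (hz : ∀ i, (z i).IsHomogeneous c) : (Bg T x y z).IsHomogeneous (a + b + c) := by
  unfold Bg
  refine IsHomogeneous.sum _ _ _ fun i _ => IsHomogeneous.sum _ _ _ fun j _ =>
    IsHomogeneous.sum _ _ _ fun l _ => ?_
  have h := (((isHomogeneous_C (Fin k) (T i j l)).mul (hx i)).mul (hy j)).mul (hz l)
  rwa [zero_add] at h

lemma hom_E {m k : ℕ} (i j : Fin m) :
    ((Eg i : Fin m → MvPolynomial (Fin k) ℂ) j).IsHomogeneous 0 := by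
  unfold Eg
  by_cases h : j = i
  · rw [if_pos h]
    exact isHomogeneous_one _ _
  · rw [if_neg h]
    exact isHomogeneous_zero _ _ _

/-- the generic vector `(0, 0, X_1, …, X_n)` -/
def yy {n : ℕ} : Fin (n + 2) → MvPolynomial (Fin n) ℂ := pad X

lemma hom_yy (i : Fin (n + 2)) : (yy i).IsHomogeneous 1 := by
  refine cases2 (P := fun i => (yy i).IsHomogeneous 1) ?_ ?_ ?_ i
  · exact isHomogeneous_zero _ _ _
  · exact isHomogeneous_zero _ _ _
  · intro j
    exact isHomogeneous_X _ _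

lemma hom_qf {D : ℕ} {V : Fin 3 → MvPolynomial (Fin n) ℂ} (h0 : (V 0).IsHomogeneous (D + 1))
    (h1 : (V 1).IsHomogeneous (D + 1)) (h2 : (V 2).IsHomogeneous D) :
    (qf (cm T yy) V).IsHomogeneous (2 * D + 3) := by
  rw [qf_cm]
  have c3 : ((3 : MvPolynomial (Fin n) ℂ)).IsHomogeneous 0 := by
    have := isHomogeneous_C (Fin n) (3 : ℂ)
    rwa [map_ofNat] at this
  have c6 : ((6 : MvPolynomial (Fin n) ℂ)).IsHomogeneous 0 := by
    have := isHomogeneous_C (Fin n) (6 : ℂ)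
    rwa [map_ofNat] at this
  have t1 := (c3.mul (hom_Bg (T := T) (hom_E 0) (hom_E 0) hom_yy)).mul (h0.pow 2)
  have t2 := ((c6.mul (hom_Bg (T := T) (hom_E 0) (hom_E 1) hom_yy)).mul h0).mul h1
  have t3 := (c3.mul (hom_Bg (T := T) (hom_E 1) (hom_E 1) hom_yy)).mul (h1.pow 2)
  have t4 := ((c3.mul (hom_Bg (T := T) (hom_E 0) hom_yy hom_yy)).mul h0).mul h2
  have t5 := ((c3.mul (hom_Bg (T := T) (hom_E 1) hom_yy hom_yy)).mul h1).mul h2
  have t6 := (hom_Bg (T := T) hom_yy hom_yy hom_yy).mul (h2.pow 2)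
  rw [show 0 + (0 + 0 + 1) + (D + 1) * 2 = 2 * D + 3 by ring] at t1 t3
  rw [show 0 + (0 + 0 + 1) + (D + 1) + (D + 1) = 2 * D + 3 by ring] at t2
  rw [show 0 + (0 + 1 + 1) + (D + 1) + D = 2 * D + 3 by ring] at t4 t5
  rw [show (1 + 1 + 1) + D * 2 = 2 * D + 3 by ring] at t6
  exact ((((t1.add t2).add t3).add t4).add t5).add t6

end Hom

section Fields

variable {M : Type} [Field M] [Algebra ℂ M]

/-- elements of the field of ratios -/
lemma exists_form {m : ℕ} (q : Fin m → M) (z : M) (hz : z ∈ ratioField q) :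
    ∃ (D : ℕ) (P Q : MvPolynomial (Fin m) ℂ), P.IsHomogeneous D ∧ Q.IsHomogeneous D ∧
      aeval q Q ≠ 0 ∧ aeval q P = aeval q Q * z := by
  unfold ratioField at hz
  induction hz using IntermediateField.adjoin_induction with
  | mem z hz =>
    obtain ⟨i, j, rfl⟩ := hz
    by_cases h : q j = 0
    · refine ⟨0, 0, 1, isHomogeneous_zero _ _ _, isHomogeneous_one _ _, by simp, by simp [h]⟩
    · refine ⟨1, X i, X j, isHomogeneous_X _ _, isHomogeneous_X _ _, by simpa using h, ?_⟩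
      rw [aeval_X, aeval_X]
      field_simp
  | algebraMap a =>
    exact ⟨0, C a, 1, isHomogeneous_C _ _, isHomogeneous_one _ _, by simp, by simp⟩
  | add z w _ _ ihz ihw =>
    obtain ⟨D, P, Q, h1, h2, h3, h4⟩ := ihz
    obtain ⟨D', P', Q', h1', h2', h3', h4'⟩ := ihw
    refine ⟨D + D', P * Q' + Q * P', Q * Q', (h1.mul h2').add (h2.mul h1'), h2.mul h2', ?_, ?_⟩
    · rw [map_mul]
      exact mul_ne_zero h3 h3'
    · rw [map_add, map_mul, map_mul, map_mul, h4, h4']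
      ring
  | inv z _ ih =>
    obtain ⟨D, P, Q, h1, h2, h3, h4⟩ := ih
    by_cases hz : z = 0
    · subst hz
      refine ⟨0, 0, 1, isHomogeneous_zero _ _ _, isHomogeneous_one _ _, by simp, by simp⟩
    · refine ⟨D, Q, P, h2, h1, ?_, ?_⟩
      · rw [h4]
        exact mul_ne_zero h3 hz
      · rw [h4]
        field_simp
  | mul z w _ _ ihz ihw =>
    obtain ⟨D, P, Q, h1, h2, h3, h4⟩ := ihz
    obtain ⟨D', P', Q', h1', h2', h3', h4'⟩ := ihw
    refine ⟨D + D', P * P', Q * Q', h1.mul h1', h2.mul h2', ?_, ?_⟩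
    · rw [map_mul]
      exact mul_ne_zero h3 h3'
    · rw [map_mul, map_mul, h4, h4']
      ring

lemma exists_form3 {m : ℕ} (q : Fin m → M) (W : Fin 3 → M) (hW : ∀ i, W i ∈ ratioField q) :
    ∃ (D : ℕ) (P : Fin 3 → MvPolynomial (Fin m) ℂ) (Q : MvPolynomial (Fin m) ℂ),
      (∀ i, (P i).IsHomogeneous D) ∧ aeval q Q ≠ 0 ∧ ∀ i, aeval q (P i) = aeval q Q * W i := by
  choose D P Q h1 h2 h3 h4 using fun i => exists_form q (W i) (hW i)
  refine ⟨D 0 + D 1 + D 2, ![P 0 * Q 1 * Q 2, Q 0 * P 1 * Q 2, Q 0 * Q 1 * P 2],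
    Q 0 * Q 1 * Q 2, ?_, ?_, ?_⟩
  · intro i
    fin_cases i
    · exact ((h1 0).mul (h2 1)).mul (h2 2)
    · exact ((h2 0).mul (h1 1)).mul (h2 2)
    · exact ((h2 0).mul (h2 1)).mul (h1 2)
  · rw [map_mul, map_mul]
    exact mul_ne_zero (mul_ne_zero (h3 0) (h3 1)) (h3 2)
  · intro i
    fin_cases i
    · change aeval q (P 0 * Q 1 * Q 2) = aeval q (Q 0 * Q 1 * Q 2) * W 0
      rw [map_mul, map_mul, map_mul, map_mul, h4 0]
      ring
    · change aeval q (Q 0 * P 1 * Q 2) = aeval q (Q 0 * Q 1 * Q 2) * W 1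
      rw [map_mul, map_mul, map_mul, map_mul, h4 1]
      ring
    · change aeval q (Q 0 * Q 1 * P 2) = aeval q (Q 0 * Q 1 * Q 2) * W 2
      rw [map_mul, map_mul, map_mul, map_mul, h4 2]
      ring

/-- the vector `(0, 0, q 0 / q j, …, q (n - 1) / q j)` -/
def ym (q : Fin n → M) (j : Fin n) : Fin (n + 2) → M := pad fun i => q i / q j

lemma aeval_yy (q : Fin n → M) (j : Fin n) (hj : q j ≠ 0) :
    (fun i => aeval q (yy i)) = fun i => q j * ym q j i := by
  have h1 := pad_map (aeval q : MvPolynomial (Fin n) ℂ →ₐ[ℂ] M) (X : Fin n → _)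
  change (fun i => aeval q (pad X i)) = _
  rw [h1]
  funext i
  refine cases2 (P := fun i => pad (fun j => (aeval q) (X j : MvPolynomial (Fin n) ℂ)) i =
    q j * ym q j i) ?_ ?_ ?_ i
  · simp [ym]
  · simp [ym]
  · intro i
    simp only [ym, pad_succ, aeval_X]
    field_simp

/-- the conic is anisotropic over the field of ratios -/
lemma aniso
    (hV : ∀ V : Fin 3 → MvPolynomial (Fin n) ℂ, ∑ i, ∑ j, V i * cm T yy i j * V j = 0 → V = 0)
    (q : Fin n → M) (hq : ∀ (e : ℕ) (H : MvPolynomial (Fin n) ℂ), H.IsHomogeneous e →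
      aeval q H = 0 → H = 0) (j0 : Fin n) (h3 : q j0 ≠ 0) (W : Fin 3 → M)
    (hW : ∀ i, W i ∈ ratioField q)
    (h0 : qf (cm T (ym q j0)) W = 0) : W = 0 := by
  obtain ⟨D, P, Q, hP, hQ, hPQ⟩ := exists_form3 q W hW
  set V : Fin 3 → MvPolynomial (Fin n) ℂ := ![P 0 * X j0, P 1 * X j0, P 2] with hVd
  have e0 : V 0 = P 0 * X j0 := rfl
  have e1 : V 1 = P 1 * X j0 := rfl
  have e2 : V 2 = P 2 := rfl
  have hh : (qf (cm T yy) V).IsHomogeneous (2 * D + 3) :=
    hom_qf (e0 ▸ (hP 0).mul (isHomogeneous_X _ _)) (e1 ▸ (hP 1).mul (isHomogeneous_X _ _))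
      (e2 ▸ hP 2)
  have hval : aeval q (qf (cm T yy) V) = 0 := by
    rw [qf_cm_map, aeval_yy q j0 h3]
    have hVq : (fun i => aeval q (V i)) =
        ![aeval q Q * (q j0 * W 0), aeval q Q * (q j0 * W 1), aeval q Q * W 2] := by
      funext i
      fin_cases i
      · change aeval q (V 0) = aeval q Q * (q j0 * W 0)
        rw [e0, map_mul, aeval_X, hPQ 0]
        ring
      · change aeval q (V 1) = aeval q Q * (q j0 * W 1)
        rw [e1, map_mul, aeval_X, hPQ 1]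
        ring
      · change aeval q (V 2) = aeval q Q * W 2
        rw [e2, hPQ 2]
    rw [hVq, qf_scale, h0, mul_zero]
  have hz := hV V (hq _ _ hh hval)
  have hP0 : ∀ i, P i = 0 := by
    intro i
    fin_cases i
    · have := congrFun hz 0
      rw [e0] at this
      exact (mul_eq_zero.1 this).resolve_right (X_ne_zero j0)
    · have := congrFun hz 1
      rw [e1] at this
      exact (mul_eq_zero.1 this).resolve_right (X_ne_zero j0)
    · exact congrFun hz 2
  funext i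
  have := hPQ i
  rw [hP0 i, map_zero] at this
  exact (mul_eq_zero.1 this.symm).resolve_left hQ

lemma not_alg {k : ℕ} (htr : Algebra.trdeg ℂ M = (k + 1 : ℕ)) (q : Fin (k + 1) → M)
    (j0 : Fin (k + 1)) (h3 : q j0 ≠ 0) :
    ¬ Algebra.IsAlgebraic (ratioField q) M := by
  intro hal
  set s : Set M := Set.range fun i : Fin k => q (j0.succAbove i) / q j0 with hs
  have hgen : ∀ i, q i / q j0 ∈ IntermediateField.adjoin ℂ s := by
    intro i
    by_cases hi : i = j0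
    · rw [hi, div_self h3]
      exact one_mem _
    · obtain ⟨j, rfl⟩ := Fin.exists_succAbove_eq hi
      exact IntermediateField.subset_adjoin _ _ ⟨j, rfl⟩
  have hle : ratioField q = IntermediateField.adjoin ℂ s := by
    apply le_antisymm
    · refine IntermediateField.adjoin_le_iff.2 ?_
      rintro z ⟨i, j, rfl⟩
      have : q i / q j = (q i / q j0) / (q j / q j0) := by
        rw [div_div_div_cancel_right₀ h3]
      rw [this]
      exact div_mem (hgen i) (hgen j)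
    · refine IntermediateField.adjoin_le_iff.2 ?_
      rintro z ⟨i, rfl⟩
      exact IntermediateField.subset_adjoin _ _ ⟨_, _, rfl⟩
  rw [hle] at hal
  have h1 := IntermediateField.isAlgebraic_adjoin_iff_top.1 hal
  have h2 := Algebra.IsAlgebraic.trdeg_le_cardinalMk ℂ s
  rw [htr] at h2
  have h4 : Cardinal.mk s ≤ (k : ℕ) := by
    refine Cardinal.mk_range_le.trans ?_
    simp
  have h5 : ((k + 1 : ℕ) : Cardinal) ≤ (k : ℕ) := h2.trans h4
  rw [Nat.cast_le] at h5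
  omega

lemma ym_mem (q : Fin n → M) (j0 : Fin n) (i : Fin (n + 2)) : ym q j0 i ∈ ratioField q := by
  refine cases2 (P := fun i => ym q j0 i ∈ ratioField q) ?_ ?_ ?_ i
  · exact zero_mem _
  · exact zero_mem _
  · intro i
    exact IntermediateField.subset_adjoin _ _ ⟨i, j0, rfl⟩

end Fields

section decomp

variable {R : Type} [CommRing R]

lemma decomp (x : Fin (n + 2) → R) (c : R) (s : Fin n → R) (h : ∀ j, x j.succ.succ = c * s j) :
    x = fun i => (![x 0, x 1, c] : Fin 3 → R) 0 * Eg 0 i +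
      ((![x 0, x 1, c] : Fin 3 → R) 1 * Eg 1 i +
        (![x 0, x 1, c] : Fin 3 → R) 2 * pad s i) := by
  funext i
  change x i = x 0 * Eg 0 i + (x 1 * Eg 1 i + c * pad s i)
  refine cases2 (P := fun i => x i = x 0 * Eg 0 i + (x 1 * Eg 1 i + c * pad s i)) ?_ ?_ ?_ i
  · simp [Eg]
  · simp [Eg]
  · intro j
    rw [h, pad_succ]
    have e1 : (j.succ.succ : Fin (n + 2)) ≠ 0 := Fin.succ_ne_zero _
    have e2 : (j.succ.succ : Fin (n + 2)) ≠ 1 := by
      intro h
      have := congrArg Fin.val h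
      simp at this
    simp [Eg, e1, e2]

end decomp

section Fields2

variable {M : Type} [Field M] [Algebra ℂ M]

lemma isotropic (hT : SymG T) (hL : LineG T) (s : Fin n → M) (x : Fin (n + 2) → M) (c : M)
    (h : ∀ j, x j.succ.succ = c * s j) (hc : c ≠ 0) (hB : Bg T x x x = 0) :
    qf (cm T (pad s)) ![x 0, x 1, c] = 0 := by
  have h1 := key hT hL (pad s) ![x 0, x 1, c]
  rw [← decomp x c s h, hB] at h1
  exact (mul_eq_zero.1 h1.symm).resolve_left hc

lemma fields (q : Fin n → M) (j0 : Fin n) (h3 : q j0 ≠ 0) (x' : Fin (n + 2) → M) (κ : M)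
    (hκ : κ ≠ 0) (h2 : ∀ j, x' j.succ.succ = κ * q j) :
    (IntermediateField.adjoin (ratioField q)
      {z : M | ∃ i j, z = (![x' 0, x' 1, x' j0.succ.succ] : Fin 3 → M) i /
        (![x' 0, x' 1, x' j0.succ.succ] : Fin 3 → M) j}).restrictScalars ℂ = ratioField x' := by
  set i0 : Fin (n + 2) := j0.succ.succ with hi0
  have hx5 : x' i0 ≠ 0 := by
    rw [hi0, h2]
    exact mul_ne_zero hκ h3
  have hrat : ∀ i j, x' i / x' j ∈ ratioField x' := fun i j =>
    IntermediateField.subset_adjoin _ _ ⟨i, j, rfl⟩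
  apply le_antisymm
  · rw [IntermediateField.restrictScalars_adjoin]
    refine IntermediateField.adjoin_le_iff.2 ?_
    have hv : ∀ i : Fin 3, ∃ k : Fin (n + 2),
        (![x' 0, x' 1, x' i0] : Fin 3 → M) i = x' k := by
      intro i
      fin_cases i
      · exact ⟨0, rfl⟩
      · exact ⟨1, rfl⟩
      · exact ⟨i0, rfl⟩
    rintro z (hz | ⟨i, j, rfl⟩)
    · have hle : ratioField q ≤ ratioField x' := by
        refine IntermediateField.adjoin_le_iff.2 ?_
        rintro z ⟨i, j, rfl⟩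
        have : q i / q j = x' i.succ.succ / x' j.succ.succ := by
          rw [h2, h2, mul_div_mul_left _ _ hκ]
        rw [this]
        exact hrat _ _
      exact hle hz
    · obtain ⟨k, hk⟩ := hv i
      obtain ⟨l, hl⟩ := hv j
      rw [hk, hl]
      exact hrat k l
  · refine IntermediateField.adjoin_le_iff.2 ?_
    set S : Set M := {z : M | ∃ i j, z = (![x' 0, x' 1, x' i0] : Fin 3 → M) i /
        (![x' 0, x' 1, x' i0] : Fin 3 → M) j} with hS
    have hK : ∀ i j, q i / q j ∈ IntermediateField.adjoin (ratioField q) S := by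
      intro i j
      exact (IntermediateField.adjoin (ratioField q) S).algebraMap_mem
        (⟨q i / q j, IntermediateField.subset_adjoin _ _ ⟨i, j, rfl⟩⟩ : ratioField q)
    have hg : ∀ i, x' i / x' i0 ∈ IntermediateField.adjoin (ratioField q) S := by
      intro i
      refine cases2 (P := fun i => x' i / x' i0 ∈ IntermediateField.adjoin (ratioField q) S)
        ?_ ?_ ?_ i
      · exact IntermediateField.subset_adjoin _ _ ⟨0, 2, rfl⟩
      · exact IntermediateField.subset_adjoin _ _ ⟨1, 2, rfl⟩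
      · intro j
        rw [hi0, h2, h2, mul_div_mul_left _ _ hκ]
        exact hK j j0
    rintro z ⟨i, j, rfl⟩
    have : x' i / x' j = (x' i / x' i0) / (x' j / x' i0) := by
      rw [div_div_div_cancel_right₀ hx5]
    rw [this]
    exact div_mem (hg i) (hg j)

end Fields2

section conic

variable {m : ℕ} {T : Fin m → Fin m → Fin m → ℂ} {R : Type} [CommRing R] [Algebra ℂ R]

/-- the conic of the plane spanned by `u`, `v`, `y` -/
def cmv (T : Fin m → Fin m → Fin m → ℂ) (u v y : Fin m → R) : Matrix (Fin 3) (Fin 3) R :=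
  !![3 * Bg T u u y, 3 * Bg T u v y, algebraMap ℂ R (3 / 2) * Bg T u y y;
     3 * Bg T u v y, 3 * Bg T v v y, algebraMap ℂ R (3 / 2) * Bg T v y y;
     algebraMap ℂ R (3 / 2) * Bg T u y y, algebraMap ℂ R (3 / 2) * Bg T v y y, Bg T y y y]

theorem qf_cmv (u v y : Fin m → R) (V : Fin 3 → R) :
    qf (cmv T u v y) V = 3 * Bg T u u y * V 0 ^ 2 + 6 * Bg T u v y * V 0 * V 1 +
      3 * Bg T v v y * V 1 ^ 2 + 3 * Bg T u y y * V 0 * V 2 +
      3 * Bg T v y y * V 1 * V 2 + Bg T y y y * V 2 ^ 2 := by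
  have h := alg32 (R := R)
  simp only [qf, cmv, Fin.sum_univ_three, Matrix.of_apply, Matrix.cons_val', Matrix.cons_val_zero,
    Matrix.cons_val_one, Matrix.cons_val_two, Matrix.head_cons, Matrix.tail_cons]
  linear_combination (V 0 * V 2 * Bg T u y y + V 1 * V 2 * Bg T v y y) * h

theorem cmv_map {S : Type} [CommRing S] [Algebra ℂ S] (f : R →ₐ[ℂ] S) (u v y : Fin m → R)
    (i j : Fin 3) : f (cmv T u v y i j) =
      cmv T (fun i => f (u i)) (fun i => f (v i)) (fun i => f (y i)) i j := by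
  fin_cases i <;> fin_cases j <;> simp [cmv, map_Bg, map_ofNat f 3]

theorem key_v (hT : SymG T) (u v y : Fin m → R) (V : Fin 3 → R)
    (h1 : Bg T u u u = 0) (h2 : Bg T u u v = 0) (h3 : Bg T u v v = 0) (h4 : Bg T v v v = 0) :
    Bg T (fun i => V 0 * u i + V 1 * v i + V 2 * y i)
      (fun i => V 0 * u i + V 1 * v i + V 2 * y i)
      (fun i => V 0 * u i + V 1 * v i + V 2 * y i) = V 2 * qf (cmv T u v y) V := by
  rw [qf_cmv]
  simp only [Bg_add1, Bg_add2, Bg_add3, Bg_smul1, Bg_smul2, Bg_smul3]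
  rw [h1, h2, h4, swap13 hT v u u, h2, Bg_swap23 hT u v u, h2, h3, Bg_swap12 hT v u v, h3,
    swap13 hT v v u, h3,
    Bg_swap12 hT y u u, Bg_swap23 hT u y u,
    Bg_swap12 hT y u v, Bg_swap23 hT u y v,
    Bg_swap12 hT y v u, Bg_swap23 hT v y u,
    Bg_swap12 hT y v v, Bg_swap23 hT v y v,
    Bg_swap12 hT v u y,
    Bg_swap12 hT y u y, Bg_swap12 hT y v y,
    Bg_swap23 hT y y u, Bg_swap12 hT y u y,
    Bg_swap23 hT y y v, Bg_swap12 hT y v y]
  ring

/-- some plane through the line spanned by `p` and `q` meets the cubic in this line and a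
double line -/
def Good (T : Fin m → Fin m → Fin m → ℂ) (p q : Fin m → ℂ) : Prop :=
  ∃ (y : Fin m → ℂ) (μ : Fin 3 → ℂ), LinearIndependent ℂ ![p, q, y] ∧ μ ≠ 0 ∧
    ∀ i j, cmv T p q y i j = μ i * μ j

end conic

end

end Pool.Agent.Q79.CN
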