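import Pool.Agent.Q79.CN.An
import Pool.Agent.Q79.CN.Tri
import Pool.Agent.H952R2.Sextic.CommonZero

/-! # The conic bundle of a line of a smooth cubic hypersurface has no rational section -/

set_option autoImplicit false
set_option linter.unusedSectionVars false

namespace Pool.Agent.Q79.CN

open MvPolynomial Pool.Agent.Y201.C3

noncomputable section

theorem ev_ae {σ : Type} (b : σ → ℂ) (p : MvPolynomial σ ℂ) : eval b p = aeval b p := by
  rw [MvPolynomial.aeval_def, MvPolynomial.eval₂_eq_eval_map]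
  simp

/-- a point of rank at most one in a subspace of dimension four -/
theorem eta {n : ℕ} (A : Matrix (Fin 3) (Fin 3) (MvPolynomial (Fin n) ℂ)) (hA : A.IsSymm)
    (hA0 : ∀ i j, eval 0 (A i j) = 0) (D : Submodule ℂ (Fin n → ℂ))
    (hD : 4 ≤ Module.finrank ℂ D) :
    ∃ η ∈ D, η ≠ 0 ∧ ∃ μ : Fin 3 → ℂ, ∀ i j : Fin 3, eval η (A i j) = μ i * μ j := by
  classical
  have hAs : ∀ i j, A i j = A j i := fun i j => hA.apply j i
  obtain ⟨W0, hW0⟩ := exists_linearIndependent_of_le_finrank hD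
  set W : Fin 4 → Fin n → ℂ := fun a => (W0 a : Fin n → ℂ) with hW
  have hWi : LinearIndependent ℂ W := hW0.map' D.subtype D.ker_subtype
  set pt : (Fin 4 → ℂ) → Fin n → ℂ := fun s l => ∑ a, s a * W a l with hpt
  have hptD : ∀ s, pt s ∈ D := by
    intro s
    have h1 : pt s = ∑ a, s a • W a := by
      funext l
      rw [Finset.sum_apply]
      rfl
    rw [h1]
    exact Submodule.sum_mem _ fun a _ => D.smul_mem _ (W0 a).2
  let sub : MvPolynomial (Fin n) ℂ →ₐ[ℂ] MvPolynomial (Fin 4 ⊕ Fin 3) ℂ :=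
    aeval fun l => ∑ a, C (W a l) * X (Sum.inl a)
  have hsub : ∀ (x : Fin 4 ⊕ Fin 3 → ℂ) (P : MvPolynomial (Fin n) ℂ),
      eval x (sub P) = eval (pt (x ∘ Sum.inl)) P := by
    intro x P
    rw [ev_ae, ev_ae]
    have h1 : (aeval x).comp sub = (aeval (pt (x ∘ Sum.inl)) : MvPolynomial (Fin n) ℂ →ₐ[ℂ] ℂ) := by
      apply algHom_ext
      intro l
      rw [AlgHom.comp_apply, aeval_X]
      simp only [sub, aeval_X, map_sum, map_mul, hpt]
      refine Finset.sum_congr rfl fun a _ => ?_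
      rw [aeval_C]
      simp [mul_comm]
    rw [← h1, AlgHom.comp_apply]
  obtain ⟨x, hx0, hx⟩ := Pool.Agent.H952R2.Sextic.exists_common_zero (K := ℂ)
    (ι := Fin 4 ⊕ Fin 3) (κ := {p : Fin 3 × Fin 3 // p.1 ≤ p.2}) (by decide)
    (fun p => sub (A p.1.1 p.1.2) - X (Sum.inr p.1.1) * X (Sum.inr p.1.2)) (by
      rintro ⟨⟨i, j⟩, _⟩
      have h1 : eval (0 : Fin 4 ⊕ Fin 3 → ℂ) (sub (A i j)) = 0 := by
        rw [hsub]
        have : pt ((0 : Fin 4 ⊕ Fin 3 → ℂ) ∘ Sum.inl) = 0 := by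
          funext l
          simp [hpt]
        rw [this]
        exact hA0 i j
      change eval (0 : Fin 4 ⊕ Fin 3 → ℂ) (sub (A i j) -
        X (Sum.inr i) * X (Sum.inr j)) = 0
      rw [map_sub, h1, map_mul, eval_X, Pi.zero_apply, zero_mul, sub_zero])
  have h1 : ∀ i j : Fin 3, i ≤ j → eval (pt (x ∘ Sum.inl)) (A i j) =
      x (Sum.inr i) * x (Sum.inr j) := by
    intro i j hij
    have := hx ⟨(i, j), hij⟩
    simp only [map_sub, map_mul, hsub, eval_X] at this
    exact sub_eq_zero.1 this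
  have h2 : ∀ i j : Fin 3, eval (pt (x ∘ Sum.inl)) (A i j) =
      x (Sum.inr i) * x (Sum.inr j) := by
    intro i j
    rcases le_total i j with h | h
    · exact h1 i j h
    · rw [hAs, h1 j i h, mul_comm]
  refine ⟨pt (x ∘ Sum.inl), hptD _, ?_, ?_⟩
  · intro h0
    apply hx0
    have h5 : ∀ a, (x ∘ Sum.inl) a = 0 := by
      refine Fintype.linearIndependent_iff.1 hWi (x ∘ Sum.inl) ?_
      rw [← h0]
      funext l
      rw [Finset.sum_apply]
      rfl
    funext s
    rcases s with s | s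
    · exact h5 s
    · have h3 := h2 s s
      rw [h0, hA0] at h3
      exact mul_self_eq_zero.1 h3.symm
  · exact ⟨x ∘ Sum.inr, h2⟩

variable {n : ℕ} {T : Fin (n + 2) → Fin (n + 2) → Fin (n + 2) → ℂ}

theorem pderiv_Bg (l : Fin n) (x y z : Fin (n + 2) → MvPolynomial (Fin n) ℂ) :
    pderiv l (Bg T x y z) = Bg T (fun i => pderiv l (x i)) y z + Bg T x (fun i => pderiv l (y i)) z +
      Bg T x y (fun i => pderiv l (z i)) := by
  unfold Bg
  simp only [map_sum, ← Finset.sum_add_distrib]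
  refine Finset.sum_congr rfl fun i _ => Finset.sum_congr rfl fun j _ =>
    Finset.sum_congr rfl fun k _ => ?_
  simp only [Derivation.leibniz, smul_eq_mul, Derivation.map_algebraMap]
  ring

theorem eval_yy (η : Fin n → ℂ) : (fun i => aeval η (yy i)) = pad η := by
  have h1 := pad_map (aeval η : MvPolynomial (Fin n) ℂ →ₐ[ℂ] ℂ) (X : Fin n → _)
  change (fun i => aeval η (pad X i)) = _
  rw [h1]
  simp only [aeval_X]

theorem pderiv_E (l : Fin n) (i : Fin (n + 2)) :
    (fun j => pderiv l ((Eg i : Fin (n + 2) → MvPolynomial (Fin n) ℂ) j)) = fun _ => 0 := by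
  funext j
  unfold Eg
  by_cases h : j = i
  · rw [if_pos h]
    simp
  · rw [if_neg h, map_zero]

theorem pderiv_yy (l : Fin n) : (fun j => pderiv l (yy j)) =
    (Eg l.succ.succ : Fin (n + 2) → MvPolynomial (Fin n) ℂ) := by
  classical
  funext j
  refine cases2 (P := fun j => pderiv l (yy j) =
    (Eg l.succ.succ : Fin (n + 2) → MvPolynomial (Fin n) ℂ) j) ?_ ?_ ?_ j
  · have : (0 : Fin (n + 2)) ≠ l.succ.succ := (Fin.succ_ne_zero _).symm
    simp [yy, Eg, this]
  · have : (1 : Fin (n + 2)) ≠ l.succ.succ := by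
      intro h
      have := congrArg Fin.val h
      simp at this
    simp [yy, Eg, this]
  · intro j
    by_cases h : j = l
    · subst h
      simp [yy, Eg]
    · have : (j.succ.succ : Fin (n + 2)) ≠ l.succ.succ := by
        intro h2
        exact h (Fin.succ_injective _ (Fin.succ_injective _ h2))
      simp [yy, Eg, h, pderiv_X_of_ne h]

theorem Bg_PP {m : ℕ} {T : Fin m → Fin m → Fin m → ℂ} (hT : SymG T) (u : Fin 3 → ℂ)
    (a b y e : Fin m → ℂ) :
    Bg T (fun i => u 0 * a i + (u 1 * b i + u 2 * y i))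
      (fun i => u 0 * a i + (u 1 * b i + u 2 * y i)) e =
      u 0 ^ 2 * Bg T a a e + 2 * u 0 * u 1 * Bg T a b e +
      u 1 ^ 2 * Bg T b b e + 2 * u 0 * u 2 * Bg T a y e +
      2 * u 1 * u 2 * Bg T b y e + u 2 ^ 2 * Bg T y y e := by
  simp only [Bg_add1, Bg_add2, Bg_smul1, Bg_smul2]
  rw [Bg_swap12 hT b a, Bg_swap12 hT y a, Bg_swap12 hT y b]
  ring

/-- smoothness -/
def SmoothG {m : ℕ} (T : Fin m → Fin m → Fin m → ℂ) : Prop :=
  ∀ z : Fin m → ℂ, (∀ i, Bg T (Eg i) z z = 0) → z = 0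

theorem ani (hT : SymG T) (hS : SmoothG T) (hL : LineG T) (η : Fin n → ℂ) (hη0 : η ≠ 0)
    (μ : Fin 3 → ℂ) (hμ0 : μ ≠ 0) (hμ : ∀ i j, cm T (pad η) i j = μ i * μ j)
    (V : Fin 3 → MvPolynomial (Fin n) ℂ) (hV : ∑ i, ∑ j, V i * cm T yy i j * V j = 0) : V = 0 := by
  classical
  have hsym : (cm T yy).IsSymm := cm_symm yy
  have hev : ∀ (η : Fin n → ℂ) i j, eval η (cm T yy i j) = cm T (pad η) i j := by
    intro η i j
    rw [ev_ae]
    have h1 := cm_map (T := T) (aeval η : MvPolynomial (Fin n) ℂ →ₐ[ℂ] ℂ) yy i j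
    rw [eval_yy] at h1
    exact h1
  have hmin : ∀ i j k l : Fin 3, eval η (cm T yy i k) * eval η (cm T yy j l) =
      eval η (cm T yy i l) * eval η (cm T yy j k) := by
    intro i j k l
    rw [hev, hev, hev, hev, hμ, hμ, hμ, hμ]
    ring
  set y := pad η with hy
  obtain ⟨h000, h001, h010, h011, h100, h101, h110, h111⟩ := e_zero (R := ℂ) hL
  have c10 : Bg T (Eg 1 : Fin (n + 2) → ℂ) (Eg 0) y = Bg T (Eg 0) (Eg 1) y := Bg_swap12 hT _ _ _
  -- the entries of the matrix at `η`
  have m00 : cm T y 0 0 = 3 * Bg T (Eg 0) (Eg 0) y := rfl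
  have m01 : cm T y 0 1 = 3 * Bg T (Eg 0) (Eg 1) y := rfl
  have m10 : cm T y 1 0 = 3 * Bg T (Eg 0) (Eg 1) y := rfl
  have m11 : cm T y 1 1 = 3 * Bg T (Eg 1) (Eg 1) y := rfl
  have m02 : cm T y 0 2 = 3 / 2 * Bg T (Eg 0) y y := rfl
  have m12 : cm T y 1 2 = 3 / 2 * Bg T (Eg 1) y y := rfl
  refine an (cm T yy) hsym η ?_ hmin ?_ V hV
  · -- not zero
    by_contra hcon
    push Not at hcon
    apply hμ0
    funext i
    have h1 := hcon i i
    rw [hev, ← hy, hμ] at h1
    exact mul_self_eq_zero.1 h1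
  · intro u hu hker
    by_contra hcon
    push Not at hcon
    simp only [hev] at hker
    have r0 := hker 0
    have r1 := hker 1
    rw [Fin.sum_univ_three] at r0 r1
    rw [m00, m01, m02] at r0
    rw [m10, m11, m12] at r1
    set P : Fin (n + 2) → ℂ := fun i => u 0 * Eg 0 i + (u 1 * Eg 1 i + u 2 * y i) with hP
    have hE0 : Bg T P P (Eg 0) = 0 := by
      rw [hP, Bg_PP hT, h000, h010, h110, Bg_swap23 hT (Eg 0) y, Bg_swap23 hT (Eg 1) y,
        Bg_swap23 hT y y, Bg_swap12 hT y (Eg 0), c10]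
      linear_combination (2 / 3 * u 2) * r0
    have hE1 : Bg T P P (Eg 1) = 0 := by
      rw [hP, Bg_PP hT, h001, h011, h111, Bg_swap23 hT (Eg 0) y, Bg_swap23 hT (Eg 1) y,
        Bg_swap23 hT y y, Bg_swap12 hT y (Eg 1)]
      linear_combination (2 / 3 * u 2) * r1
    have hEl : ∀ l : Fin n, Bg T P P (Eg l.succ.succ) = 0 := by
      intro l
      have h1 := hcon l
      have h2 : (∑ i, ∑ j, C (u i) * cm T yy i j * C (u j) : MvPolynomial (Fin n) ℂ) =
          qf (cm T yy) fun i => C (u i) := rfl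
      rw [h2, qf_cm] at h1
      set e : Fin (n + 2) → MvPolynomial (Fin n) ℂ := Eg l.succ.succ with he
      have d1 : ∀ a b : Fin (n + 2), pderiv l (Bg T (Eg a) (Eg b) yy) = Bg T (Eg a) (Eg b) e := by
        intro a b
        rw [pderiv_Bg, pderiv_E, pderiv_E, pderiv_yy, Bg_zero1, Bg_swap12 hT (Eg a) (fun _ => 0),
          Bg_zero1, zero_add, zero_add]
      have d2 : ∀ a : Fin (n + 2), pderiv l (Bg T (Eg a) yy yy) = 2 * Bg T (Eg a) yy e := by
        intro a
        rw [pderiv_Bg, pderiv_E, pderiv_yy, Bg_zero1, Bg_swap23 hT (Eg a) (Eg _) yy]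
        ring
      have d3 : pderiv l (Bg T yy yy yy) = 3 * Bg T yy yy e := by
        rw [pderiv_Bg, pderiv_yy, Bg_swap12 hT (Eg _) yy yy, Bg_swap23 hT yy (Eg _) yy]
        ring
      have hc : ∀ (a : ℂ) (p : MvPolynomial (Fin n) ℂ), pderiv l (p * C a) = pderiv l p * C a := by
        intro a p
        rw [Derivation.leibniz, pderiv_C, smul_zero, zero_add, smul_eq_mul, mul_comm]
      have h3c : ∀ p : MvPolynomial (Fin n) ℂ, pderiv l (3 * p) = 3 * pderiv l p := by
        intro p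
        have : (3 : MvPolynomial (Fin n) ℂ) = C 3 := by rw [map_ofNat]
        rw [this, mul_comm, hc, mul_comm]
      have h6c : ∀ p : MvPolynomial (Fin n) ℂ, pderiv l (6 * p) = 6 * pderiv l p := by
        intro p
        have : (6 : MvPolynomial (Fin n) ℂ) = C 6 := by rw [map_ofNat]
        rw [this, mul_comm, hc, mul_comm]
      simp only [map_add, ← C_pow, hc, h3c, h6c, d1, d2, d3] at h1
      rw [map_mul, map_mul, map_mul, map_mul] at h1
      have hm : ∀ a b : Fin (n + 2), eval η (Bg T (Eg a) (Eg b) e) =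
          Bg T (Eg a : Fin (n + 2) → ℂ) (Eg b) (Eg l.succ.succ) := by
        intro a b
        rw [ev_ae, map_Bg, E_map, E_map, he, E_map]
      have hm2 : ∀ a : Fin (n + 2), eval η (Bg T (Eg a) yy e) =
          Bg T (Eg a : Fin (n + 2) → ℂ) y (Eg l.succ.succ) := by
        intro a
        rw [ev_ae, map_Bg, E_map, eval_yy, he, E_map]
      have hm3 : eval η (Bg T yy yy e) = Bg T y y (Eg l.succ.succ) := by
        rw [ev_ae, map_Bg, eval_yy, he, E_map]
      simp only [map_mul, eval_C, map_ofNat, hm, hm2, hm3] at h1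
      rw [hP, Bg_PP hT]
      linear_combination (1 / 3 : ℂ) * h1
    have hP0 : P = 0 := by
      apply hS
      intro i
      rw [swap13 hT]
      exact cases2 (P := fun i => Bg T P P (Eg i) = 0) hE0 hE1 hEl i
    apply hu
    have hPl : ∀ l : Fin n, u 2 * η l = 0 := by
      intro l
      have := congrFun hP0 l.succ.succ
      have e1 : (l.succ.succ : Fin (n + 2)) ≠ 0 := Fin.succ_ne_zero _
      have e2 : (l.succ.succ : Fin (n + 2)) ≠ 1 := by
        intro h
        have := congrArg Fin.val h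
        simp at this
      simpa [hP, Eg, hy, e1, e2] using this
    have hu2 : u 2 = 0 := by
      by_contra h2
      apply hη0
      funext l
      exact (mul_eq_zero.1 (hPl l)).resolve_left h2
    have h0 := congrFun hP0 0
    have h1 := congrFun hP0 1
    simp [hP, hu2, Eg] at h0 h1
    funext i
    fin_cases i
    · exact h0
    · exact h1
    · exact hu2

end

end Pool.Agent.Q79.CN
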