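import Pool.Agent.Q79.CN.Tri
import Pool.Agent.Q79.CB.Conic2

/-! # The third intersection map on a conic bundle, odd degree, any dimension -/

set_option autoImplicit false
set_option linter.unusedSectionVars false

namespace Pool.Agent.Q79.CN

open MvPolynomial Pool.Agent.TH314.PD Pool.Agent.Y201.C3

noncomputable section

theorem cbn {k : ℕ} (T : Fin (k + 1 + 2) → Fin (k + 1 + 2) → Fin (k + 1 + 2) → ℂ) (hT : SymG T)
    (hL : LineG T)
    (hV : ∀ V : Fin 3 → MvPolynomial (Fin (k + 1)) ℂ,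
      ∑ i, ∑ j, V i * cm T yy i j * V j = 0 → V = 0)
    (M : Type) [Field M] [Algebra ℂ M] (htr : Algebra.trdeg ℂ M = (k + 1 : ℕ))
    (x : Fin (k + 1 + 2) → M) (hx : Bg T x x x = 0)
    (hq : ∀ (e : ℕ) (H : MvPolynomial (Fin (k + 1)) ℂ), H.IsHomogeneous e →
      aeval (fun j => x j.succ.succ) H = 0 → H = 0)
    (hrat : Odd (Module.finrank (ratioField x) M))
    (lam : Fin (k + 1 + 2) → M) (hlam : lam ≠ 0) (hlam2 : ∀ j : Fin (k + 1), lam j.succ.succ = 0) :
      Bg T lam lam x ≠ 0 ∧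
      Odd (Module.finrank (ratioField fun i => Bg T lam lam x * x i - Bg T lam x x * lam i) M) := by
  set j0 : Fin (k + 1) := 0 with hj0
  set i0 : Fin (k + 1 + 2) := j0.succ.succ with hi0
  obtain ⟨q, hqd⟩ : ∃ q : Fin (k + 1) → M, q = fun j => x j.succ.succ := ⟨_, rfl⟩
  rw [← hqd] at hq
  have hqx : ∀ j : Fin (k + 1), x j.succ.succ = q j := fun j => by rw [hqd]
  have hq3 : q j0 ≠ 0 := by
    intro h0
    exact X_ne_zero j0 (hq 1 (X j0) (isHomogeneous_X _ _) (by rw [aeval_X]; exact h0))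
  have hx5 : x i0 ≠ 0 := by
    rw [hi0, hqx]
    exact hq3
  have hxy : ∀ j : Fin (k + 1), x j.succ.succ = x i0 * (q j / q j0) := by
    intro j
    rw [hi0, hqx, hqx, mul_div_cancel₀ _ hq3]
  have han : ∀ W : Fin 3 → M, (∀ i, W i ∈ ratioField q) → qf (cm T (ym q j0)) W = 0 → W = 0 :=
    fun W hW h0 => aniso hV q hq j0 hq3 W hW h0
  -- the conic over the field of ratios
  let yK : Fin (k + 1 + 2) → ratioField q := fun i => ⟨ym q j0 i, ym_mem q j0 i⟩
  have hA : ∀ i j, algebraMap (ratioField q) M (cm T yK i j) = cm T (ym q j0) i j := fun i j =>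
    cm_map (ratioField q).val yK i j
  have hchar : CharZero (ratioField q) :=
    charZero_of_injective_algebraMap (algebraMap ℂ (ratioField q)).injective
  have hanK : ∀ w : Fin 3 → ratioField q, ∑ i, ∑ j, w i * cm T yK i j * w j = 0 → w = 0 := by
    intro w hw
    have h1 : (ratioField q).val (qf (cm T yK) w) = 0 := by
      change (ratioField q).val (∑ i, ∑ j, w i * cm T yK i j * w j) = 0
      rw [hw, map_zero]
    rw [qf_cm_map] at h1
    have h2 := han (fun i => (w i : M)) (fun i => (w i).2) h1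
    funext i
    exact Subtype.ext (congrFun h2 i)
  have hgen : Odd (Module.finrank (IntermediateField.adjoin (ratioField q)
      {z : M | ∃ i j, z = (![x 0, x 1, x i0] : Fin 3 → M) i /
        (![x 0, x 1, x i0] : Fin 3 → M) j}) M) := by
    have h1 := fields q j0 hq3 x 1 one_ne_zero (fun j => by rw [hqx, one_mul])
    rw [← h1] at hrat
    exact hrat
  have hiso : ∑ i, ∑ j, (![x 0, x 1, x i0] : Fin 3 → M) i *
      algebraMap (ratioField q) M (cm T yK i j) * (![x 0, x 1, x i0] : Fin 3 → M) j = 0 := by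
    simp only [hA]
    exact isotropic hT hL (fun j => q j / q j0) x (x i0) hxy hx5 hx
  obtain ⟨c1, c2⟩ := Pool.Agent.Q79.CB.conic2 (ratioField q) M (cm T yK) (cm_symm yK) hanK
    (not_alg htr q j0 hq3) ![x 0, x 1, x i0] hiso hgen
  -- the vector `lam`
  have hlE : lam = fun i => lam 0 * Eg 0 i + lam 1 * Eg 1 i := by
    have h1 := decomp (R := M) lam 0 (fun _ => 0) (fun j => by rw [hlam2 j, mul_zero])
    funext i
    have h2 := congrFun h1 i
    change lam i = lam 0 * Eg 0 i + (lam 1 * Eg 1 i + 0 * _) at h2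
    rw [zero_mul, add_zero] at h2
    exact h2
  obtain ⟨e000, e001, e010, e011, e100, e101, e110, e111⟩ := e_zero (R := M) hL
  have hlll : Bg T lam lam lam = 0 := by
    rw [hlE]
    simp only [Bg_add1, Bg_add2, Bg_add3, Bg_smul1, Bg_smul2, Bg_smul3, e000, e001,
      e010, e011, e100, e101, e110, e111, mul_zero, add_zero]
  have hgl : ∀ a b : M, Bg T (fun i => a * Eg 0 i + b * Eg 1 i)
      (fun i => a * Eg 0 i + b * Eg 1 i) x =
      x i0 * (a ^ 2 * Bg T (Eg 0) (Eg 0) (ym q j0) +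
      2 * a * b * Bg T (Eg 0) (Eg 1) (ym q j0) + b ^ 2 * Bg T (Eg 1) (Eg 1) (ym q j0)) := by
    intro a b
    have hxd := decomp x (x i0) (fun j => q j / q j0) hxy
    have hxd' : x = fun i => x 0 * Eg 0 i + (x 1 * Eg 1 i + x i0 * ym q j0 i) := hxd
    conv_lhs => rw [hxd']
    simp only [Bg_add1, Bg_add2, Bg_add3, Bg_smul1, Bg_smul2, Bg_smul3, e000, e001,
      e010, e011, e100, e101, e110, e111, mul_zero, add_zero, zero_add]
    rw [Bg_swap12 hT (Eg 1) (Eg 0) (ym q j0)]
    ring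
  have hllx := hgl (lam 0) (lam 1)
  rw [← hlE] at hllx
  have hm0 : (0 : M) ∈ ratioField q := zero_mem _
  have hm1 : (1 : M) ∈ ratioField q := one_mem _
  have hqf0 : ∀ a b : M, qf (cm T (ym q j0)) ![a, b, 0] =
      3 * (a ^ 2 * Bg T (Eg 0) (Eg 0) (ym q j0) +
      2 * a * b * Bg T (Eg 0) (Eg 1) (ym q j0) + b ^ 2 * Bg T (Eg 1) (Eg 1) (ym q j0)) := by
    intro a b
    rw [qf_cm]
    simp only [Matrix.cons_val_zero, Matrix.cons_val_one, Matrix.cons_val_two, Matrix.head_cons,
      Matrix.tail_cons]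
    ring
  have hiso2 : ∀ a b : M, a ∈ ratioField q → b ∈ ratioField q →
      a ^ 2 * Bg T (Eg 0) (Eg 0) (ym q j0) + 2 * a * b * Bg T (Eg 0) (Eg 1) (ym q j0) +
        b ^ 2 * Bg T (Eg 1) (Eg 1) (ym q j0) = 0 → a = 0 ∧ b = 0 := by
    intro a b ha hb hab
    have h1 := han ![a, b, 0] (by
      intro i
      fin_cases i
      · exact ha
      · exact hb
      · exact hm0) (by rw [hqf0, hab, mul_zero])
    exact ⟨congrFun h1 0, congrFun h1 1⟩
  have hb11 : Bg T (Eg 1) (Eg 1) (ym q j0) ≠ 0 := by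
    intro h0
    have := hiso2 0 1 hm0 hm1 (by rw [h0]; ring)
    exact one_ne_zero this.2
  have hb00 : Bg T (Eg 0) (Eg 0) (ym q j0) ≠ 0 := by
    intro h0
    have := hiso2 1 0 hm1 hm0 (by rw [h0]; ring)
    exact one_ne_zero this.1
  have hκ : Bg T lam lam x ≠ 0 := by
    intro hk
    rw [hllx] at hk
    have hk' := (mul_eq_zero.1 hk).resolve_left hx5
    have hl0 : lam 0 ≠ 0 := by
      intro h0
      rw [h0] at hk'
      have h1 : lam 1 ^ 2 * Bg T (Eg 1) (Eg 1) (ym q j0) = 0 := by linear_combination hk'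
      have h2 : lam 1 = 0 := by
        have := (mul_eq_zero.1 h1).resolve_right hb11
        exact pow_eq_zero_iff (two_ne_zero) |>.1 this
      apply hlam
      rw [hlE, h0, h2]
      funext i
      simp
    set ρ : M := lam 1 / lam 0 with hρ
    have hρ0 : Bg T (Eg 1) (Eg 1) (ym q j0) * ρ ^ 2 + 2 * Bg T (Eg 0) (Eg 1) (ym q j0) * ρ +
        Bg T (Eg 0) (Eg 0) (ym q j0) = 0 := by
      rw [hρ]
      field_simp
      linear_combination hk'
    have e1 : algebraMap (ratioField q) M (Bg T (Eg 1) (Eg 1) yK) =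
        Bg T (Eg 1) (Eg 1) (ym q j0) := by
      have := map_Bg (ratioField q).val T (Eg 1) (Eg 1) yK
      rw [E_map] at this
      exact this
    have e2 : algebraMap (ratioField q) M (Bg T (Eg 0) (Eg 1) yK) =
        Bg T (Eg 0) (Eg 1) (ym q j0) := by
      have := map_Bg (ratioField q).val T (Eg 0) (Eg 1) yK
      rw [E_map, E_map] at this
      exact this
    have e3 : algebraMap (ratioField q) M (Bg T (Eg 0) (Eg 0) yK) =
        Bg T (Eg 0) (Eg 0) (ym q j0) := by
      have := map_Bg (ratioField q).val T (Eg 0) (Eg 0) yK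
      rw [E_map] at this
      exact this
    obtain ⟨a, ha⟩ := c1 ρ ⟨2 * Bg T (Eg 0) (Eg 1) yK / Bg T (Eg 1) (Eg 1) yK,
      Bg T (Eg 0) (Eg 0) yK / Bg T (Eg 1) (Eg 1) yK, by
        rw [map_div₀, map_div₀, map_mul, e1, e2, e3, map_ofNat]
        field_simp
        linear_combination hρ0⟩
    have hρm : ρ ∈ ratioField q := by
      rw [ha]
      exact a.2
    have := hiso2 1 ρ hm1 hρm (by linear_combination hρ0)
    exact one_ne_zero this.1
  refine ⟨hκ, ?_⟩
  set κ : M := Bg T lam lam x with hκd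
  set β : M := Bg T lam x x with hβ
  obtain ⟨x', hx'⟩ : ∃ x' : Fin (k + 1 + 2) → M, x' = fun i => κ * x i - β * lam i := ⟨_, rfl⟩
  rw [← hx']
  have hx'2 : ∀ j : Fin (k + 1), x' j.succ.succ = κ * x j.succ.succ := by
    intro j
    rw [hx']
    simp only
    rw [hlam2 j, mul_zero, sub_zero]
  have hx'5 : x' i0 ≠ 0 := by
    rw [hi0, hx'2]
    exact mul_ne_zero hκ hx5
  have hx'y : ∀ j : Fin (k + 1), x' j.succ.succ = x' i0 * (q j / q j0) := by
    intro j
    rw [hi0, hx'2, hx'2, hxy j]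
    ring
  have hB' : Bg T x' x' x' = 0 := by
    have e : x' = fun i => κ * x i + (-β) * lam i := by
      rw [hx']
      funext i
      ring
    exact (third hT lam x hlll hx x' (by rw [e])).1
  have hfin := c2 ![x' 0, x' 1, x' i0] (by
    intro h0
    exact hx'5 (congrFun h0 2)) (by
    simp only [hA]
    exact isotropic hT hL (fun j => q j / q j0) x' (x' i0) hx'y hx'5 hB')
  have hfe := fields q j0 hq3 x' κ hκ (fun j => by rw [hx'2, hqx])
  rw [← hfe]
  exact hfin

end

end Pool.Agent.Q79.CN
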