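import Pool.Agent.Q79.CN.Ani
import Pool.Agent.Q79.CN.Cbn
import Pool.Agent.Y201.C3.Cases
import Pool.Agent.Q79.CB.Generic

/-! # Linear changes of coordinates, any dimension -/

set_option autoImplicit false
set_option linter.unusedSectionVars false

namespace Pool.Agent.Q79.CN

open MvPolynomial Pool.Agent.TH314.PD Pool.Agent.Y201.C3

noncomputable section

/-- extension of two independent vectors to an invertible matrix -/
theorem exists_mat {n : ℕ} (p q : Fin (n + 2) → ℂ) (h : LinearIndependent ℂ ![p, q]) :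
    ∃ P N : Matrix (Fin (n + 2)) (Fin (n + 2)) ℂ, P * N = 1 ∧ N * P = 1 ∧ P 0 = p ∧ P 1 = q := by
  classical
  let b := Module.Basis.sumExtend h
  have hcard : Nat.card (Fin 2 ⊕ Module.Basis.sumExtendIndex h) = n + 2 := by
    have := Module.finrank_eq_nat_card_basis b
    rw [← this]
    simp
  have hfin : Finite (Fin 2 ⊕ Module.Basis.sumExtendIndex h) :=
    Nat.finite_of_card_ne_zero (by rw [hcard]; omega)
  have hfin2 : Finite (Module.Basis.sumExtendIndex h) :=
    Finite.of_injective (Sum.inr : _ → Fin 2 ⊕ Module.Basis.sumExtendIndex h) Sum.inr_injective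
  have hc4 : Nat.card (Module.Basis.sumExtendIndex h) = n := by
    rw [Nat.card_sum, Nat.card_fin] at hcard
    omega
  let e : Module.Basis.sumExtendIndex h ≃ Fin n := Finite.equivFinOfCardEq hc4
  let e2 : Fin 2 ⊕ Module.Basis.sumExtendIndex h ≃ Fin (n + 2) :=
    (Equiv.sumCongr (Equiv.refl (Fin 2)) e).trans (finSumFinEquiv.trans (finCongr (by omega)))
  let b' : Module.Basis (Fin (n + 2)) ℂ (Fin (n + 2) → ℂ) := b.reindex e2
  have he0 : e2 (Sum.inl 0) = 0 := by
    apply Fin.ext
    simp [e2]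
  have he1 : e2 (Sum.inl 1) = 1 := by
    apply Fin.ext
    simp [e2]
  have hb0 : b' 0 = p := by
    have : b' 0 = b (Sum.inl 0) := by
      simp only [b', Module.Basis.reindex_apply]
      rw [← he0, Equiv.symm_apply_apply]
    rw [this]
    exact sumExtend_inl h 0
  have hb1 : b' 1 = q := by
    have : b' 1 = b (Sum.inl 1) := by
      simp only [b', Module.Basis.reindex_apply]
      rw [← he1, Equiv.symm_apply_apply]
    rw [this]
    exact sumExtend_inl h 1
  let P : Matrix (Fin (n + 2)) (Fin (n + 2)) ℂ := fun i => b' i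
  have hP : IsUnit P := Matrix.linearIndependent_rows_iff_isUnit.1 b'.linearIndependent
  have hdet : IsUnit P.det := (Matrix.isUnit_iff_isUnit_det P).1 hP
  exact ⟨P, P⁻¹, Matrix.mul_nonsing_inv P hdet, Matrix.nonsing_inv_mul P hdet, hb0, hb1⟩

section

variable {m : ℕ} {T : Fin m → Fin m → Fin m → ℂ}

/-- the cubic form -/
def fr (T : Fin m → Fin m → Fin m → ℂ) : MvPolynomial (Fin m) ℂ := Bg T X X X

theorem fr_hom : (fr T).IsHomogeneous 3 :=
  hom_Bg (T := T) (fun i => isHomogeneous_X ℂ i) (fun i => isHomogeneous_X ℂ i)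
    (fun i => isHomogeneous_X ℂ i)

theorem aeval_fr {R : Type} [CommRing R] [Algebra ℂ R] (x : Fin m → R) :
    aeval x (fr T) = Bg T x x x := aeval_frmG T x

theorem Bg_co (hT : SymG T) (P : Matrix (Fin m) (Fin m) ℂ) {R : Type} [CommRing R] [Algebra ℂ R]
    (x y z : Fin m → R) : Bg (comp T P) x y z = Bg T (co P x) (co P y) (co P z) :=
  Bg_comp hT P x y z

theorem Bg_unit (z : Fin m → ℂ) (h : ∀ i, Bg T (Eg i) z z = 0) (v : Fin m → ℂ) :
    Bg T v z z = 0 := by
  rw [← unit_sum v, Bg_sum1]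
  refine Finset.sum_eq_zero fun a _ => ?_
  rw [Bg_smul1]
  have h1 : Bg T (fun i => if i = a then (1 : ℂ) else 0) z z = 0 := h a
  rw [h1, mul_zero]

theorem smooth_co (hT : SymG T) (hS : SmoothG T) (P N : Matrix (Fin m) (Fin m) ℂ)
    (h : P * N = 1) (h' : N * P = 1) : SmoothG (comp T P) := by
  intro z hz
  have h1 : ∀ v : Fin m → ℂ, Bg (comp T P) v z z = 0 := Bg_unit z hz
  have h2 : co P z = 0 := by
    apply hS
    intro i
    have h3 := h1 (co N (Eg i))
    rw [Bg_co hT, co_co N P h'] at h3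
    exact h3
  have h3 := co_co P N h z
  rw [h2, co_zero] at h3
  exact h3.symm

theorem fr_co (hT : SymG T) (P : Matrix (Fin m) (Fin m) ℂ) :
    su P (fr T) = fr (comp T P) := by
  have h1 := Bg_co hT P (X : Fin m → MvPolynomial (Fin m) ℂ) X X
  unfold fr
  rw [h1]
  exact aeval_frmG T (co P X)

theorem forms_co (hT : SymG T) (P N : Matrix (Fin m) (Fin m) ℂ) (h : P * N = 1)
    {M : Type} [Field M] [Algebra ℂ M] (x : Fin m → M)
    (hx : ∀ (e : ℕ) (H : MvPolynomial (Fin m) ℂ), H.IsHomogeneous e → aeval x H = 0 → fr T ∣ H)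
    (e : ℕ) (H : MvPolynomial (Fin m) ℂ) (hH : H.IsHomogeneous e) (h0 : aeval (co N x) H = 0) :
    fr (comp T P) ∣ H := by
  have h1 : aeval x (su N H) = 0 := by rw [aeval_su, h0]
  have h2 := hx e _ (su_hom N hH) h1
  have h3 := map_dvd (su P) h2
  rw [fr_co hT, su_su P N h] at h3
  exact h3

/-- a smooth cubic form contains every variable -/
theorem degree_pos (hT : SymG T) (hS : SmoothG T) (i0 : Fin m) : degreeOf i0 (fr T) ≠ 0 := by
  intro h
  have h1 : pderiv i0 (fr T) = 0 := by
    rw [pderiv_eq_zero_of_notMem_vars]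
    rw [mem_vars_iff_degreeOf_ne_zero]
    exact not_not.2 h
  have h2 : ∀ z : Fin m → ℂ, Bg T (Eg i0) z z = 0 := by
    intro z
    have h3 := pderiv_frmG hT i0 z
    change aeval z (pderiv i0 (fr T)) = _ at h3
    rw [h1, map_zero] at h3
    have h4 : (3 : ℂ) ≠ 0 := by norm_num
    exact (mul_eq_zero.1 h3.symm).resolve_left h4
  have h3 : ∀ y z : Fin m → ℂ, Bg T (Eg i0) y z = 0 := by
    intro y z
    have e1 := h2 (fun i => y i + z i)
    rw [Bg_add2, Bg_add3, Bg_add3, h2 y, h2 z, Bg_swap23 hT _ z y] at e1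
    linear_combination (1 / 2 : ℂ) * e1
  have h4 : (Eg i0 : Fin m → ℂ) = 0 := by
    apply hS
    intro i
    rw [Bg_swap12 hT]
    exact h3 _ _
  have h5 := congrFun h4 i0
  simp [Eg] at h5

theorem fr_ne_zero [NeZero m] (hT : SymG T) (hS : SmoothG T) : fr T ≠ 0 := by
  intro h
  have h3 := degree_pos hT hS 0
  rw [h] at h3
  simp at h3

end

theorem forms_last {n : ℕ} {T : Fin (n + 2) → Fin (n + 2) → Fin (n + 2) → ℂ} (hT : SymG T)
    (hS : SmoothG T) {M : Type} [Field M] [Algebra ℂ M] (z : Fin (n + 2) → M)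
    (hz : ∀ (e : ℕ) (H : MvPolynomial (Fin (n + 2)) ℂ), H.IsHomogeneous e → aeval z H = 0 →
      fr T ∣ H)
    (e : ℕ) (H : MvPolynomial (Fin n) ℂ) (hH : H.IsHomogeneous e)
    (h0 : aeval (fun j => z j.succ.succ) H = 0) : H = 0 := by
  by_contra hne
  let f : Fin n → Fin (n + 2) := fun j => j.succ.succ
  have hf : Function.Injective f := fun a b h => Fin.succ_injective _ (Fin.succ_injective _ h)
  have h1 : aeval z (rename f H) = 0 := by
    rw [aeval_rename]
    exact h0
  obtain ⟨B, hB⟩ := hz e _ (IsHomogeneous.rename_isHomogeneous hH) h1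
  have h2 : rename f H ≠ 0 := by
    intro h
    exact hne (rename_injective _ hf (by rw [h, map_zero]))
  have hF0 : fr T ≠ 0 := by
    intro h
    rw [h, zero_mul] at hB
    exact h2 hB
  have hB0 : B ≠ 0 := by
    rintro rfl
    rw [mul_zero] at hB
    exact h2 hB
  have h3 : degreeOf 0 (rename f H) ≠ 0 := by
    rw [hB, degreeOf_mul_eq hF0 hB0]
    have := degree_pos hT hS 0
    omega
  rw [← mem_vars_iff_degreeOf_ne_zero] at h3
  obtain ⟨i, _, hi⟩ := mem_vars_rename _ _ h3
  exact absurd hi (Fin.succ_ne_zero _)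

section gen

variable {M : Type} [Field M] [Algebra ℂ M]

open scoped IntermediateField.algebraAdjoinAdjoin in
/-- independent coordinates -/
lemma exists_zeta {m k : ℕ} (htr : Algebra.trdeg ℂ M = (k : ℕ)) (x : Fin m → M) (j : Fin m)
    (hj : x j ≠ 0) (hfin : FiniteDimensional (ratioField x) M) :
    ∃ ζ : Fin k → Fin m, AlgebraicIndependent ℂ (fun l => x (ζ l) / x j) := by
  classical
  set s : Set M := Set.range fun i => x i / x j with hs
  have h1 : Algebra.IsAlgebraic (IntermediateField.adjoin ℂ s) M := by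
    rw [hs, Pool.Agent.Y960.C3.ratio_eq x j hj]
    infer_instance
  have h2 : Algebra.IsAlgebraic (Algebra.adjoin ℂ s) (IntermediateField.adjoin ℂ s) :=
    IsLocalization.isAlgebraic _ (nonZeroDivisors (Algebra.adjoin ℂ s))
  have h3 : Algebra.IsAlgebraic (Algebra.adjoin ℂ s) M :=
    Algebra.IsAlgebraic.trans (Algebra.adjoin ℂ s) (IntermediateField.adjoin ℂ s) M
  obtain ⟨B, hB, hBt⟩ := exists_isTranscendenceBasis_subset (R := ℂ) s
  have h4 : Cardinal.mk B = Cardinal.mk (Fin k) := by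
    rw [hBt.cardinalMk_eq_trdeg, htr, Cardinal.mk_fin]
  obtain ⟨e⟩ := Cardinal.eq.1 h4
  choose idx hidx using fun b : B => hB b.2
  refine ⟨fun l => idx (e.symm l), ?_⟩
  have h5 := hBt.1.comp e.symm e.symm.injective
  have h6 : (fun l => x (idx (e.symm l)) / x j) = (fun b : B => (b : M)) ∘ e.symm := by
    funext l
    exact hidx (e.symm l)
  rw [h6]
  exact h5

/-- a point of a smooth hypersurface over a field of transcendence degree equal to the dimension
is generic if the field is finite over the field of ratios -/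
theorem generic_of_finite {n d : ℕ} (hn : 1 ≤ n) (hd : 1 ≤ d) (F : MvPolynomial (Fin (n + 2)) ℂ)
    (hF : F.IsHomogeneous d)
    (hsm : ∀ z : Fin (n + 2) → ℂ, (∀ i, eval z (pderiv i F) = 0) → z = 0)
    (htr : Algebra.trdeg ℂ M = (n : ℕ)) (x : Fin (n + 2) → M)
    (hx : aeval x F = 0) (hfin : FiniteDimensional (ratioField x) M) :
    ∀ (e : ℕ) (H : MvPolynomial (Fin (n + 2)) ℂ), H.IsHomogeneous e → aeval x H = 0 → F ∣ H := by
  classical
  have hirr : Irreducible F := Pool.Agent.Q79.CB.irreducible_smooth hn hd F hF hsm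
  have hprime : ∀ (a b : ℕ) (A B : MvPolynomial (Fin (n + 2)) ℂ), A.IsHomogeneous a →
      B.IsHomogeneous b → F ∣ A * B → F ∣ A ∨ F ∣ B := fun _ _ A B _ _ h =>
    hirr.prime.dvd_or_dvd h
  have hxj : ∃ j, x j ≠ 0 := by
    by_contra hcon
    push Not at hcon
    have h1 : ratioField x = ⊥ := by
      rw [eq_bot_iff]
      unfold ratioField
      rw [IntermediateField.adjoin_le_iff]
      rintro _ ⟨a, b, rfl⟩
      rw [hcon a, zero_div]
      exact zero_mem _
    rw [h1] at hfin
    have h2 : Algebra.IsAlgebraic (⊥ : IntermediateField ℂ M) M := inferInstance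
    have h3 : Algebra.IsAlgebraic ℂ M := by
      have : Algebra.IsAlgebraic ℂ (⊥ : IntermediateField ℂ M) :=
        (IntermediateField.botEquiv ℂ M).symm.isAlgebraic
      exact Algebra.IsAlgebraic.trans ℂ (⊥ : IntermediateField ℂ M) M
    have h4 : Algebra.trdeg ℂ M = 0 := trdeg_eq_zero
    rw [htr, Nat.cast_eq_zero] at h4
    omega
  obtain ⟨j, hj⟩ := hxj
  obtain ⟨ζ, hζ⟩ := exists_zeta htr x j hj hfin
  intro e H hH h0
  refine dom_of_indep (n := n) hF hd hirr.ne_zero hprime (aeval x)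
    (Fin.cons j ζ : Fin (n + 1) → Fin (n + 2)) hx ?_ hH h0
  intro l A hA hA0
  rw [aeval_rename] at hA0
  refine Pool.Agent.Y960.C3.no_form (fun l => x (ζ l) / x j) hζ (x j) hj l A hA ?_
  rw [← hA0]
  congr 2
  funext i
  refine Fin.cases ?_ (fun l => ?_) i
  · rw [Fin.cons_zero, mul_one]
    rfl
  · rw [Fin.cons_succ]
    change x j * (x (ζ l) / x j) = x (ζ l)
    field_simp

end gen

end

end Pool.Agent.Q79.CN
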