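import Pool.Agent.Q79.CN.GoodU

/-! # Lines of the first type -/

set_option autoImplicit false
set_option linter.unusedSectionVars false

namespace Pool.Agent.Q79.CN

open MvPolynomial Pool.Agent.TH314.PD Pool.Agent.Y201.C3

noncomputable section

section

variable {m : ℕ} {T : Fin m → Fin m → Fin m → ℂ}

theorem Bg_eq_sum (v y z : Fin m → ℂ) : Bg T v y z = ∑ i, v i * Bg T (Eg i) y z := by
  conv_lhs => rw [← unit_sum v, Bg_sum1]
  refine Finset.sum_congr rfl fun a _ => ?_
  rw [Bg_smul1]
  rfl

/-- a smooth cubic form does not vanish on a subspace of dimension four and codimension three -/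
theorem exists_point (hT : SymG T) (hS : SmoothG T) (K : Submodule ℂ (Fin m → ℂ))
    (hK : 4 ≤ Module.finrank ℂ K) (e : Fin 3 → Fin m → ℂ)
    (he : ∀ v : Fin m → ℂ, ∃ (k : Fin m → ℂ) (d : Fin 3 → ℂ), k ∈ K ∧ v = k + ∑ c, d c • e c) :
    ∃ y ∈ K, Bg T y y y ≠ 0 := by
  classical
  by_contra hcon
  push Not at hcon
  obtain ⟨W0, hW0⟩ := exists_linearIndependent_of_le_finrank hK
  set W : Fin 4 → Fin m → ℂ := fun a => (W0 a : Fin m → ℂ) with hW
  have hWi : LinearIndependent ℂ W := hW0.map' K.subtype K.ker_subtype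
  set pt : (Fin 4 → ℂ) → Fin m → ℂ := fun s l => ∑ a, s a * W a l with hpt
  have hptK : ∀ s, pt s ∈ K := by
    intro s
    have h1 : pt s = ∑ a, s a • W a := by
      funext l
      rw [Finset.sum_apply]
      rfl
    rw [h1]
    exact Submodule.sum_mem _ fun a _ => K.smul_mem _ (W0 a).2
  -- polarization on `K`
  have hpol : ∀ y ∈ K, ∀ z ∈ K, Bg T z y y = 0 := by
    intro y hy z hz
    have h1 : ∀ s : ℂ, Bg T y y y + 3 * s * Bg T z y y + 3 * s ^ 2 * Bg T z z y +
        s ^ 3 * Bg T z z z = 0 := by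
      intro s
      have h2 := hcon (fun i => y i + s * z i) (K.add_mem hy (K.smul_mem s hz))
      simp only [Bg_add1, Bg_add2, Bg_add3, Bg_smul1, Bg_smul2, Bg_smul3] at h2
      rw [swap13 hT y y z, Bg_swap12 hT y z y, Bg_swap12 hT y z z, Bg_swap23 hT z y z] at h2
      linear_combination h2
    have e0 := h1 0
    have e1 := h1 1
    have e2 := h1 (-1)
    have e3 := h1 2
    linear_combination (-1 / 6 : ℂ) * e0 + (1 / 3 : ℂ) * e1 - (1 / 9 : ℂ) * e2 -
      (1 / 18 : ℂ) * e3
  -- the three quadratic forms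
  let xx : Fin m → MvPolynomial (Fin 4) ℂ := fun l => ∑ a, C (W a l) * X a
  have hxx : ∀ s : Fin 4 → ℂ, (fun l => aeval s (xx l)) = pt s := by
    intro s
    funext l
    simp only [xx, map_sum, map_mul, aeval_X, aeval_C, hpt]
    exact Finset.sum_congr rfl fun a _ => by
      change W a l * s a = s a * W a l
      ring
  have hev : ∀ (s : Fin 4 → ℂ) (c : Fin 3),
      eval s (Bg T (fun i => C (e c i)) xx xx) = Bg T (e c) (pt s) (pt s) := by
    intro s c
    rw [ev_ae, map_Bg, hxx]
    congr 1
    funext i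
    rw [aeval_C]
    rfl
  obtain ⟨s, hs0, hs⟩ := Pool.Agent.H952R2.Sextic.exists_common_zero (K := ℂ)
    (ι := Fin 4) (κ := Fin 3) (by decide) (fun c => Bg T (fun i => C (e c i)) xx xx) (by
      intro c
      rw [hev]
      have : pt 0 = fun i => 0 * (0 : Fin m → ℂ) i := by
        funext l
        simp [hpt]
      rw [this, Bg_smul2, zero_mul])
  have hy0 : pt s = 0 := by
    apply hS
    intro i
    obtain ⟨k, d, hk, hkd⟩ := he (Eg i)
    have h1 : (Eg i : Fin m → ℂ) = fun j => k j + ∑ c, d c * e c j := by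
      rw [hkd]
      funext j
      rw [Pi.add_apply, Finset.sum_apply]
      rfl
    rw [h1, Bg_add1, hpol _ (hptK s) k hk, zero_add, Bg_sum1]
    refine Finset.sum_eq_zero fun c _ => ?_
    rw [Bg_smul1, ← hev, hs c, mul_zero]
  apply hs0
  have := Fintype.linearIndependent_iff.1 hWi s (by
    rw [← hy0]
    funext l
    rw [Finset.sum_apply]
    rfl)
  exact funext this

end

/-- for a line of the first type there is a subspace of dimension six -/
theorem good_of_first {n : ℕ} (hn : 5 ≤ n) {T : Fin (n + 2) → Fin (n + 2) → Fin (n + 2) → ℂ}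
    (hT : SymG T) (hS : SmoothG T) (p q : Fin (n + 2) → ℂ)
    (hline : ∀ i j k : Fin 2, Bg T (![p, q] i) (![p, q] j) (![p, q] k) = 0)
    (hind : LinearIndependent ℂ ![p, q])
    (hft : LinearIndependent ℂ ![fun i => Bg T (Eg i) p p, fun i => Bg T (Eg i) p q,
      fun i => Bg T (Eg i) q q]) :
    ∃ U : Submodule ℂ (Fin (n + 2) → ℂ), p ∈ U ∧ q ∈ U ∧ 6 ≤ Module.finrank ℂ U ∧
      ∀ y ∈ U, LinearIndependent ℂ ![p, q, y] → ∃ i j l : Fin 3,
        Bg T ((![p, q, y] : Fin 3 → Fin (n + 2) → ℂ) i)
          ((![p, q, y] : Fin 3 → Fin (n + 2) → ℂ) j)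
          ((![p, q, y] : Fin 3 → Fin (n + 2) → ℂ) l) ≠ 0 := by
  classical
  let G : Matrix (Fin 3) (Fin (n + 2)) ℂ := Matrix.of ![fun i => Bg T (Eg i) p p,
    fun i => Bg T (Eg i) p q, fun i => Bg T (Eg i) q q]
  have hG0 : ∀ y, G.mulVec y 0 = Bg T y p p := by
    intro y
    rw [Bg_eq_sum y p p]
    change ∑ i, Bg T (Eg i) p p * y i = _
    exact Finset.sum_congr rfl fun i _ => mul_comm _ _
  have hG1 : ∀ y, G.mulVec y 1 = Bg T y p q := by
    intro y
    rw [Bg_eq_sum y p q]
    change ∑ i, Bg T (Eg i) p q * y i = _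
    exact Finset.sum_congr rfl fun i _ => mul_comm _ _
  have hG2 : ∀ y, G.mulVec y 2 = Bg T y q q := by
    intro y
    rw [Bg_eq_sum y q q]
    change ∑ i, Bg T (Eg i) q q * y i = _
    exact Finset.sum_congr rfl fun i _ => mul_comm _ _
  have hrank : G.rank = 3 := by
    have := LinearIndependent.rank_matrix (M := G) hft
    simpa using this
  have hsurj : Function.Surjective G.mulVecLin := by
    rw [← LinearMap.range_eq_top]
    apply Submodule.eq_top_of_finrank_eq
    rw [← Matrix.rank]
    rw [hrank]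
    simp
  set K := LinearMap.ker G.mulVecLin with hK
  have hKr : Module.finrank ℂ K = n - 1 := by
    have h1 := LinearMap.finrank_range_add_finrank_ker G.mulVecLin
    have h2 : Module.finrank ℂ (Fin (n + 2) → ℂ) = n + 2 := by simp
    have h3 : G.rank + Module.finrank ℂ K = Module.finrank ℂ (Fin (n + 2) → ℂ) := h1
    rw [h2, hrank] at h3
    omega
  choose e he using fun c : Fin 3 => hsurj (Pi.single c 1)
  have hdec : ∀ v : Fin (n + 2) → ℂ, ∃ (k : Fin (n + 2) → ℂ) (d : Fin 3 → ℂ), k ∈ K ∧
      v = k + ∑ c, d c • e c := by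
    intro v
    refine ⟨v - ∑ c, G.mulVecLin v c • e c, G.mulVecLin v, ?_, by abel⟩
    rw [hK, LinearMap.mem_ker, map_sub, map_sum, sub_eq_zero]
    funext c
    rw [Finset.sum_apply, Finset.sum_eq_single c]
    · rw [map_smul, he, Pi.smul_apply, Pi.single_eq_same, smul_eq_mul, mul_one]
    · intro c' _ hc'
      rw [map_smul, he, Pi.smul_apply, Pi.single_eq_of_ne (Ne.symm hc'), smul_zero]
    · intro h
      exact absurd (Finset.mem_univ _) h
  obtain ⟨y0, hy0K, hy0⟩ := exists_point hT hS K (by omega) e hdec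
  have hKmem : ∀ y, y ∈ K ↔ Bg T y p p = 0 ∧ Bg T y p q = 0 ∧ Bg T y q q = 0 := by
    intro y
    rw [hK, LinearMap.mem_ker]
    constructor
    · intro h
      refine ⟨?_, ?_, ?_⟩
      · rw [← hG0]
        exact congrFun h 0
      · rw [← hG1]
        exact congrFun h 1
      · rw [← hG2]
        exact congrFun h 2
    · rintro ⟨h1, h2, h3⟩
      funext c
      fin_cases c
      · exact (hG0 y).trans h1
      · exact (hG1 y).trans h2
      · exact (hG2 y).trans h3
  have hpK : p ∈ K := (hKmem p).2 ⟨hline 0 0 0, hline 0 0 1, hline 0 1 1⟩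
  have hqK : q ∈ K := (hKmem q).2 ⟨hline 1 0 0, hline 1 0 1, hline 1 1 1⟩
  -- the six vectors
  let v : Fin 6 → Fin (n + 2) → ℂ := ![p, q, y0, e 0, e 1, e 2]
  have hpqe : ∀ a b : ℂ, Bg T (fun i => a * p i + b * q i) (fun i => a * p i + b * q i)
      (fun i => a * p i + b * q i) = 0 := by
    intro a b
    simp only [Bg_add1, Bg_add2, Bg_add3, Bg_smul1, Bg_smul2, Bg_smul3]
    have h000 : Bg T p p p = 0 := hline 0 0 0
    have h001 : Bg T p p q = 0 := hline 0 0 1
    have h010 : Bg T p q p = 0 := hline 0 1 0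
    have h011 : Bg T p q q = 0 := hline 0 1 1
    have h100 : Bg T q p p = 0 := hline 1 0 0
    have h101 : Bg T q p q = 0 := hline 1 0 1
    have h110 : Bg T q q p = 0 := hline 1 1 0
    have h111 : Bg T q q q = 0 := hline 1 1 1
    rw [h000, h001, h010, h011, h100, h101, h110, h111]
    ring
  have hv : LinearIndependent ℂ v := by
    rw [Fintype.linearIndependent_iff]
    intro g hg
    have hg' : g 0 • p + g 1 • q + g 2 • y0 + g 3 • e 0 + g 4 • e 1 + g 5 • e 2 = 0 := by
      rw [← hg, Fin.sum_univ_six]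
      rfl
    have h1 := congrArg G.mulVecLin hg'
    have hp0 : G.mulVecLin p = 0 := hpK
    have hq0 : G.mulVecLin q = 0 := hqK
    have hy00 : G.mulVecLin y0 = 0 := hy0K
    simp only [map_add, map_smul, he, map_zero, hp0, hq0, hy00, smul_zero, zero_add] at h1
    have g3 : g 3 = 0 := by
      have := congrFun h1 0
      simpa [Pi.single_apply] using this
    have g4 : g 4 = 0 := by
      have := congrFun h1 1
      simpa [Pi.single_apply] using this
    have g5 : g 5 = 0 := by
      have := congrFun h1 2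
      simpa [Pi.single_apply] using this
    rw [g3, g4, g5, zero_smul, zero_smul, zero_smul, add_zero, add_zero, add_zero] at hg'
    have g2 : g 2 = 0 := by
      by_contra h2
      apply hy0
      have h3 : y0 = fun i => (-(g 0) / g 2) * p i + (-(g 1) / g 2) * q i := by
        funext i
        have := congrFun hg' i
        simp only [Pi.add_apply, Pi.smul_apply, smul_eq_mul, Pi.zero_apply] at this
        field_simp
        linear_combination this
      rw [h3]
      exact hpqe _ _
    rw [g2, zero_smul, add_zero] at hg'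
    have h4 := Fintype.linearIndependent_iff.1 hind ![g 0, g 1] (by
      rw [Fin.sum_univ_two]
      exact hg')
    intro i
    fin_cases i
    · exact h4 0
    · exact h4 1
    · exact g2
    · exact g3
    · exact g4
    · exact g5
  refine ⟨Submodule.span ℂ (Set.range v), Submodule.subset_span ⟨0, rfl⟩,
    Submodule.subset_span ⟨1, rfl⟩, ?_, ?_⟩
  · rw [finrank_span_eq_card hv]
    simp
  · intro y hy hyi
    obtain ⟨g, hg⟩ := (Submodule.mem_span_range_iff_exists_fun ℂ).1 hy
    by_contra hcon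
    push Not at hcon
    have hg' : y = g 0 • p + g 1 • q + g 2 • y0 + g 3 • e 0 + g 4 • e 1 + g 5 • e 2 := by
      rw [← hg, Fin.sum_univ_six]
      rfl
    have h1 := congrArg G.mulVecLin hg'
    have hp0 : G.mulVecLin p = 0 := hpK
    have hq0 : G.mulVecLin q = 0 := hqK
    have hy00 : G.mulVecLin y0 = 0 := hy0K
    have hyK : y ∈ K := (hKmem y).2 ⟨hcon 2 0 0, hcon 2 0 1, hcon 2 1 1⟩
    have hyy : G.mulVecLin y = 0 := hyK
    rw [hyy] at h1
    simp only [map_add, map_smul, he, hp0, hq0, hy00, smul_zero, zero_add] at h1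
    have g3 : g 3 = 0 := by
      have := congrFun h1 0
      simpa [Pi.single_apply] using this.symm
    have g4 : g 4 = 0 := by
      have := congrFun h1 1
      simpa [Pi.single_apply] using this.symm
    have g5 : g 5 = 0 := by
      have := congrFun h1 2
      simpa [Pi.single_apply] using this.symm
    rw [g3, g4, g5, zero_smul, zero_smul, zero_smul, add_zero, add_zero, add_zero] at hg'
    have g2 : g 2 ≠ 0 := by
      intro h2
      rw [h2, zero_smul, add_zero] at hg'
      have h4 := Fintype.linearIndependent_iff.1 hyi ![g 0, g 1, -1] (by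
        rw [Fin.sum_univ_three]
        change g 0 • p + g 1 • q + (-1 : ℂ) • y = 0
        rw [hg', neg_smul, one_smul, add_neg_cancel]) 2
      simp at h4
    apply hy0
    have h5 : y0 = fun i => (-(g 0) / g 2) * p i + ((-(g 1) / g 2) * q i + (1 / g 2) * y i) := by
      funext i
      have := congrFun hg' i
      simp only [Pi.add_apply, Pi.smul_apply, smul_eq_mul] at this
      field_simp
      linear_combination -this
    have hb : ∀ i j l : Fin 3, Bg T ((![p, q, y] : Fin 3 → Fin (n + 2) → ℂ) i)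
        ((![p, q, y] : Fin 3 → Fin (n + 2) → ℂ) j)
        ((![p, q, y] : Fin 3 → Fin (n + 2) → ℂ) l) = 0 := hcon
    rw [h5]
    simp only [Bg_add1, Bg_add2, Bg_add3, Bg_smul1, Bg_smul2, Bg_smul3]
    have b000 : Bg T p p p = 0 := hb 0 0 0
    have b001 : Bg T p p q = 0 := hb 0 0 1
    have b002 : Bg T p p y = 0 := hb 0 0 2
    have b010 : Bg T p q p = 0 := hb 0 1 0
    have b011 : Bg T p q q = 0 := hb 0 1 1
    have b012 : Bg T p q y = 0 := hb 0 1 2
    have b020 : Bg T p y p = 0 := hb 0 2 0
    have b021 : Bg T p y q = 0 := hb 0 2 1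
    have b022 : Bg T p y y = 0 := hb 0 2 2
    have b100 : Bg T q p p = 0 := hb 1 0 0
    have b101 : Bg T q p q = 0 := hb 1 0 1
    have b102 : Bg T q p y = 0 := hb 1 0 2
    have b110 : Bg T q q p = 0 := hb 1 1 0
    have b111 : Bg T q q q = 0 := hb 1 1 1
    have b112 : Bg T q q y = 0 := hb 1 1 2
    have b120 : Bg T q y p = 0 := hb 1 2 0
    have b121 : Bg T q y q = 0 := hb 1 2 1
    have b122 : Bg T q y y = 0 := hb 1 2 2
    have b200 : Bg T y p p = 0 := hb 2 0 0
    have b201 : Bg T y p q = 0 := hb 2 0 1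
    have b202 : Bg T y p y = 0 := hb 2 0 2
    have b210 : Bg T y q p = 0 := hb 2 1 0
    have b211 : Bg T y q q = 0 := hb 2 1 1
    have b212 : Bg T y q y = 0 := hb 2 1 2
    have b220 : Bg T y y p = 0 := hb 2 2 0
    have b221 : Bg T y y q = 0 := hb 2 2 1
    have b222 : Bg T y y y = 0 := hb 2 2 2
    simp only [b000, b001, b002, b010, b011, b012, b020, b021, b022, b100, b101, b102, b110, b111,
      b112, b120, b121, b122, b200, b201, b202, b210, b211, b212, b220, b221, b222, mul_zero,
      add_zero]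

end

end Pool.Agent.Q79.CN
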