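import Pool.Agent.Q79.CN.Multi
import Pool.Agent.Q79.CN.First

/-! # Translation to polynomials -/

set_option autoImplicit false
set_option linter.unusedSectionVars false

namespace Pool.Agent.Q79.CN

open MvPolynomial Pool.Agent.TH314.PD Pool.Agent.Y201.C3

noncomputable section

variable {m : ℕ} {T : Fin m → Fin m → Fin m → ℂ}

/-- every cubic form comes from a symmetric trilinear form -/
theorem exists_T (F : MvPolynomial (Fin m) ℂ) (hF : F.IsHomogeneous 3) :
    ∃ T : Fin m → Fin m → Fin m → ℂ, SymG T ∧ F = fr T := exists_tri F hF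

theorem grad_eq (hT : SymG T) (z : Fin m → ℂ) (i : Fin m) :
    eval z (pderiv i (fr T)) = 3 * Bg T (Eg i) z z := by
  rw [ev_ae]
  exact pderiv_frmG (R := ℂ) hT i z

theorem smooth_of (hT : SymG T)
    (hsm : ∀ z : Fin m → ℂ, (∀ i, eval z (pderiv i (fr T)) = 0) → z = 0) : SmoothG T := by
  intro z hz
  apply hsm
  intro i
  rw [grad_eq hT, hz, mul_zero]

/-- the trilinear form vanishes on a line contained in the cubic -/
theorem line_tri (hT : SymG T) (p q : Fin m → ℂ)
    (h : ∀ a b : ℂ, eval (a • p + b • q) (fr T) = 0) (i j k : Fin 2) :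
    Bg T ((![p, q] : Fin 2 → Fin m → ℂ) i) ((![p, q] : Fin 2 → Fin m → ℂ) j)
      ((![p, q] : Fin 2 → Fin m → ℂ) k) = 0 := by
  have h1 : ∀ a b : ℂ, a ^ 3 * Bg T p p p + 3 * a ^ 2 * b * Bg T p p q + 3 * a * b ^ 2 * Bg T p q q +
      b ^ 3 * Bg T q q q = 0 := by
    intro a b
    have h2 := h a b
    have h3 : aeval (a • p + b • q) (fr T) = Bg T (fun i => a * p i + b * q i)
      (fun i => a * p i + b * q i) (fun i => a * p i + b * q i) := aeval_fr _
    rw [ev_ae, h3] at h2
    simp only [Bg_add1, Bg_add2, Bg_add3, Bg_smul1, Bg_smul2, Bg_smul3] at h2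
    rw [swap13 hT q p p, Bg_swap23 hT p q p, Bg_swap12 hT q p q, swap13 hT q q p] at h2
    linear_combination h2
  have e1 := h1 1 0
  have e2 := h1 0 1
  have e3 := h1 1 1
  have e4 := h1 1 (-1)
  have f1 : Bg T p p p = 0 := by linear_combination e1
  have f4 : Bg T q q q = 0 := by linear_combination e2
  have f2 : Bg T p p q = 0 := by
    linear_combination (1 / 6 : ℂ) * e3 - (1 / 6 : ℂ) * e4 - (1 / 3 : ℂ) * f4
  have f3 : Bg T p q q = 0 := by
    linear_combination (1 / 6 : ℂ) * e3 + (1 / 6 : ℂ) * e4 - (1 / 3 : ℂ) * f1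
  fin_cases i <;> fin_cases j <;> fin_cases k
  · exact f1
  · exact f2
  · change Bg T p q p = 0
    rw [Bg_swap23 hT]
    exact f2
  · exact f3
  · change Bg T q p p = 0
    rw [swap13 hT]
    exact f2
  · change Bg T q p q = 0
    rw [Bg_swap12 hT]
    exact f3
  · change Bg T q q p = 0
    rw [swap13 hT]
    exact f3
  · exact f4

/-- the trilinear form does not vanish on a plane which is not contained in the cubic -/
theorem plane_tri (p q y : Fin m → ℂ)
    (h : ∃ a b c : ℂ, eval (a • p + b • q + c • y) (fr T) ≠ 0) :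
    ∃ i j k : Fin 3, Bg T ((![p, q, y] : Fin 3 → Fin m → ℂ) i)
      ((![p, q, y] : Fin 3 → Fin m → ℂ) j) ((![p, q, y] : Fin 3 → Fin m → ℂ) k) ≠ 0 := by
  by_contra hcon
  push Not at hcon
  obtain ⟨a, b, c, hc⟩ := h
  apply hc
  have h3 : aeval (a • p + b • q + c • y) (fr T) =
      Bg T (fun i => a * p i + b * q i + c * y i) (fun i => a * p i + b * q i + c * y i)
        (fun i => a * p i + b * q i + c * y i) := aeval_fr _
  rw [ev_ae, h3]
  simp only [Bg_add1, Bg_add2, Bg_add3, Bg_smul1, Bg_smul2, Bg_smul3]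
  have b000 : Bg T p p p = 0 := hcon 0 0 0
  have b001 : Bg T p p q = 0 := hcon 0 0 1
  have b002 : Bg T p p y = 0 := hcon 0 0 2
  have b010 : Bg T p q p = 0 := hcon 0 1 0
  have b011 : Bg T p q q = 0 := hcon 0 1 1
  have b012 : Bg T p q y = 0 := hcon 0 1 2
  have b020 : Bg T p y p = 0 := hcon 0 2 0
  have b021 : Bg T p y q = 0 := hcon 0 2 1
  have b022 : Bg T p y y = 0 := hcon 0 2 2
  have b100 : Bg T q p p = 0 := hcon 1 0 0
  have b101 : Bg T q p q = 0 := hcon 1 0 1
  have b102 : Bg T q p y = 0 := hcon 1 0 2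
  have b110 : Bg T q q p = 0 := hcon 1 1 0
  have b111 : Bg T q q q = 0 := hcon 1 1 1
  have b112 : Bg T q q y = 0 := hcon 1 1 2
  have b120 : Bg T q y p = 0 := hcon 1 2 0
  have b121 : Bg T q y q = 0 := hcon 1 2 1
  have b122 : Bg T q y y = 0 := hcon 1 2 2
  have b200 : Bg T y p p = 0 := hcon 2 0 0
  have b201 : Bg T y p q = 0 := hcon 2 0 1
  have b202 : Bg T y p y = 0 := hcon 2 0 2
  have b210 : Bg T y q p = 0 := hcon 2 1 0
  have b211 : Bg T y q q = 0 := hcon 2 1 1
  have b212 : Bg T y q y = 0 := hcon 2 1 2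
  have b220 : Bg T y y p = 0 := hcon 2 2 0
  have b221 : Bg T y y q = 0 := hcon 2 2 1
  have b222 : Bg T y y y = 0 := hcon 2 2 2
  simp only [b000, b001, b002, b010, b011, b012, b020, b021, b022, b100, b101, b102, b110, b111,
    b112, b120, b121, b122, b200, b201, b202, b210, b211, b212, b220, b221, b222, mul_zero,
    add_zero]

/-- the three linear forms of a line of the first type -/
theorem first_tri (hT : SymG T) (p q : Fin m → ℂ)
    (h : LinearIndependent ℂ ![fun i => eval p (pderiv i (fr T)),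
      fun i => eval (p + q) (pderiv i (fr T)), fun i => eval q (pderiv i (fr T))]) :
    LinearIndependent ℂ ![fun i => Bg T (Eg i) p p, fun i => Bg T (Eg i) p q,
      fun i => Bg T (Eg i) q q] := by
  rw [Fintype.linearIndependent_iff] at h ⊢
  intro g hg
  rw [Fin.sum_univ_three] at hg
  have key : ∀ i, eval (p + q) (pderiv i (fr T)) = 3 * (Bg T (Eg i) p p +
      2 * Bg T (Eg i) p q + Bg T (Eg i) q q) := by
    intro i
    rw [grad_eq hT]
    have h1 : Bg T (Eg i) (p + q) (p + q) = Bg T (Eg i) p p +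
      2 * Bg T (Eg i) p q + Bg T (Eg i) q q := by
      have h2 : (p + q) = fun i => p i + q i := rfl
      rw [h2]
      simp only [Bg_add2, Bg_add3]
      rw [Bg_swap23 hT (Eg i) q p]
      ring
    rw [h1]
  have h1 := h ![g 0 - g 1 / 2, g 1 / 2, g 2 - g 1 / 2] (by
    rw [Fin.sum_univ_three]
    funext i
    have h2 := congrFun hg i
    simp only [Matrix.cons_val_zero, Matrix.cons_val_one, Matrix.cons_val, Pi.add_apply,
      Pi.smul_apply, smul_eq_mul, Pi.zero_apply] at h2 ⊢
    rw [key i, grad_eq hT, grad_eq hT]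
    linear_combination 3 * h2)
  have e0 := h1 0
  have e1 := h1 1
  have e2 := h1 2
  simp only [Matrix.cons_val_zero, Matrix.cons_val_one, Matrix.cons_val] at e0 e1 e2
  have g1 : g 1 = 0 := by linear_combination 2 * e1
  rw [g1] at e0 e2
  intro i
  fin_cases i
  · change g 0 = 0
    linear_combination e0
  · exact g1
  · change g 2 = 0
    linear_combination e2

/-- some plane through the line spanned by `p` and `q` meets the cubic in this line and a double
line -/
theorem double_tri (hT : SymG T) (p q y : Fin m → ℂ) (μ : Fin 3 → ℂ)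
    (hl : ∀ i j k : Fin 2, Bg T (![p, q] i) (![p, q] j) (![p, q] k) = 0)
    (h : ∀ a b c : ℂ, eval (a • p + b • q + c • y) (fr T) =
      c * (μ 0 * a + μ 1 * b + μ 2 * c) ^ 2) :
    ∀ i j, cmv T p q y i j = μ i * μ j := by
  have h000 : Bg T p p p = 0 := hl 0 0 0
  have h001 : Bg T p p q = 0 := hl 0 0 1
  have h010 : Bg T p q p = 0 := hl 0 1 0
  have h011 : Bg T p q q = 0 := hl 0 1 1
  have h100 : Bg T q p p = 0 := hl 1 0 0
  have h101 : Bg T q p q = 0 := hl 1 0 1
  have h110 : Bg T q q p = 0 := hl 1 1 0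
  have h111 : Bg T q q q = 0 := hl 1 1 1
  have s1 : Bg T p y p = Bg T p p y := Bg_swap23 hT _ _ _
  have s2 : Bg T p y q = Bg T p q y := Bg_swap23 hT _ _ _
  have s3 : Bg T q y p = Bg T p q y := by rw [Bg_swap23 hT, Bg_swap12 hT]
  have s4 : Bg T q y q = Bg T q q y := Bg_swap23 hT _ _ _
  have s5 : Bg T q p y = Bg T p q y := Bg_swap12 hT _ _ _
  have s6 : Bg T y p p = Bg T p p y := by rw [Bg_swap12 hT, Bg_swap23 hT]
  have s7 : Bg T y p q = Bg T p q y := by rw [Bg_swap12 hT, Bg_swap23 hT]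
  have s8 : Bg T y q p = Bg T p q y := by rw [swap13 hT]
  have s9 : Bg T y q q = Bg T q q y := by rw [Bg_swap12 hT, Bg_swap23 hT]
  have s10 : Bg T y p y = Bg T p y y := Bg_swap12 hT _ _ _
  have s11 : Bg T y q y = Bg T q y y := Bg_swap12 hT _ _ _
  have s12 : Bg T y y p = Bg T p y y := by rw [Bg_swap23 hT, Bg_swap12 hT]
  have s13 : Bg T y y q = Bg T q y y := by rw [Bg_swap23 hT, Bg_swap12 hT]
  have key : ∀ a b c : ℂ, 3 * a ^ 2 * c * Bg T p p y + 6 * a * b * c * Bg T p q y +
      3 * b ^ 2 * c * Bg T q q y + 3 * a * c ^ 2 * Bg T p y y + 3 * b * c ^ 2 * Bg T q y y +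
      c ^ 3 * Bg T y y y = c * (μ 0 * a + μ 1 * b + μ 2 * c) ^ 2 := by
    intro a b c
    have h1 := h a b c
    have h3 : aeval (a • p + b • q + c • y) (fr T) =
        Bg T (fun i => a * p i + b * q i + c * y i) (fun i => a * p i + b * q i + c * y i)
          (fun i => a * p i + b * q i + c * y i) := aeval_fr _
    rw [ev_ae, h3] at h1
    simp only [Bg_add1, Bg_add2, Bg_add3, Bg_smul1, Bg_smul2, Bg_smul3] at h1
    rw [h000, h001, h010, h011, h100, h101, h110, h111, s1, s2, s3, s4, s5, s6, s7, s8, s9, s10,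
      s11, s12, s13] at h1
    linear_combination h1
  have k1 := key 1 0 1
  have k2 := key (-1) 0 1
  have k3 := key 0 1 1
  have k4 := key 0 (-1) 1
  have k5 := key 0 0 1
  have k6 := key 1 1 1
  have f22 : Bg T y y y = μ 2 * μ 2 := by linear_combination k5
  have f00 : 3 * Bg T p p y = μ 0 * μ 0 := by
    linear_combination (1 / 2 : ℂ) * k1 + (1 / 2 : ℂ) * k2 - f22
  have f02 : 3 / 2 * Bg T p y y = μ 0 * μ 2 := by
    linear_combination (1 / 4 : ℂ) * k1 - (1 / 4 : ℂ) * k2
  have f11 : 3 * Bg T q q y = μ 1 * μ 1 := by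
    linear_combination (1 / 2 : ℂ) * k3 + (1 / 2 : ℂ) * k4 - f22
  have f12 : 3 / 2 * Bg T q y y = μ 1 * μ 2 := by
    linear_combination (1 / 4 : ℂ) * k3 - (1 / 4 : ℂ) * k4
  have f01 : 3 * Bg T p q y = μ 0 * μ 1 := by
    linear_combination (1 / 2 : ℂ) * k6 - (1 / 2 : ℂ) * f00 - (1 / 2 : ℂ) * f11 - f02 - f12 -
      (1 / 2 : ℂ) * f22
  intro i j
  fin_cases i <;> fin_cases j
  · exact f00
  · exact f01
  · exact f02
  · exact f01.trans (mul_comm _ _)
  · exact f11
  · exact f12
  · exact f02.trans (mul_comm _ _)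
  · exact f12.trans (mul_comm _ _)
  · exact f22

end

end Pool.Agent.Q79.CN
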