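import Pool.Agent.Q79.CN.Third

/-! # Existence of planes which meet the cubic in the line and a double line -/

set_option autoImplicit false
set_option linter.unusedSectionVars false

namespace Pool.Agent.Q79.CN

open MvPolynomial Pool.Agent.TH314.PD Pool.Agent.Y201.C3

noncomputable section

/-- the last coordinates -/
def tailL (n : ℕ) : (Fin (n + 2) → ℂ) →ₗ[ℂ] (Fin n → ℂ) :=
  LinearMap.funLeft ℂ ℂ fun j => j.succ.succ

/-- dimension count -/
theorem finrank_tail {n : ℕ} (P N : Matrix (Fin (n + 2)) (Fin (n + 2)) ℂ)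
    (hNP : N * P = 1) (U : Submodule ℂ (Fin (n + 2) → ℂ))
    (hU : 6 ≤ Module.finrank ℂ U) :
    4 ≤ Module.finrank ℂ (U.map ((tailL n).comp (coL N))) := by
  set f := (tailL n).comp (coL N) with hf
  have h1 := LinearMap.finrank_range_add_finrank_ker (f.comp U.subtype)
  have h2 : LinearMap.range (f.comp U.subtype) = U.map f := by
    rw [LinearMap.range_comp, Submodule.range_subtype]
  rw [h2] at h1
  -- the kernel embeds into `ℂ ^ 2`
  have h3 : Module.finrank ℂ (LinearMap.ker (f.comp U.subtype)) ≤ 2 := by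
    let g : LinearMap.ker (f.comp U.subtype) →ₗ[ℂ] (Fin 2 → ℂ) :=
      ((LinearMap.funLeft ℂ ℂ (![0, 1] : Fin 2 → Fin (n + 2))).comp (coL N)).comp
        (U.subtype.comp (LinearMap.ker (f.comp U.subtype)).subtype)
    have hg : Function.Injective g := by
      rintro ⟨⟨u, hu⟩, hk⟩ ⟨⟨v, hv⟩, hk'⟩ h
      have h4 : co N u = co N v := by
        funext i
        refine cases2 (P := fun i => co N u i = co N v i) ?_ ?_ ?_ i
        · exact congrFun h 0
        · exact congrFun h 1
        · intro j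
          have e1 : co N u j.succ.succ = 0 := congrFun (LinearMap.mem_ker.1 hk) j
          have e2 : co N v j.succ.succ = 0 := congrFun (LinearMap.mem_ker.1 hk') j
          rw [e1, e2]
      have h5 : u = v := by
        rw [← co_co N P hNP u, h4, co_co N P hNP v]
      exact Subtype.ext (Subtype.ext h5)
    have := LinearMap.finrank_le_finrank_of_injective hg
    simpa using this
  omega

/-- if the line lies in no plane contained in some section of dimension four, then some plane meets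
the cubic in the line and a double line -/
theorem good_of_U {n : ℕ} {T : Fin (n + 2) → Fin (n + 2) → Fin (n + 2) → ℂ}
    (hT : SymG T) (p q : Fin (n + 2) → ℂ)
    (hline : ∀ i j k : Fin 2, Bg T (![p, q] i) (![p, q] j) (![p, q] k) = 0)
    (hind : LinearIndependent ℂ ![p, q])
    (U : Submodule ℂ (Fin (n + 2) → ℂ)) (hpU : p ∈ U) (hqU : q ∈ U)
    (hU : 6 ≤ Module.finrank ℂ U)
    (hN : ∀ y ∈ U, LinearIndependent ℂ ![p, q, y] → ∃ i j l : Fin 3,
      Bg T ((![p, q, y] : Fin 3 → Fin (n + 2) → ℂ) i)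
        ((![p, q, y] : Fin 3 → Fin (n + 2) → ℂ) j)
        ((![p, q, y] : Fin 3 → Fin (n + 2) → ℂ) l) ≠ 0) : Good T p q := by
  obtain ⟨P, N, hPN, hNP, hP0, hP1⟩ := exists_mat p q hind
  have hT' : SymG (comp T P) := comp_sym hT P
  have hE0 : co P (Eg 0 : Fin (n + 2) → ℂ) = p := by rw [co_E, hP0]
  have hE1 : co P (Eg 1 : Fin (n + 2) → ℂ) = q := by rw [co_E, hP1]
  have hev : ∀ (η : Fin n → ℂ) i j, eval η (cm (comp T P) yy i j) = cm (comp T P) (pad η) i j := by
    intro η i j
    rw [ev_ae]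
    have h1 := cm_map (T := comp T P) (aeval η : MvPolynomial (Fin n) ℂ →ₐ[ℂ] ℂ) yy i j
    rw [eval_yy] at h1
    exact h1
  have hvy0 : pad (0 : Fin n → ℂ) = fun _ => 0 := by
    funext i
    refine cases2 (P := fun i => pad (0 : Fin n → ℂ) i = 0) rfl rfl (fun j => rfl) i
  have hz3 : ∀ x y : Fin (n + 2) → ℂ, Bg (comp T P) x y (fun _ => 0) = 0 := by
    intro x y
    rw [Bg_swap23 hT', Bg_swap12 hT']
    exact Bg_zero1 _ _ _
  obtain ⟨η, ⟨u, huU, hηu⟩, hη0, μ, hμ⟩ := eta (cm (comp T P) yy) (cm_symm yy) (by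
    intro i j
    rw [hev, hvy0]
    fin_cases i <;> fin_cases j <;> simp [cm, hz3])
    (U.map ((tailL n).comp (coL N))) (finrank_tail P N hNP U hU)
  have hcm : ∀ i j, cmv T p q (co P (pad η)) i j = μ i * μ j := by
    intro i j
    rw [← hμ, hev]
    unfold cm cmv
    simp only [Bg_co hT, hE0, hE1]
  have h1 : pad η = co N u - (co N u 0 • Eg 0 + co N u 1 • Eg 1) := by
    funext i
    refine cases2 (P := fun i => pad η i = (co N u -
      (co N u 0 • Eg 0 + co N u 1 • Eg 1) : Fin (n + 2) → ℂ) i) ?_ ?_ ?_ i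
    · simp [Eg]
    · simp [Eg]
    · intro j
      have e1 : (j.succ.succ : Fin (n + 2)) ≠ 0 := Fin.succ_ne_zero _
      have e2 : (j.succ.succ : Fin (n + 2)) ≠ 1 := fun h =>
        Fin.succ_ne_zero j (Fin.succ_injective _ h)
      simp only [pad_succ, Pi.sub_apply, Pi.add_apply, Pi.smul_apply, Eg, if_neg e1, if_neg e2,
        smul_zero, add_zero, sub_zero]
      rw [← hηu]
      rfl
  have hy : co P (pad η) = u - (co N u 0 • p + co N u 1 • q) := by
    have h2 := congrArg (coL P) h1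
    rw [map_sub, map_add, map_smul, map_smul] at h2
    change co P (pad η) = co P (co N u) - (co N u 0 • co P (Eg 0) + co N u 1 • co P (Eg 1)) at h2
    rw [h2, hE0, hE1, co_co N P hNP]
  have hyU : co P (pad η) ∈ U := by
    rw [hy]
    exact U.sub_mem huU (U.add_mem (U.smul_mem _ hpU) (U.smul_mem _ hqU))
  have h2 : LinearIndependent ℂ (coL P ∘ ![(Eg 0 : Fin (n + 2) → ℂ), Eg 1, pad η]) := by
    refine (ind_E η hη0).map' _ ?_
    rw [LinearMap.ker_eq_bot]
    exact Function.LeftInverse.injective (g := co N) (co_co P N hPN)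
  have h4 : (coL P ∘ ![(Eg 0 : Fin (n + 2) → ℂ), Eg 1, pad η]) = ![p, q, co P (pad η)] := by
    funext i
    fin_cases i
    · exact hE0
    · exact hE1
    · rfl
  rw [h4] at h2
  refine ⟨co P (pad η), μ, h2, ?_, hcm⟩
  rintro rfl
  obtain ⟨i, j, l, h5⟩ := hN _ hyU h2
  apply h5
  set y := co P (pad η) with hyd
  have h000 : Bg T p p p = 0 := hline 0 0 0
  have h001 : Bg T p p q = 0 := hline 0 0 1
  have h010 : Bg T p q p = 0 := hline 0 1 0
  have h011 : Bg T p q q = 0 := hline 0 1 1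
  have h100 : Bg T q p p = 0 := hline 1 0 0
  have h101 : Bg T q p q = 0 := hline 1 0 1
  have h110 : Bg T q q p = 0 := hline 1 1 0
  have h111 : Bg T q q q = 0 := hline 1 1 1
  have e00 : Bg T p p y = 0 := by
    have h6 : 3 * Bg T p p y = 0 * 0 := hcm 0 0
    linear_combination (1 / 3 : ℂ) * h6
  have e01 : Bg T p q y = 0 := by
    have h6 : 3 * Bg T p q y = 0 * 0 := hcm 0 1
    linear_combination (1 / 3 : ℂ) * h6
  have e11 : Bg T q q y = 0 := by
    have h6 : 3 * Bg T q q y = 0 * 0 := hcm 1 1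
    linear_combination (1 / 3 : ℂ) * h6
  have e02 : Bg T p y y = 0 := by
    have h6 : 3 / 2 * Bg T p y y = 0 * 0 := hcm 0 2
    linear_combination (2 / 3 : ℂ) * h6
  have e12 : Bg T q y y = 0 := by
    have h6 : 3 / 2 * Bg T q y y = 0 * 0 := hcm 1 2
    linear_combination (2 / 3 : ℂ) * h6
  have e22 : Bg T y y y = 0 := by
    have h6 : Bg T y y y = 0 * 0 := hcm 2 2
    linear_combination h6
  have s1 : Bg T p y p = 0 := by rw [Bg_swap23 hT, e00]
  have s2 : Bg T p y q = 0 := by rw [Bg_swap23 hT, e01]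
  have s3 : Bg T q y p = 0 := by rw [Bg_swap23 hT, Bg_swap12 hT, e01]
  have s4 : Bg T q y q = 0 := by rw [Bg_swap23 hT, e11]
  have s5 : Bg T q p y = 0 := by rw [Bg_swap12 hT, e01]
  have s6 : Bg T y p p = 0 := by rw [Bg_swap12 hT, Bg_swap23 hT, e00]
  have s7 : Bg T y p q = 0 := by rw [Bg_swap12 hT, Bg_swap23 hT, e01]
  have s8 : Bg T y q p = 0 := by rw [swap13 hT, e01]
  have s9 : Bg T y q q = 0 := by rw [Bg_swap12 hT, Bg_swap23 hT, e11]
  have s10 : Bg T y p y = 0 := by rw [Bg_swap12 hT, e02]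
  have s11 : Bg T y q y = 0 := by rw [Bg_swap12 hT, e12]
  have s12 : Bg T y y p = 0 := by rw [Bg_swap23 hT, Bg_swap12 hT, e02]
  have s13 : Bg T y y q = 0 := by rw [Bg_swap23 hT, Bg_swap12 hT, e12]
  fin_cases i <;> fin_cases j <;> fin_cases l <;>
    simp [h000, h001, h010, h011, h100, h101, h110, h111, e00, e01, e11, e02, e12, e22, s1, s2, s3,
      s4, s5, s6, s7, s8, s9, s10, s11, s12, s13]

end

end Pool.Agent.Q79.CN
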