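import Pool.Agent.Q79.CN.Final

/-! # Families of curves over lines -/

set_option autoImplicit false
set_option linter.unusedSectionVars false

namespace Pool.Agent.Q79.CN

open MvPolynomial Pool.Agent.TH314.PD Pool.Agent.Y201.C3

noncomputable section

/-- the main theorem, for trilinear forms -/
theorem main_tri {n : ℕ} (hn : 1 ≤ n) {T : Fin (n + 2) → Fin (n + 2) → Fin (n + 2) → ℂ}
    (hT : SymG T)
    (hsm : ∀ z : Fin (n + 2) → ℂ, (∀ i, eval z (pderiv i (fr T)) = 0) → z = 0)
    (p q : Fin (n + 2) → ℂ)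
    (hline : ∀ i j k : Fin 2, Bg T (![p, q] i) (![p, q] j) (![p, q] k) = 0)
    (hind : LinearIndependent ℂ ![p, q])
    (hgd : Good T p q)
    {M : Type} [Field M] [Algebra ℂ M] (htr : Algebra.trdeg ℂ M = (n : ℕ))
    (L : IntermediateField ℂ M) (t : M) (ht : Transcendental L t)
    (hM : Odd (Module.finrank (IntermediateField.adjoin L {t}) M))
    (y z : Fin (n + 2) → L) (a b c : M) (x : Fin (n + 2) → M)
    (hxd : x = fun i => a * algebraMap ℂ M (p i) + b * algebraMap ℂ M (q i) +
      c * (t * (y i : M) + (z i : M)))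
    (hx : aeval x (fr T) = 0) (hodd : Odd (Module.finrank (ratioField x) M)) : False := by
  obtain ⟨k, rfl⟩ : ∃ k, n = k + 1 := ⟨n - 1, by omega⟩
  have hS := smooth_of hT hsm
  exact multisections L hT hS htr (fun x hx hfin => generic_of_finite hn (by norm_num) (fr T)
    fr_hom hsm htr x (by rw [aeval_fr]; exact hx) hfin) p q hline hind hgd t ht hM y z
    a b c x hxd (by rw [← aeval_fr]; exact hx) hodd

end

end Pool.Agent.Q79.CN
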