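import Pool.Agent.Q79.CN.Par
import Pool.Agent.Q79.CN.Desc
import Pool.Agent.Helper273.Brg.P_springer

/-! # Families of curves over lines, multisections of odd degree -/

set_option autoImplicit false
set_option linter.unusedSectionVars false

namespace Pool.Agent.Q79.CN

open MvPolynomial Pool.Agent.TH314.PD Pool.Agent.Y201.C3

noncomputable section

/-- Springer's theorem for ternary quadratic forms -/
theorem springer_field (K M : Type) [Field K] [CharZero K] [Field M] [Algebra K M]
    (hodd : Odd (Module.finrank K M)) (A : Matrix (Fin 3) (Fin 3) K) (v : Fin 3 → M) (hv : v ≠ 0)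
    (h : ∑ i, ∑ j, v i * algebraMap K M (A i j) * v j = 0) :
    ∃ w : Fin 3 → K, w ≠ 0 ∧ ∑ i, ∑ j, w i * A i j * w j = 0 := by
  have hfd : FiniteDimensional K M := Module.finite_of_finrank_pos hodd.pos
  obtain ⟨α, hα⟩ := Field.exists_primitive_element K M
  have hint : IsIntegral K α := Algebra.IsIntegral.isIntegral α
  have hdeg : (minpoly K α).natDegree = Module.finrank K M :=
    (Field.primitive_element_iff_minpoly_natDegree_eq K α).1 hα
  have hP : ∀ i, ∃ P : Polynomial K, Polynomial.aeval α P = v i := by
    intro i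
    have h1 : v i ∈ IntermediateField.adjoin K {α} := by
      rw [hα]
      exact IntermediateField.mem_top
    rw [← IntermediateField.mem_toSubalgebra,
      IntermediateField.adjoin_simple_toSubalgebra_of_isAlgebraic hint.isAlgebraic,
      Algebra.adjoin_singleton_eq_range_aeval] at h1
    exact h1
  choose P hPv using hP
  obtain ⟨w, hw, hw0⟩ := Pool.Agent.Helper273.Sup.springer A α hint (by rw [hdeg]; exact hodd) P
    (by
      by_contra hcon
      push Not at hcon
      apply hv
      funext i
      rw [← hPv i, hcon i]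
      rfl) (by
      rw [← h]
      refine Finset.sum_congr rfl fun i _ => Finset.sum_congr rfl fun j _ => ?_
      rw [hPv, hPv]
      ring)
  refine ⟨w, hw, ?_⟩
  rw [← hw0]
  exact Finset.sum_congr rfl fun i _ => Finset.sum_congr rfl fun j _ => by ring

/-- an element of `L(t)` is a quotient of the values of two polynomials, the second one nonzero -/
theorem exists_quot {M : Type} [Field M] [Algebra ℂ M] (L : IntermediateField ℂ M) (t : M)
    (a : M) (ha : a ∈ IntermediateField.adjoin L {t}) :
    ∃ A D : Polynomial L, D ≠ 0 ∧ a = Polynomial.aeval t A / Polynomial.aeval t D := by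
  obtain ⟨r, s, h⟩ := (IntermediateField.mem_adjoin_simple_iff L a).1 ha
  by_cases hs : s = 0
  · refine ⟨0, 1, one_ne_zero, ?_⟩
    simp [h, hs]
  · exact ⟨r, s, hs, h⟩

section main

variable {k : ℕ} {T : Fin (k + 1 + 2) → Fin (k + 1 + 2) → Fin (k + 1 + 2) → ℂ}
  {M : Type} [Field M] [Algebra ℂ M] (L : IntermediateField ℂ M)

/-- families of rational curves -/
theorem families (hT : SymG T) (hS : SmoothG T) (htr : Algebra.trdeg ℂ M = (k + 1 : ℕ))
    (hgen : ∀ x : Fin (k + 1 + 2) → M, Bg T x x x = 0 → FiniteDimensional (ratioField x) M →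
      ∀ (e : ℕ) (H : MvPolynomial (Fin (k + 1 + 2)) ℂ), H.IsHomogeneous e → aeval x H = 0 →
        fr T ∣ H)
    (p q : Fin (k + 1 + 2) → ℂ)
    (hline : ∀ i j l : Fin 2, Bg T ((![p, q] : Fin 2 → Fin (k + 1 + 2) → ℂ) i)
      ((![p, q] : Fin 2 → Fin (k + 1 + 2) → ℂ) j)
      ((![p, q] : Fin 2 → Fin (k + 1 + 2) → ℂ) l) = 0)
    (hind : LinearIndependent ℂ ![p, q])
    (hgd : Good T p q)
    (t : M) (ht : Transcendental L t) (y z : Fin (k + 1 + 2) → L) (a b c : M)
    (ha : a ∈ IntermediateField.adjoin L {t}) (hb : b ∈ IntermediateField.adjoin L {t})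
    (hc : c ∈ IntermediateField.adjoin L {t}) (hc0 : c ≠ 0) (x : Fin (k + 1 + 2) → M)
    (hxd : x = fun i => a * algebraMap ℂ M (p i) + b * algebraMap ℂ M (q i) +
      c * (t * (y i : M) + (z i : M)))
    (hx : Bg T x x x = 0) (hodd : Odd (Module.finrank (ratioField x) M)) : False := by
  have hinj : ∀ P : Polynomial L, Polynomial.aeval t P = 0 → P = 0 :=
    fun P hP => by
      by_contra hne
      exact ht ⟨P, hne, hP⟩
  obtain ⟨A, A', hA', haA⟩ := exists_quot L t a ha
  obtain ⟨B, B', hB', hbB⟩ := exists_quot L t b hb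
  obtain ⟨C, C', hC', hcC⟩ := exists_quot L t c hc
  have hAt : Polynomial.aeval t A' ≠ 0 := fun h => hA' (hinj _ h)
  have hBt : Polynomial.aeval t B' ≠ 0 := fun h => hB' (hinj _ h)
  have hCt : Polynomial.aeval t C' ≠ 0 := fun h => hC' (hinj _ h)
  have hC : C ≠ 0 := by
    rintro rfl
    apply hc0
    rw [hcC, map_zero, zero_div]
  set V := A * B' * C' with hV
  set W := B * A' * C' with hW
  set g := C * A' * B' with hg
  set d := Polynomial.aeval t A' * Polynomial.aeval t B' * Polynomial.aeval t C' with hd
  have hd0 : d ≠ 0 := mul_ne_zero (mul_ne_zero hAt hBt) hCt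
  have hvec : (fun i => Polynomial.aeval t (vec L p q V W g y z i)) =
      fun i => d * x i := by
    funext i
    rw [aeval_vec, hV, hW, hg, hd, hxd]
    unfold lin
    simp only [map_mul]
    rw [haA, hbB, hcC]
    field_simp
  have hg0 : g ≠ 0 := mul_ne_zero (mul_ne_zero hC hA') hB'
  refine descent L hT hS htr hgen p q hline hind hgd
    (V.natDegree + W.natDegree + g.natDegree) t ht V W g y z (by omega) (by omega) (by omega)
    hg0 ?_ ?_
  · rw [hvec, Bg_smul1, Bg_smul2, Bg_smul3, hx]
    ring
  · refine odd_smul d⁻¹ (inv_ne_zero hd0) _ x ?_ hodd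
    funext i
    rw [congrFun hvec i, ← mul_assoc, inv_mul_cancel₀ hd0, one_mul]

/-- multisections of odd degree -/
theorem multisections (hT : SymG T) (hS : SmoothG T) (htr : Algebra.trdeg ℂ M = (k + 1 : ℕ))
    (hgen : ∀ x : Fin (k + 1 + 2) → M, Bg T x x x = 0 → FiniteDimensional (ratioField x) M →
      ∀ (e : ℕ) (H : MvPolynomial (Fin (k + 1 + 2)) ℂ), H.IsHomogeneous e → aeval x H = 0 →
        fr T ∣ H)
    (p q : Fin (k + 1 + 2) → ℂ)
    (hline : ∀ i j l : Fin 2, Bg T ((![p, q] : Fin 2 → Fin (k + 1 + 2) → ℂ) i)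
      ((![p, q] : Fin 2 → Fin (k + 1 + 2) → ℂ) j)
      ((![p, q] : Fin 2 → Fin (k + 1 + 2) → ℂ) l) = 0)
    (hind : LinearIndependent ℂ ![p, q])
    (hgd : Good T p q)
    (t : M) (ht : Transcendental L t)
    (hM : Odd (Module.finrank (IntermediateField.adjoin L {t}) M))
    (y z : Fin (k + 1 + 2) → L) (a b c : M) (x : Fin (k + 1 + 2) → M)
    (hxd : x = fun i => a * algebraMap ℂ M (p i) + b * algebraMap ℂ M (q i) +
      c * (t * (y i : M) + (z i : M)))
    (hx : Bg T x x x = 0) (hodd : Odd (Module.finrank (ratioField x) M)) : False := by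
  have hfin : FiniteDimensional (ratioField x) M := Module.finite_of_finrank_pos hodd.pos
  have hforms := hgen x hx hfin
  have hlineM : ∀ i j l : Fin 2, Bg T (fun s => algebraMap ℂ M
      ((![p, q] : Fin 2 → Fin (k + 1 + 2) → ℂ) i s))
      (fun s => algebraMap ℂ M ((![p, q] : Fin 2 → Fin (k + 1 + 2) → ℂ) j s))
      (fun s => algebraMap ℂ M ((![p, q] : Fin 2 → Fin (k + 1 + 2) → ℂ) l s)) = 0 := by
    intro i j l
    rw [Bg_alg, hline, map_zero]
  set u : Fin (k + 1 + 2) → M := fun s => algebraMap ℂ M (p s) with hu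
  set v : Fin (k + 1 + 2) → M := fun s => algebraMap ℂ M (q s) with hv
  have h1 : Bg T u u u = 0 := hlineM 0 0 0
  have h2 : Bg T u u v = 0 := hlineM 0 0 1
  have h3 : Bg T u v v = 0 := hlineM 0 1 1
  have h4 : Bg T v v v = 0 := hlineM 1 1 1
  -- the point is not on the line
  have hc0 : c ≠ 0 := by
    rintro rfl
    obtain ⟨P, N, hPN, hNP, hP0, hP1, hL', -⟩ := setup hT hS p q hline hind hgd
    have hS' := smooth_co hT hS P N hPN hNP
    have hT' : SymG (comp T P) := comp_sym hT P
    have hforms' := forms_co hT P N hPN x hforms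
    have h5 : co N x (0 : Fin (k + 1)).succ.succ = 0 := by
      have h6 : co N x = fun i => a * Eg 0 i + b * Eg 1 i := by
        have h7 : co P (fun i => a * (Eg 0 : Fin (k + 1 + 2) → M) i + b * Eg 1 i) = x := by
          funext j
          unfold co
          have h01 : P 0 j = p j := by rw [hP0]
          have h11 : P 1 j = q j := by rw [hP1]
          have h8 : ∀ i, (a * (Eg 0 : Fin (k + 1 + 2) → M) i + b * Eg 1 i) *
              algebraMap ℂ M (P i j) = (if i = 0 then a * algebraMap ℂ M (P i j) else 0) +
              (if i = 1 then b * algebraMap ℂ M (P i j) else 0) := by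
            intro i
            unfold Eg
            split_ifs <;> ring
          rw [Finset.sum_congr rfl fun i _ => h8 i, Finset.sum_add_distrib,
            Finset.sum_ite_eq', Finset.sum_ite_eq', if_pos (Finset.mem_univ _),
            if_pos (Finset.mem_univ _), h01, h11, hxd]
          ring
        rw [← h7, co_co P N hPN]
      rw [h6]
      have e1 : ((0 : Fin (k + 1)).succ.succ : Fin (k + 1 + 2)) ≠ 0 := Fin.succ_ne_zero _
      have e2 : ((0 : Fin (k + 1)).succ.succ : Fin (k + 1 + 2)) ≠ 1 := fun h =>
        Fin.succ_ne_zero (0 : Fin (k + 1)) (Fin.succ_injective _ h)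
      simp only [Eg, if_neg e1, if_neg e2]
      ring
    have h6 : aeval (co N x) (X (0 : Fin (k + 1)).succ.succ :
        MvPolynomial (Fin (k + 1 + 2)) ℂ) = 0 := by
      rw [aeval_X, h5]
    have h7 := eq_zero_of_dvd (fr_hom (T := comp T P)) (fr_ne_zero hT' hS')
      (isHomogeneous_X ℂ (0 : Fin (k + 1)).succ.succ)
      (by norm_num) (hforms' 1 _ (isHomogeneous_X _ _) h6)
    exact X_ne_zero _ h7
  -- the field `L(t)`
  set K1 : IntermediateField ℂ M := (IntermediateField.adjoin L {t}).restrictScalars ℂ with hK1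
  have htK : t ∈ K1 := IntermediateField.mem_adjoin_simple_self L t
  have hLK : ∀ s : L, (s : M) ∈ K1 := fun s =>
    (IntermediateField.adjoin L {t}).algebraMap_mem s
  have hM' : Odd (Module.finrank K1 M) := hM
  set w : Fin (k + 1 + 2) → M := fun i => t * (y i : M) + (z i : M) with hw
  have hwK : ∀ i, w i ∈ K1 := fun i => add_mem (mul_mem htK (hLK _)) (hLK _)
  have hxw : ∀ i, x i = a * u i + b * v i + c * w i := fun i => by rw [hxd]
  let uK : Fin (k + 1 + 2) → K1 := fun i => ⟨u i, K1.algebraMap_mem _⟩
  let vK : Fin (k + 1 + 2) → K1 := fun i => ⟨v i, K1.algebraMap_mem _⟩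
  let wK : Fin (k + 1 + 2) → K1 := fun i => ⟨w i, hwK i⟩
  have hA : ∀ i j, algebraMap K1 M (cmv T uK vK wK i j) = cmv T u v w i j := fun i j =>
    cmv_map K1.val uK vK wK i j
  have hchar : CharZero K1 := charZero_of_injective_algebraMap (algebraMap ℂ K1).injective
  have hq0 : qf (cmv T u v w) ![a, b, c] = 0 := by
    have h5 := key_v hT u v w ![a, b, c] h1 h2 h3 h4
    have h6 : (fun i => (![a, b, c] : Fin 3 → M) 0 * u i + (![a, b, c] : Fin 3 → M) 1 * v i +
        (![a, b, c] : Fin 3 → M) 2 * w i) = x := by
      funext i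
      rw [hxw]
      rfl
    rw [h6, hx] at h5
    exact (mul_eq_zero.1 h5.symm).resolve_left hc0
  obtain ⟨V, hV0, hV⟩ := springer_field K1 M hM' (cmv T uK vK wK) ![a, b, c] (by
    intro h
    exact hc0 (congrFun h 2)) (by
    simp only [hA]
    exact hq0)
  have hVM : qf (cmv T u v w) (fun i => (V i : M)) = 0 := by
    have h5 : (K1.val) (∑ i, ∑ j, V i * cmv T uK vK wK i j * V j) = 0 := by rw [hV, map_zero]
    rw [← h5]
    unfold qf
    simp only [map_sum, map_mul]
    refine Finset.sum_congr rfl fun i _ => Finset.sum_congr rfl fun j _ => ?_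
    rw [← hA]
    rfl
  by_cases hV2 : (V 2 : M) = 0
  · -- a point of the line
    set lam : Fin (k + 1 + 2) → M := fun i => (V 0 : M) * u i + (V 1 : M) * v i with hlam
    have hl0 : lam ≠ 0 := by
      intro h
      apply hV0
      have hind' : LinearIndependent M ![u, v] := by
        have h5 := hind
        rw [Fintype.linearIndependent_iff] at h5
        -- a nonzero minor
        have hmin : ∃ i j, p i * q j - p j * q i ≠ 0 := by
          by_contra hc
          push Not at hc
          have hp : p ≠ 0 := hind.ne_zero 0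
          obtain ⟨j, hj⟩ : ∃ j, p j ≠ 0 := by
            by_contra h3
            push Not at h3
            exact hp (funext h3)
          have := h5 ![q j, -p j] (by
            rw [Fin.sum_univ_two]
            funext i
            have := hc i j
            simp only [Matrix.cons_val_zero, Matrix.cons_val_one, Pi.add_apply, Pi.smul_apply,
              smul_eq_mul, Pi.zero_apply]
            linear_combination this) 1
          exact hj (by simpa using this)
        obtain ⟨i, j, hij⟩ := hmin
        have hij' : u i * v j - u j * v i ≠ 0 := by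
          have : u i * v j - u j * v i = algebraMap ℂ M (p i * q j - p j * q i) := by
            rw [map_sub, map_mul, map_mul]
          rw [this]
          exact (map_ne_zero _).2 hij
        rw [Fintype.linearIndependent_iff]
        intro g hg
        rw [Fin.sum_univ_two] at hg
        have e1 := congrFun hg i
        have e2 := congrFun hg j
        simp only [Matrix.cons_val_zero, Matrix.cons_val_one, Pi.add_apply, Pi.smul_apply,
          smul_eq_mul, Pi.zero_apply] at e1 e2
        have g0 : g 0 = 0 := by
          have : g 0 * (u i * v j - u j * v i) = 0 := by linear_combination v j * e1 - v i * e2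
          exact (mul_eq_zero.1 this).resolve_right hij'
        have g1 : g 1 = 0 := by
          have : g 1 * (u i * v j - u j * v i) = 0 := by linear_combination u i * e2 - u j * e1
          exact (mul_eq_zero.1 this).resolve_right hij'
        intro s
        fin_cases s
        · exact g0
        · exact g1
      have h6 := Fintype.linearIndependent_iff.1 hind' ![(V 0 : M), (V 1 : M)] (by
        rw [Fin.sum_univ_two]
        exact h)
      funext s
      apply Subtype.ext
      fin_cases s
      · exact h6 0
      · exact h6 1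
      · exact hV2
    have hκ := (third_odd hT hS htr x hx hforms hodd lam hl0 p q (V 0 : M) (V 1 : M)
      (fun i => rfl) hline hind hgd).1
    apply hκ
    have h5 : Bg T lam lam w = 0 := by
      have h6 : 3 * Bg T lam lam w = 0 := by
        rw [← hVM, qf_cmv, hlam]
        simp only [Bg_add1, Bg_add2, Bg_smul1, Bg_smul2]
        rw [Bg_swap12 hT v u w, hV2]
        ring
      have h7 : (3 : M) ≠ 0 := by
        have h := (map_ne_zero (algebraMap ℂ M)).2 (show (3 : ℂ) ≠ 0 by norm_num)
        rwa [map_ofNat] at h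
      exact (mul_eq_zero.1 h6).resolve_left h7
    have h8 : x = fun i => a * u i + b * v i + c * w i := funext hxw
    rw [h8]
    simp only [Bg_add3, Bg_smul3]
    rw [h5]
    have h9 : Bg T lam lam u = 0 := by
      rw [hlam]
      simp only [Bg_add1, Bg_add2, Bg_smul1, Bg_smul2]
      rw [h1, Bg_swap23 hT u v u, h2, swap13 hT v u u, h2, swap13 hT v v u, h3]
      ring
    have h10 : Bg T lam lam v = 0 := by
      rw [hlam]
      simp only [Bg_add1, Bg_add2, Bg_smul1, Bg_smul2]
      rw [h2, h3, Bg_swap12 hT v u v, h3, h4]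
      ring
    rw [h9, h10]
    ring
  · -- a new section
    set x' : Fin (k + 1 + 2) → M := fun i => (V 0 : M) * u i + (V 1 : M) * v i + (V 2 : M) * w i
      with hx'
    have hB' : Bg T x' x' x' = 0 := by
      have h5 := key_v hT u v w (fun i => (V i : M)) h1 h2 h3 h4
      rw [hVM, mul_zero] at h5
      exact h5
    have hodd' := parity hT hS htr x hx hforms hodd p q x'
      ((V 0 : M) - (V 2 : M) / c * a) ((V 1 : M) - (V 2 : M) / c * b) ((V 2 : M) / c)
      (div_ne_zero hV2 hc0) (by
        intro i
        rw [hxw i, hx']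
        change (V 0 : M) * u i + (V 1 : M) * v i + (V 2 : M) * w i =
          ((V 0 : M) - (V 2 : M) / c * a) * u i + ((V 1 : M) - (V 2 : M) / c * b) * v i + _
        field_simp
        ring) hB' hline hind hgd
    exact families L hT hS htr hgen p q hline hind hgd t ht y z (V 0 : M) (V 1 : M)
      (V 2 : M) (V 0).2 (V 1).2 (V 2).2 hV2 x' rfl hB' hodd'

end main

end

end Pool.Agent.Q79.CN
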