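import Pool.Agent.Q79.CN.Third

/-! # The parity of the degree depends on the projection from a line only -/

set_option autoImplicit false
set_option linter.unusedSectionVars false

namespace Pool.Agent.Q79.CN

open MvPolynomial Pool.Agent.TH314.PD Pool.Agent.Y201.C3

noncomputable section

/-- the parity principle in adapted coordinates -/
theorem cbp {k : ℕ} (T : Fin (k + 1 + 2) → Fin (k + 1 + 2) → Fin (k + 1 + 2) → ℂ) (hT : SymG T)
    (hL : LineG T)
    (hV : ∀ V : Fin 3 → MvPolynomial (Fin (k + 1)) ℂ,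
      ∑ i, ∑ j, V i * cm T yy i j * V j = 0 → V = 0)
    (M : Type) [Field M] [Algebra ℂ M] (htr : Algebra.trdeg ℂ M = (k + 1 : ℕ))
    (x : Fin (k + 1 + 2) → M) (hx : Bg T x x x = 0)
    (hq : ∀ (e : ℕ) (H : MvPolynomial (Fin (k + 1)) ℂ), H.IsHomogeneous e →
      aeval (fun j => x j.succ.succ) H = 0 → H = 0)
    (hrat : Odd (Module.finrank (ratioField x) M))
    (x' : Fin (k + 1 + 2) → M) (κ : M) (hκ : κ ≠ 0)
    (hx'2 : ∀ j : Fin (k + 1), x' j.succ.succ = κ * x j.succ.succ) (hB' : Bg T x' x' x' = 0) :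
    Odd (Module.finrank (ratioField x') M) := by
  set j0 : Fin (k + 1) := 0 with hj0
  set i0 : Fin (k + 1 + 2) := j0.succ.succ with hi0
  obtain ⟨q, hqd⟩ : ∃ q : Fin (k + 1) → M, q = fun j => x j.succ.succ := ⟨_, rfl⟩
  rw [← hqd] at hq
  have hqx : ∀ j : Fin (k + 1), x j.succ.succ = q j := fun j => by rw [hqd]
  have hq3 : q j0 ≠ 0 := by
    intro h0
    exact X_ne_zero j0 (hq 1 (X j0) (isHomogeneous_X _ _) (by rw [aeval_X]; exact h0))
  have hx5 : x i0 ≠ 0 := by
    rw [hi0, hqx]
    exact hq3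
  have hxy : ∀ j : Fin (k + 1), x j.succ.succ = x i0 * (q j / q j0) := by
    intro j
    rw [hi0, hqx, hqx, mul_div_cancel₀ _ hq3]
  have han : ∀ W : Fin 3 → M, (∀ i, W i ∈ ratioField q) → qf (cm T (ym q j0)) W = 0 → W = 0 :=
    fun W hW h0 => aniso hV q hq j0 hq3 W hW h0
  -- the conic over the field of ratios
  let yK : Fin (k + 1 + 2) → ratioField q := fun i => ⟨ym q j0 i, ym_mem q j0 i⟩
  have hA : ∀ i j, algebraMap (ratioField q) M (cm T yK i j) = cm T (ym q j0) i j := fun i j =>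
    cm_map (ratioField q).val yK i j
  have hchar : CharZero (ratioField q) :=
    charZero_of_injective_algebraMap (algebraMap ℂ (ratioField q)).injective
  have hanK : ∀ w : Fin 3 → ratioField q, ∑ i, ∑ j, w i * cm T yK i j * w j = 0 → w = 0 := by
    intro w hw
    have h1 : (ratioField q).val (qf (cm T yK) w) = 0 := by
      change (ratioField q).val (∑ i, ∑ j, w i * cm T yK i j * w j) = 0
      rw [hw, map_zero]
    rw [qf_cm_map] at h1
    have h2 := han (fun i => (w i : M)) (fun i => (w i).2) h1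
    funext i
    exact Subtype.ext (congrFun h2 i)
  have hgen : Odd (Module.finrank (IntermediateField.adjoin (ratioField q)
      {z : M | ∃ i j, z = (![x 0, x 1, x i0] : Fin 3 → M) i /
        (![x 0, x 1, x i0] : Fin 3 → M) j}) M) := by
    have h1 := fields q j0 hq3 x 1 one_ne_zero (fun j => by rw [hqx, one_mul])
    rw [← h1] at hrat
    exact hrat
  have hiso : ∑ i, ∑ j, (![x 0, x 1, x i0] : Fin 3 → M) i *
      algebraMap (ratioField q) M (cm T yK i j) * (![x 0, x 1, x i0] : Fin 3 → M) j = 0 := by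
    simp only [hA]
    exact isotropic hT hL (fun j => q j / q j0) x (x i0) hxy hx5 hx
  obtain ⟨c1, c2⟩ := Pool.Agent.Q79.CB.conic2 (ratioField q) M (cm T yK) (cm_symm yK) hanK
    (not_alg htr q j0 hq3) ![x 0, x 1, x i0] hiso hgen
  have hx'5 : x' i0 ≠ 0 := by
    rw [hi0, hx'2]
    exact mul_ne_zero hκ hx5
  have hx'y : ∀ j : Fin (k + 1), x' j.succ.succ = x' i0 * (q j / q j0) := by
    intro j
    rw [hi0, hx'2, hx'2, hxy j]
    ring
  have hfin := c2 ![x' 0, x' 1, x' i0] (by
    intro h0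
    exact hx'5 (congrFun h0 2)) (by
    simp only [hA]
    exact isotropic hT hL (fun j => q j / q j0) x' (x' i0) hx'y hx'5 hB')
  have hfe := fields q j0 hq3 x' κ hκ (fun j => by rw [hx'2, hqx])
  rw [← hfe]
  exact hfin

/-- **The parity principle.** -/
theorem parity {k : ℕ} {T : Fin (k + 1 + 2) → Fin (k + 1 + 2) → Fin (k + 1 + 2) → ℂ}
    (hT : SymG T) (hS : SmoothG T)
    {M : Type} [Field M] [Algebra ℂ M] (htr : Algebra.trdeg ℂ M = (k + 1 : ℕ))
    (x : Fin (k + 1 + 2) → M) (hx : Bg T x x x = 0)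
    (hforms : ∀ (e : ℕ) (H : MvPolynomial (Fin (k + 1 + 2)) ℂ), H.IsHomogeneous e →
      aeval x H = 0 → fr T ∣ H)
    (hRR : Odd (Module.finrank (ratioField x) M))
    (p q : Fin (k + 1 + 2) → ℂ) (x' : Fin (k + 1 + 2) → M) (a b c : M) (hc : c ≠ 0)
    (hx' : ∀ i, x' i = a * algebraMap ℂ M (p i) + b * algebraMap ℂ M (q i) + c * x i)
    (hB : Bg T x' x' x' = 0)
    (hline : ∀ i j k : Fin 2, Bg T (![p, q] i) (![p, q] j) (![p, q] k) = 0)
    (hind : LinearIndependent ℂ ![p, q])
    (hgd : Good T p q) :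
    Odd (Module.finrank (ratioField x') M) := by
  obtain ⟨P, N, hPN, hNP, hP0, hP1, hL', hani⟩ := setup hT hS p q hline hind hgd
  have hT' : SymG (comp T P) := comp_sym hT P
  have hS' := smooth_co hT hS P N hPN hNP
  have hxc : co P (co N x) = x := co_co N P hNP x
  have hxc' : co P (co N x') = x' := co_co N P hNP x'
  have hforms' := forms_co hT P N hPN x hforms
  have hb : ∃ b, x b ≠ 0 := by
    by_contra hcon
    push Not at hcon
    have h2 : aeval x (X 0 : MvPolynomial (Fin (k + 1 + 2)) ℂ) = 0 := by rw [aeval_X, hcon]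
    have h3 := eq_zero_of_dvd (fr_hom (T := T)) (fr_ne_zero hT hS)
      (isHomogeneous_X ℂ (0 : Fin (k + 1 + 2)))
      (by norm_num) (hforms 1 _ (isHomogeneous_X _ _) h2)
    exact X_ne_zero _ h3
  have hRR' : Odd (Module.finrank (ratioField (co N x)) M) := by
    rw [ratio_co P N hPN hNP x hb]
    exact hRR
  -- the new coordinates of `x'`
  have hcoE : ∀ (v : Fin (k + 1 + 2) → ℂ) (w : Fin (k + 1 + 2) → ℂ), co P w = v →
      co N (fun i => algebraMap ℂ M (v i)) = fun i => algebraMap ℂ M (w i) := by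
    intro v w h
    have h1 := co_map (Algebra.ofId ℂ M) N v
    have h2 : co N v = w := by rw [← h, co_co P N hPN]
    rw [h2] at h1
    exact h1.symm
  have hE0 : co P (Eg 0 : Fin (k + 1 + 2) → ℂ) = p := by rw [co_E, hP0]
  have hE1 : co P (Eg 1 : Fin (k + 1 + 2) → ℂ) = q := by rw [co_E, hP1]
  have hnew : ∀ j : Fin (k + 1), co N x' j.succ.succ = c * co N x j.succ.succ := by
    intro j
    have h1 : co N x' j.succ.succ = a * co N (fun i => algebraMap ℂ M (p i)) j.succ.succ +
        b * co N (fun i => algebraMap ℂ M (q i)) j.succ.succ + c * co N x j.succ.succ := by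
      unfold co
      rw [Finset.mul_sum, Finset.mul_sum, Finset.mul_sum, ← Finset.sum_add_distrib,
        ← Finset.sum_add_distrib]
      refine Finset.sum_congr rfl fun i _ => ?_
      rw [hx' i]
      ring
    have e1 : (j.succ.succ : Fin (k + 1 + 2)) ≠ 0 := Fin.succ_ne_zero _
    have e2 : (j.succ.succ : Fin (k + 1 + 2)) ≠ 1 := by
      intro h
      have := congrArg Fin.val h
      simp at this
    rw [h1, hcoE p _ hE0, hcoE q _ hE1]
    simp [Eg, e1, e2]
  have hodd := cbp (comp T P) hT' hL' hani M htr (co N x) (by rw [Bg_co hT, hxc, hx])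
    (forms_last hT' hS' (co N x) hforms') hRR' (co N x') c hc hnew
    (by rw [Bg_co hT, hxc', hB])
  have hb' : ∃ b, x' b ≠ 0 := by
    by_contra hcon
    push Not at hcon
    have h1 : x' = 0 := funext hcon
    have h2 := hnew 0
    rw [h1, co_zero, Pi.zero_apply] at h2
    have h3 : co N x (0 : Fin (k + 1)).succ.succ = 0 :=
      (mul_eq_zero.1 h2.symm).resolve_left hc
    have h4 : aeval (co N x) (X (0 : Fin (k + 1)).succ.succ : MvPolynomial (Fin (k + 1 + 2)) ℂ) = 0 := by
      rw [aeval_X, h3]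
    have h5 := eq_zero_of_dvd (fr_hom (T := comp T P)) (fr_ne_zero hT' hS')
      (isHomogeneous_X ℂ (0 : Fin (k + 1)).succ.succ)
      (by norm_num) (hforms' 1 _ (isHomogeneous_X _ _) h4)
    exact X_ne_zero _ h5
  rw [ratio_co P N hPN hNP x' hb'] at hodd
  exact hodd

end

end Pool.Agent.Q79.CN
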