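import Pool.Agent.Q79.CN.Coord

/-! # Third points on lines through a line of a smooth cubic hypersurface -/

set_option autoImplicit false
set_option linter.unusedSectionVars false

namespace Pool.Agent.Q79.CN

open MvPolynomial Pool.Agent.TH314.PD Pool.Agent.Y201.C3

noncomputable section

theorem co_E {m : ℕ} (P : Matrix (Fin m) (Fin m) ℂ) (a : Fin m) :
    co P (Eg a : Fin m → ℂ) = P a := by
  funext j
  unfold co Eg
  rw [Finset.sum_eq_single a]
  · rw [if_pos rfl, one_mul]
    rfl
  · intro b _ hb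
    rw [if_neg hb, zero_mul]
  · intro h
    exact absurd (Finset.mem_univ _) h

theorem ind_E {n : ℕ} (η : Fin n → ℂ) (hη : η ≠ 0) :
    LinearIndependent ℂ ![(Eg 0 : Fin (n + 2) → ℂ), Eg 1, pad η] := by
  rw [Fintype.linearIndependent_iff]
  intro g hg
  rw [Fin.sum_univ_three] at hg
  have h2 := congrFun hg 0
  have h3 := congrFun hg 1
  have g0 : g 0 = 0 := by simpa [Eg] using h2
  have g1 : g 1 = 0 := by simpa [Eg] using h3
  have g2 : g 2 = 0 := by
    by_contra hne
    apply hη
    funext j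
    have h4 := congrFun hg j.succ.succ
    simp [g0, g1] at h4
    exact h4.resolve_left hne
  intro i
  fin_cases i
  · exact g0
  · exact g1
  · exact g2

/-- the conic for another vector of the same plane -/
theorem good_shift {m : ℕ} {T : Fin m → Fin m → Fin m → ℂ} (hT : SymG T) (p q y : Fin m → ℂ)
    (hline : ∀ i j k : Fin 2, Bg T (![p, q] i) (![p, q] j) (![p, q] k) = 0) (μ : Fin 3 → ℂ)
    (h : ∀ i j, cmv T p q y i j = μ i * μ j) (a b : ℂ) :
    ∀ i j, cmv T p q (fun i => y i + (a * p i + b * q i)) i j =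
      ![μ 0, μ 1, μ 2 + a * μ 0 + b * μ 1] i * ![μ 0, μ 1, μ 2 + a * μ 0 + b * μ 1] j := by
  have h000 : Bg T p p p = 0 := hline 0 0 0
  have h001 : Bg T p p q = 0 := hline 0 0 1
  have h010 : Bg T p q p = 0 := hline 0 1 0
  have h011 : Bg T p q q = 0 := hline 0 1 1
  have h100 : Bg T q p p = 0 := hline 1 0 0
  have h101 : Bg T q p q = 0 := hline 1 0 1
  have h110 : Bg T q q p = 0 := hline 1 1 0
  have h111 : Bg T q q q = 0 := hline 1 1 1
  have e00 : 3 * Bg T p p y = μ 0 * μ 0 := h 0 0
  have e01 : 3 * Bg T p q y = μ 0 * μ 1 := h 0 1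
  have e11 : 3 * Bg T q q y = μ 1 * μ 1 := h 1 1
  have e02 : 3 / 2 * Bg T p y y = μ 0 * μ 2 := h 0 2
  have e12 : 3 / 2 * Bg T q y y = μ 1 * μ 2 := h 1 2
  have e22 : Bg T y y y = μ 2 * μ 2 := h 2 2
  have s1 : Bg T p y p = Bg T p p y := Bg_swap23 hT _ _ _
  have s2 : Bg T p y q = Bg T p q y := Bg_swap23 hT _ _ _
  have s3 : Bg T q y p = Bg T p q y := by rw [Bg_swap23 hT, Bg_swap12 hT]
  have s4 : Bg T q y q = Bg T q q y := Bg_swap23 hT _ _ _
  have s5 : Bg T q p y = Bg T p q y := Bg_swap12 hT _ _ _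
  have s6 : Bg T y p p = Bg T p p y := by rw [Bg_swap12 hT, Bg_swap23 hT]
  have s7 : Bg T y p q = Bg T p q y := by rw [Bg_swap12 hT, Bg_swap23 hT]
  have s8 : Bg T y q p = Bg T p q y := by rw [swap13 hT]
  have s9 : Bg T y q q = Bg T q q y := by rw [Bg_swap12 hT, Bg_swap23 hT]
  have s10 : Bg T y p y = Bg T p y y := Bg_swap12 hT _ _ _
  have s11 : Bg T y q y = Bg T q y y := Bg_swap12 hT _ _ _
  have s12 : Bg T y y p = Bg T p y y := by rw [Bg_swap23 hT, Bg_swap12 hT]
  have s13 : Bg T y y q = Bg T q y y := by rw [Bg_swap23 hT, Bg_swap12 hT]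
  have f00 : 3 * Bg T p p (fun i => y i + (a * p i + b * q i)) = μ 0 * μ 0 := by
    simp only [Bg_add3, Bg_smul3]
    rw [h000, h001]
    linear_combination e00
  have f01 : 3 * Bg T p q (fun i => y i + (a * p i + b * q i)) = μ 0 * μ 1 := by
    simp only [Bg_add3, Bg_smul3]
    rw [h010, h011]
    linear_combination e01
  have f11 : 3 * Bg T q q (fun i => y i + (a * p i + b * q i)) = μ 1 * μ 1 := by
    simp only [Bg_add3, Bg_smul3]
    rw [h110, h111]
    linear_combination e11
  have f02 : 3 / 2 * Bg T p (fun i => y i + (a * p i + b * q i))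
      (fun i => y i + (a * p i + b * q i)) = μ 0 * (μ 2 + a * μ 0 + b * μ 1) := by
    simp only [Bg_add2, Bg_add3, Bg_smul2, Bg_smul3]
    rw [h000, h001, h010, h011, s1, s2]
    linear_combination e02 + a * e00 + b * e01
  have f12 : 3 / 2 * Bg T q (fun i => y i + (a * p i + b * q i))
      (fun i => y i + (a * p i + b * q i)) = μ 1 * (μ 2 + a * μ 0 + b * μ 1) := by
    simp only [Bg_add2, Bg_add3, Bg_smul2, Bg_smul3]
    rw [h100, h101, h110, h111, s3, s4, s5]
    linear_combination e12 + a * e01 + b * e11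
  have f22 : Bg T (fun i => y i + (a * p i + b * q i)) (fun i => y i + (a * p i + b * q i))
      (fun i => y i + (a * p i + b * q i)) =
      (μ 2 + a * μ 0 + b * μ 1) * (μ 2 + a * μ 0 + b * μ 1) := by
    simp only [Bg_add1, Bg_add2, Bg_add3, Bg_smul1, Bg_smul2, Bg_smul3]
    rw [h000, h001, h010, h011, h100, h101, h110, h111, s1, s2, s3, s4, s5, s6, s7, s8, s9, s10,
      s11, s12, s13]
    linear_combination e22 + 2 * a * e02 + 2 * b * e12 + a ^ 2 * e00 + 2 * a * b * e01 +
      b ^ 2 * e11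
  intro i j
  fin_cases i <;> fin_cases j
  · exact f00
  · exact f01
  · exact f02
  · exact f01.trans (mul_comm _ _)
  · exact f11
  · exact f12
  · exact f02.trans (mul_comm _ _)
  · exact f12.trans (mul_comm _ _)
  · exact f22

/-- adapted coordinates -/
theorem setup {n : ℕ} {T : Fin (n + 2) → Fin (n + 2) → Fin (n + 2) → ℂ}
    (hT : SymG T) (hS : SmoothG T)
    (p q : Fin (n + 2) → ℂ)
    (hline : ∀ i j k : Fin 2, Bg T (![p, q] i) (![p, q] j) (![p, q] k) = 0)
    (hind : LinearIndependent ℂ ![p, q]) (hgd : Good T p q) :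
    ∃ P N : Matrix (Fin (n + 2)) (Fin (n + 2)) ℂ, P * N = 1 ∧ N * P = 1 ∧ P 0 = p ∧ P 1 = q ∧
      LineG (comp T P) ∧ ∀ V : Fin 3 → MvPolynomial (Fin n) ℂ,
        ∑ i, ∑ j, V i * cm (comp T P) yy i j * V j = 0 → V = 0 := by
  obtain ⟨P, N, hPN, hNP, hP0, hP1⟩ := exists_mat p q hind
  have hT' : SymG (comp T P) := comp_sym hT P
  have hS' := smooth_co hT hS P N hPN hNP
  have hL' : LineG (comp T P) := by
    intro i j l hi hj hk
    have hrow : ∀ i : Fin (n + 2), i.val < 2 → ∃ i' : Fin 2, P i = ![p, q] i' := by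
      intro i hi
      have : i = 0 ∨ i = 1 := by
        rcases i with ⟨i, hi'⟩
        simp only [Fin.ext_iff]
        change i = 0 ∨ i = 1
        change i < 2 at hi
        omega
      rcases this with rfl | rfl
      · exact ⟨0, hP0⟩
      · exact ⟨1, hP1⟩
    obtain ⟨i', hi'⟩ := hrow i hi
    obtain ⟨j', hj'⟩ := hrow j hj
    obtain ⟨k', hk'⟩ := hrow l hk
    have := hline i' j' k'
    rw [← hi', ← hj', ← hk'] at this
    exact this
  have hE0 : co P (Eg 0 : Fin (n + 2) → ℂ) = p := by rw [co_E, hP0]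
  have hE1 : co P (Eg 1 : Fin (n + 2) → ℂ) = q := by rw [co_E, hP1]
  refine ⟨P, N, hPN, hNP, hP0, hP1, hL', ?_⟩
  obtain ⟨u, μ, hui, hμ0, hμ⟩ := hgd
  set η : Fin n → ℂ := fun j => co N u j.succ.succ with hη
  have h1 : pad η = co N u - (co N u 0 • Eg 0 + co N u 1 • Eg 1) := by
    funext i
    refine cases2 (P := fun i => pad η i = (co N u -
      (co N u 0 • Eg 0 + co N u 1 • Eg 1) : Fin (n + 2) → ℂ) i) ?_ ?_ ?_ i
    · simp [Eg]
    · simp [Eg]
    · intro j
      have e1 : (j.succ.succ : Fin (n + 2)) ≠ 0 := Fin.succ_ne_zero _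
      have e2 : (j.succ.succ : Fin (n + 2)) ≠ 1 := fun h =>
        Fin.succ_ne_zero j (Fin.succ_injective _ h)
      simp only [pad_succ, Pi.sub_apply, Pi.add_apply, Pi.smul_apply, Eg, if_neg e1, if_neg e2,
        smul_zero, add_zero, sub_zero]
      rfl
  have hy : co P (pad η) = u - (co N u 0 • p + co N u 1 • q) := by
    have h2 := congrArg (coL P) h1
    rw [map_sub, map_add, map_smul, map_smul] at h2
    change co P (pad η) = co P (co N u) - (co N u 0 • co P (Eg 0) + co N u 1 • co P (Eg 1)) at h2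
    rw [h2, hE0, hE1, co_co N P hNP]
  have hη0 : η ≠ 0 := by
    intro h
    have h2 : pad η = 0 := by
      rw [h]
      funext i
      exact cases2 (P := fun i => pad (0 : Fin n → ℂ) i = 0) rfl rfl (fun j => rfl) i
    rw [h2, co_zero] at hy
    have h3 := Fintype.linearIndependent_iff.1 hui ![co N u 0, co N u 1, -1] (by
      rw [Fin.sum_univ_three]
      change co N u 0 • p + co N u 1 • q + (-1 : ℂ) • u = 0
      rw [neg_smul, one_smul, ← sub_eq_add_neg, ← neg_sub, ← hy, neg_zero]) 2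
    simp at h3
  have hy' : co P (pad η) = fun i => u i + (-(co N u 0) * p i + -(co N u 1) * q i) := by
    rw [hy]
    funext i
    simp only [Pi.sub_apply, Pi.add_apply, Pi.smul_apply, smul_eq_mul]
    ring
  have hsh := good_shift hT p q u hline μ hμ (-(co N u 0)) (-(co N u 1))
  rw [← hy'] at hsh
  refine ani hT' hS' hL' η hη0
    ![μ 0, μ 1, μ 2 + -(co N u 0) * μ 0 + -(co N u 1) * μ 1] ?_ ?_
  · intro h
    apply hμ0
    have g0 : μ 0 = 0 := congrFun h 0
    have g1 : μ 1 = 0 := congrFun h 1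
    have g2 : μ 2 + -(co N u 0) * μ 0 + -(co N u 1) * μ 1 = 0 := congrFun h 2
    rw [g0, g1, mul_zero, mul_zero, add_zero, add_zero] at g2
    funext i
    fin_cases i
    · exact g0
    · exact g1
    · exact g2
  · intro i j
    rw [← hsh]
    have hcm : cm (comp T P) (pad η) i j = cmv T p q (co P (pad η)) i j := by
      unfold cm cmv
      simp only [Bg_co hT, hE0, hE1]
    exact hcm

theorem third_odd {k : ℕ} {T : Fin (k + 1 + 2) → Fin (k + 1 + 2) → Fin (k + 1 + 2) → ℂ}
    (hT : SymG T) (hS : SmoothG T)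
    {M : Type} [Field M] [Algebra ℂ M] (htr : Algebra.trdeg ℂ M = (k + 1 : ℕ))
    (x : Fin (k + 1 + 2) → M) (hx : Bg T x x x = 0)
    (hforms : ∀ (e : ℕ) (H : MvPolynomial (Fin (k + 1 + 2)) ℂ), H.IsHomogeneous e →
      aeval x H = 0 → fr T ∣ H)
    (hRR : Odd (Module.finrank (ratioField x) M))
    (lam : Fin (k + 1 + 2) → M) (hl0 : lam ≠ 0)
    (p q : Fin (k + 1 + 2) → ℂ) (a b : M)
    (hlam : ∀ i, lam i = a * algebraMap ℂ M (p i) + b * algebraMap ℂ M (q i))
    (hline : ∀ i j k : Fin 2, Bg T (![p, q] i) (![p, q] j) (![p, q] k) = 0)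
    (hind : LinearIndependent ℂ ![p, q])
    (hgd : Good T p q) :
    Bg T lam lam x ≠ 0 ∧ Odd (Module.finrank (ratioField fun i => Bg T lam lam x * x i -
        Bg T lam x x * lam i) M) := by
  obtain ⟨P, N, hPN, hNP, hP0, hP1, hL', hani⟩ := setup hT hS p q hline hind hgd
  have hT' : SymG (comp T P) := comp_sym hT P
  have hS' := smooth_co hT hS P N hPN hNP
  have hxc : co P (co N x) = x := co_co N P hNP x
  have hforms' := forms_co hT P N hPN x hforms
  have hb : ∃ b, x b ≠ 0 := by
    by_contra hcon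
    push Not at hcon
    have h2 : aeval x (X 0 : MvPolynomial (Fin (k + 1 + 2)) ℂ) = 0 := by rw [aeval_X, hcon]
    have h3 := eq_zero_of_dvd (fr_hom (T := T)) (fr_ne_zero hT hS)
      (isHomogeneous_X ℂ (0 : Fin (k + 1 + 2)))
      (by norm_num) (hforms 1 _ (isHomogeneous_X _ _) h2)
    exact X_ne_zero _ h3
  have hRR' : Odd (Module.finrank (ratioField (co N x)) M) := by
    rw [ratio_co P N hPN hNP x hb]
    exact hRR
  have hlam' : co P (co N lam) = lam := co_co N P hNP lam
  have hlamN : co N lam = fun i => if i = 0 then a else if i = 1 then b else 0 := by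
    have h1 : co P (fun i => if i = 0 then a else if i = 1 then b else 0) = lam := by
      funext j
      unfold co
      have h01 : P 0 j = p j := by rw [hP0]
      have h11 : P 1 j = q j := by rw [hP1]
      rw [hlam j, Fin.sum_univ_succ, Fin.sum_univ_succ, Finset.sum_eq_zero]
      · have h12 : (Fin.succ 0 : Fin (k + 1 + 2)) = 1 := rfl
        rw [h12, h01, h11]
        simp
      · intro i _
        have e1 : (i.succ.succ : Fin (k + 1 + 2)) ≠ 0 := Fin.succ_ne_zero _
        have e2 : (i.succ.succ : Fin (k + 1 + 2)) ≠ 1 := by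
          intro h
          have := congrArg Fin.val h
          simp at this
        simp only [if_neg e1, if_neg e2, zero_mul]
    rw [← h1, co_co P N hPN]
  have hlamS : ∀ j : Fin (k + 1), co N lam j.succ.succ = 0 := by
    intro j
    rw [hlamN]
    have e1 : (j.succ.succ : Fin (k + 1 + 2)) ≠ 0 := Fin.succ_ne_zero _
    have e2 : (j.succ.succ : Fin (k + 1 + 2)) ≠ 1 := by
      intro h
      have := congrArg Fin.val h
      simp at this
    simp only [if_neg e1, if_neg e2]
  obtain ⟨hk, hodd⟩ := cbn (comp T P) hT' hL' hani M htr (co N x) (by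
      rw [Bg_co hT, hxc, hx])
    (forms_last hT' hS' (co N x) hforms') hRR' (co N lam) (by
      intro h
      apply hl0
      rw [← hlam', h, co_zero]) hlamS
  rw [Bg_co hT, hxc, hlam'] at hk
  have h8 : (fun i => Bg (comp T P) (co N lam) (co N lam) (co N x) * co N x i -
      Bg (comp T P) (co N lam) (co N x) (co N x) * co N lam i) =
      co N (fun i => Bg T lam lam x * x i - Bg T lam x x * lam i) := by
    funext j
    rw [Bg_co hT, Bg_co hT, hxc, hlam']
    unfold co
    simp only [sub_mul, Finset.sum_sub_distrib, Finset.mul_sum, mul_assoc]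
  rw [h8] at hodd
  have hx'b : ∃ b, (fun i => Bg T lam lam x * x i - Bg T lam x x * lam i) b ≠ 0 := by
    by_contra hcon
    push Not at hcon
    set i5 : Fin (k + 1 + 2) := (0 : Fin (k + 1)).succ.succ with hi5
    have h9 : co N x i5 ≠ 0 := by
      intro h
      have h2 : aeval (co N x) (X i5 : MvPolynomial (Fin (k + 1 + 2)) ℂ) = 0 := by rw [aeval_X, h]
      have h3 := eq_zero_of_dvd (fr_hom (T := comp T P)) (fr_ne_zero hT' hS')
        (isHomogeneous_X ℂ i5)
        (by norm_num) (hforms' 1 _ (isHomogeneous_X _ _) h2)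
      exact X_ne_zero _ h3
    have h10 := congrFun h8 i5
    have h11 : (fun i => Bg T lam lam x * x i - Bg T lam x x * lam i) = 0 := funext hcon
    rw [h11, co_zero, Pi.zero_apply] at h10
    have h12 : co N lam i5 = 0 := hlamS 0
    rw [h12, mul_zero, sub_zero, Bg_co hT, hxc, hlam'] at h10
    exact mul_ne_zero hk h9 h10
  rw [ratio_co P N hPN hNP _ hx'b] at hodd
  exact ⟨hk, hodd⟩

end

end Pool.Agent.Q79.CN
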